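import Pool.Agent.R305.SK.Ker3

set_option autoImplicit false

/-! The two-sided kernel and the contour identity. -/

namespace Pool.Agent.R305.SK

open MeasureTheory Finset Complex Filter Topology Set

noncomputable section

/-- the kernel on the right -/
def eP (θ : ℝ) (n : ℕ) (z : ℂ) : ℂ := Complex.sin (Real.pi * (z + θ)) ^ 2 * KK θ n z

/-- the kernel on the left -/
def eM (θ : ℝ) (n : ℕ) (z : ℂ) : ℂ := -(Complex.sin (Real.pi * (z + θ)) ^ 2 * KK (1 - θ) n (-z))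

/-- the two-sided kernel -/
def EE (θ : ℝ) (n : ℕ) (z : ℂ) : ℂ := if 0 ≤ z.re then eP θ n z else eM θ n z

lemma eP_diff (θ : ℝ) (n : ℕ) {z : ℂ} (hz : -θ < z.re) : DifferentiableAt ℂ (eP θ n) z := by
  have hopen : IsOpen {z : ℂ | -θ < z.re} := isOpen_lt continuous_const Complex.continuous_re
  have h1 := (KK_diff θ n).differentiableAt (hopen.mem_nhds hz)
  have h2 : DifferentiableAt ℂ (fun z : ℂ => Complex.sin (Real.pi * (z + θ)) ^ 2) z := by fun_prop
  exact h2.mul h1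

lemma eM_diff (θ : ℝ) (n : ℕ) {z : ℂ} (hz : z.re < 1 - θ) : DifferentiableAt ℂ (eM θ n) z := by
  have hopen : IsOpen {z : ℂ | -(1 - θ) < z.re} := isOpen_lt continuous_const Complex.continuous_re
  have h0 : -(1 - θ) < (-z).re := by simp; linarith
  have h1 := (KK_diff (1 - θ) n).differentiableAt (hopen.mem_nhds h0)
  have h3 : DifferentiableAt ℂ (fun z : ℂ => KK (1 - θ) n (-z)) z :=
    DifferentiableAt.comp (f := fun z : ℂ => -z) z h1 (by fun_prop)
  have h2 : DifferentiableAt ℂ (fun z : ℂ => Complex.sin (Real.pi * (z + θ)) ^ 2) z := by fun_prop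
  exact (h2.mul h3).neg

lemma norm_sin_le (w : ℂ) : ‖Complex.sin w‖ ≤ Real.exp |w.im| := by
  have h1 : Complex.sin w = (cexp (-w * I) - cexp (w * I)) * I / 2 := rfl
  rw [h1, norm_div, norm_mul, Complex.norm_I, mul_one]
  have h2 : ‖(2:ℂ)‖ = 2 := by simp
  rw [h2, div_le_iff₀ (by norm_num)]
  refine (norm_sub_le _ _).trans ?_
  rw [Complex.norm_exp, Complex.norm_exp]
  have e1 : (-w * I).re = w.im := by simp
  have e2 : (w * I).re = -w.im := by simp
  rw [e1, e2]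
  have h3 : Real.exp w.im ≤ Real.exp |w.im| := Real.exp_le_exp.2 (le_abs_self _)
  have h4 : Real.exp (-w.im) ≤ Real.exp |w.im| := Real.exp_le_exp.2 (neg_le_abs _)
  linarith

lemma sin_sq_bd (θ : ℝ) (z : ℂ) :
    ‖Complex.sin (Real.pi * (z + θ)) ^ 2‖ ≤ Real.exp (2 * Real.pi * |z.im|) := by
  rw [norm_pow]
  have h := norm_sin_le (Real.pi * (z + θ))
  have e : |((Real.pi : ℂ) * (z + θ)).im| = Real.pi * |z.im| := by
    rw [Complex.im_ofReal_mul, abs_mul, abs_of_pos Real.pi_pos]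
    simp
  rw [e] at h
  calc ‖Complex.sin (Real.pi * (z + θ))‖ ^ 2 ≤ (Real.exp (Real.pi * |z.im|)) ^ 2 := by gcongr
    _ = Real.exp (2 * Real.pi * |z.im|) := by
        rw [← Real.exp_nat_mul]
        congr 1
        push_cast
        ring

lemma eP_bd {θ : ℝ} (h0 : 0 < θ) (h1 : θ ≤ 1) {n : ℕ} (hn : Even n) (hB : bernoulliFun n θ = 0) :
    ∃ C : ℝ, 0 ≤ C ∧ ∀ z : ℂ, 0 ≤ z.re →
      ‖eP θ n z‖ ≤ C * Real.exp (2 * Real.pi * |z.im|) / (1 + ‖z‖ ^ 2) := by
  obtain ⟨C, hC, h⟩ := KK_bd h0 h1 hn hB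
  refine ⟨C, hC, fun z hz => ?_⟩
  unfold eP
  rw [norm_mul]
  calc _ ≤ Real.exp (2 * Real.pi * |z.im|) * (C / (1 + ‖z‖ ^ 2)) := by
        apply mul_le_mul (sin_sq_bd θ z) (h z hz) (norm_nonneg _) (Real.exp_pos _).le
    _ = _ := by ring

lemma eM_bd {θ : ℝ} (h0 : 0 ≤ θ) (h1 : θ < 1) {n : ℕ} (hn : Even n) (hB : bernoulliFun n θ = 0) :
    ∃ C : ℝ, 0 ≤ C ∧ ∀ z : ℂ, z.re ≤ 0 →
      ‖eM θ n z‖ ≤ C * Real.exp (2 * Real.pi * |z.im|) / (1 + ‖z‖ ^ 2) := by
  obtain ⟨C, hC, h⟩ := KK_bd (θ := 1 - θ) (by linarith) (by linarith) hn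
    (by rw [bernoulliFun_eval_one_sub, hB, mul_zero])
  refine ⟨C, hC, fun z hz => ?_⟩
  unfold eM
  rw [norm_neg, norm_mul]
  have h2 := h (-z) (by simpa using hz)
  rw [norm_neg] at h2
  calc _ ≤ Real.exp (2 * Real.pi * |z.im|) * (C / (1 + ‖z‖ ^ 2)) := by
        apply mul_le_mul (sin_sq_bd θ z) h2 (norm_nonneg _) (Real.exp_pos _).le
    _ = _ := by ring

/-- common bound for the two-sided kernel -/
lemma EE_bd {θ : ℝ} (h0 : 0 < θ) (h1 : θ < 1) {n : ℕ} (hn : Even n) (hB : bernoulliFun n θ = 0) :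
    ∃ C : ℝ, 0 ≤ C ∧ (∀ z : ℂ, 0 ≤ z.re → ‖eP θ n z‖ ≤ C * Real.exp (2 * Real.pi * |z.im|) / (1 + ‖z‖ ^ 2)) ∧
      (∀ z : ℂ, z.re ≤ 0 → ‖eM θ n z‖ ≤ C * Real.exp (2 * Real.pi * |z.im|) / (1 + ‖z‖ ^ 2)) ∧
      ∀ z : ℂ, ‖EE θ n z‖ ≤ C * Real.exp (2 * Real.pi * |z.im|) / (1 + ‖z‖ ^ 2) := by
  obtain ⟨C1, hC1, h2⟩ := eP_bd h0 h1.le hn hB
  obtain ⟨C2, hC2, h3⟩ := eM_bd h0.le h1 hn hB
  have a1 : ∀ z : ℂ, 0 ≤ z.re → ‖eP θ n z‖ ≤ max C1 C2 * Real.exp (2 * Real.pi * |z.im|) / (1 + ‖z‖ ^ 2) := by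
    intro z hz
    refine (h2 z hz).trans ?_
    gcongr
    exact le_max_left _ _
  have a2 : ∀ z : ℂ, z.re ≤ 0 → ‖eM θ n z‖ ≤ max C1 C2 * Real.exp (2 * Real.pi * |z.im|) / (1 + ‖z‖ ^ 2) := by
    intro z hz
    refine (h3 z hz).trans ?_
    gcongr
    exact le_max_right _ _
  refine ⟨max C1 C2, le_max_of_le_left hC1, a1, a2, fun z => ?_⟩
  unfold EE
  split_ifs with h
  · exact a1 z h
  · exact a2 z (not_le.1 h).le

/-- the right half-strip -/
lemma strip_right {f : ℂ → ℂ} {U K : ℝ} (hU : 0 ≤ U)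
    (hd : ∀ z : ℂ, 0 ≤ z.re → 0 ≤ z.im → z.im ≤ U → DifferentiableAt ℂ f z)
    (hb : ∀ z : ℂ, 0 ≤ z.re → 0 ≤ z.im → z.im ≤ U → ‖f z‖ ≤ K * (1 + |z.re|) ^ (-(3/2) : ℝ)) :
    IntegrableOn (fun x : ℝ => f x) (Ioi 0) ∧ IntegrableOn (fun x : ℝ => f (x + U * I)) (Ioi 0) ∧
    ∫ x in Ioi (0:ℝ), f x = (∫ x in Ioi (0:ℝ), f (x + U * I)) + I * ∫ u in (0:ℝ)..U, f (u * I) := by
  have hmaj : Integrable (fun x : ℝ => K * (1 + |x|) ^ (-(3/2) : ℝ)) := by
    have h := integrable_one_add_norm (E := ℝ) (μ := volume) (r := 3/2) (by simp; norm_num)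
    simp only [Real.norm_eq_abs] at h
    exact h.const_mul K
  have hline : ∀ y : ℝ, 0 ≤ y → y ≤ U → IntegrableOn (fun x : ℝ => f (x + y * I)) (Ioi 0) := by
    intro y hy0 hyU
    refine Integrable.mono' (hmaj.integrableOn (s := Ioi 0)) ?_ ?_
    · apply ContinuousOn.aestronglyMeasurable _ measurableSet_Ioi
      intro x hx
      have hx' : (0:ℝ) < x := hx
      have h1 : DifferentiableAt ℂ f (x + y * I) := hd _ (by simpa using hx'.le) (by simpa using hy0) (by simpa using hyU)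
      exact (ContinuousAt.comp (f := fun x : ℝ => (x + y * I : ℂ)) h1.continuousAt (by fun_prop)).continuousWithinAt
    · refine (ae_restrict_mem measurableSet_Ioi).mono fun x hx => ?_
      have hx' : (0:ℝ) < x := hx
      have h1 := hb (x + y * I) (by simpa using hx'.le) (by simpa using hy0) (by simpa using hyU)
      simpa using h1
  have h0 := hline 0 le_rfl hU
  have h1 := hline U hU le_rfl
  simp only [ofReal_zero, zero_mul, add_zero] at h0
  refine ⟨h0, h1, ?_⟩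
  have hrect : ∀ X : ℝ, 0 ≤ X → (∫ x in (0:ℝ)..X, f x) - (∫ x in (0:ℝ)..X, f (x + U * I)) +
      I * (∫ y in (0:ℝ)..U, f (X + y * I)) - I * (∫ y in (0:ℝ)..U, f (y * I)) = 0 := by
    intro X hX
    have h := Complex.integral_boundary_rect_eq_zero_of_differentiableOn f 0 (X + U * I) (by
      intro z hz
      rw [mem_reProdIm] at hz
      simp only [zero_re, add_re, ofReal_re, mul_re, I_re, mul_zero, ofReal_im, I_im, mul_one, sub_self,
        add_zero, zero_im, add_im, mul_im, zero_add] at hz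
      rw [Set.uIcc_of_le hX, Set.uIcc_of_le hU] at hz
      exact (hd z hz.1.1 hz.2.1 hz.2.2).differentiableWithinAt)
    simpa using h
  have t1 := intervalIntegral_tendsto_integral_Ioi 0 h0 tendsto_id
  have t2 := intervalIntegral_tendsto_integral_Ioi 0 h1 tendsto_id
  have t3 : Tendsto (fun X : ℝ => I * (∫ y in (0:ℝ)..U, f (X + y * I))) atTop (𝓝 0) := by
    rw [tendsto_zero_iff_norm_tendsto_zero]
    have h4 : Tendsto (fun X : ℝ => K * (1 + |X|) ^ (-(3/2) : ℝ) * U) atTop (𝓝 0) := by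
      have h5 : Tendsto (fun X : ℝ => 1 + |X|) atTop atTop :=
        tendsto_atTop_add_const_left _ _ tendsto_abs_atTop_atTop
      have h6 := (tendsto_rpow_neg_atTop (y := 3/2) (by norm_num)).comp h5
      have h7 := (h6.const_mul K).mul_const U
      simpa using h7
    refine squeeze_zero' (Eventually.of_forall fun X => norm_nonneg _) ?_ h4
    filter_upwards [eventually_ge_atTop (0:ℝ)] with X hX
    rw [norm_mul, Complex.norm_I, one_mul]
    have h8 := intervalIntegral.norm_integral_le_of_norm_le_const (a := 0) (b := U)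
      (C := K * (1 + |X|) ^ (-(3/2) : ℝ)) (f := fun y : ℝ => f (X + y * I)) (by
        intro y hy
        rw [Set.uIoc_of_le hU] at hy
        have := hb (X + y * I) (by simpa using hX) (by simpa using hy.1.le) (by simpa using hy.2)
        simpa using this)
    rw [sub_zero, abs_of_nonneg hU] at h8
    exact h8
  have t4 := ((t1.sub t2).add t3).sub_const (I * (∫ y in (0:ℝ)..U, f (y * I)))
  have t5 : Tendsto (fun X : ℝ => (∫ x in (0:ℝ)..X, f x) - (∫ x in (0:ℝ)..X, f (x + U * I)) +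
      I * (∫ y in (0:ℝ)..U, f (X + y * I)) - I * (∫ y in (0:ℝ)..U, f (y * I))) atTop (𝓝 0) := by
    refine Tendsto.congr' ?_ tendsto_const_nhds
    filter_upwards [eventually_ge_atTop (0:ℝ)] with X hX
    exact (hrect X hX).symm
  have h9 := tendsto_nhds_unique t4 t5
  linear_combination h9

end

end Pool.Agent.R305.SK
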