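import Pool.Agent.R305.SK.Cont

set_option autoImplicit false

/-! The contour identity. -/

namespace Pool.Agent.R305.SK

open MeasureTheory Finset Complex Filter Topology Set

noncomputable section

/-- the left half-strip -/
lemma strip_left {f : ℂ → ℂ} {U K : ℝ} (hU : 0 ≤ U)
    (hd : ∀ z : ℂ, z.re ≤ 0 → 0 ≤ z.im → z.im ≤ U → DifferentiableAt ℂ f z)
    (hb : ∀ z : ℂ, z.re ≤ 0 → 0 ≤ z.im → z.im ≤ U → ‖f z‖ ≤ K * (1 + |z.re|) ^ (-(3/2) : ℝ)) :
    IntegrableOn (fun x : ℝ => f x) (Iic 0) ∧ IntegrableOn (fun x : ℝ => f (x + U * I)) (Iic 0) ∧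
    ∫ x in Iic (0:ℝ), f x = (∫ x in Iic (0:ℝ), f (x + U * I)) - I * ∫ u in (0:ℝ)..U, f (u * I) := by
  obtain ⟨h1, h2, h3⟩ := strip_right (f := fun z => f (-z + U * I)) (U := U) (K := K) hU
    (by
      intro z hz0 hz1 hz2
      have h := hd (-z + U * I) (by simpa using hz0) (by simpa using hz2) (by simpa using hz1)
      exact DifferentiableAt.comp (f := fun z : ℂ => -z + U * I) z h (by fun_prop))
    (by
      intro z hz0 hz1 hz2
      have h := hb (-z + U * I) (by simpa using hz0) (by simpa using hz2) (by simpa using hz1)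
      simpa using h)
  have e1 : (fun x : ℝ => f (-(x:ℂ) + U * I)) = fun x : ℝ => f (((-x : ℝ) : ℂ) + U * I) := by
    funext x
    push_cast
    rfl
  have e2 : (fun x : ℝ => f (-((x:ℂ) + U * I) + U * I)) = fun x : ℝ => f ((-x : ℝ) : ℂ) := by
    funext x
    push_cast
    ring_nf
  have e3 : (∫ u in (0:ℝ)..U, f (-((u:ℂ) * I) + U * I)) = ∫ u in (0:ℝ)..U, f (u * I) := by
    have h := intervalIntegral.integral_comp_sub_left (fun u : ℝ => f (u * I)) U (a := 0) (b := U)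
    simp only [sub_self, sub_zero] at h
    rw [← h]
    congr 1
    funext u
    push_cast
    ring_nf
  rw [e1] at h1
  rw [e2] at h2
  have e4 : (∫ x in Ioi (0:ℝ), f (-(x:ℂ) + U * I)) = ∫ x in Iic (0:ℝ), f (x + U * I) := by
    have h := integral_comp_neg_Ioi 0 (fun x : ℝ => f ((x : ℂ) + U * I))
    rw [neg_zero] at h
    rw [← h]
    congr 1
  have e5 : (∫ x in Ioi (0:ℝ), f (-((x:ℂ) + U * I) + U * I)) = ∫ x in Iic (0:ℝ), f x := by
    have h := integral_comp_neg_Ioi 0 (fun x : ℝ => f (x : ℂ))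
    rw [neg_zero] at h
    rw [← h]
    congr 1
  rw [e4, e5, e3] at h3
  have i1 : IntegrableOn (fun x : ℝ => f x) (Iic 0) := by
    have h := (integrableOn_Ici_iff_integrableOn_Ioi (f := fun x : ℝ => f ((-x : ℝ) : ℂ)) (b := 0) (μ := volume)).2 h2
    have h4 := (Measure.measurePreserving_neg (volume : Measure ℝ)).integrableOn_comp_preimage
      (MeasurableEquiv.neg ℝ).measurableEmbedding (f := fun x : ℝ => f x) (s := Iic 0)
    rw [← h4]
    have e : (fun x : ℝ => -x) ⁻¹' Iic (0:ℝ) = Set.Ici (0:ℝ) := by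
      ext x
      simp
    rw [show (Neg.neg ⁻¹' Iic (0:ℝ)) = Set.Ici (0:ℝ) from e]
    exact h
  have i2 : IntegrableOn (fun x : ℝ => f (x + U * I)) (Iic 0) := by
    have h := (integrableOn_Ici_iff_integrableOn_Ioi (f := fun x : ℝ => f (((-x : ℝ) : ℂ) + U * I)) (b := 0) (μ := volume)).2 h1
    have h4 := (Measure.measurePreserving_neg (volume : Measure ℝ)).integrableOn_comp_preimage
      (MeasurableEquiv.neg ℝ).measurableEmbedding (f := fun x : ℝ => f ((x : ℂ) + U * I)) (s := Iic 0)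
    rw [← h4]
    have e : (fun x : ℝ => -x) ⁻¹' Iic (0:ℝ) = Set.Ici (0:ℝ) := by
      ext x
      simp
    rw [show (Neg.neg ⁻¹' Iic (0:ℝ)) = Set.Ici (0:ℝ) from e]
    exact h
  refine ⟨i1, i2, ?_⟩
  linear_combination -h3

lemma diff_at_I {θ : ℝ} {n : ℕ} (hn : Even n)
    {z : ℂ} (hz : 0 < z.im) (h1 : -θ < z.re) (h2 : z.re < 1 - θ) :
    eP θ n z - eM θ n z = (Real.pi : ℂ) ^ 2 * z ^ n := by
  unfold eP eM
  rw [← KK_add hn hz h1 h2]
  ring

/-- decay of the kernel against slow growth -/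
lemma decay {Δ C R K : ℝ} (hΔ : 0 < Δ) (hC : 0 ≤ C) (hK : 0 ≤ K) (hR : 0 ≤ R) {x w p q : ℝ}
    (hp : p ≤ K * (1 + |x|) ^ ((1/2) : ℝ)) (_ : 0 ≤ p) (hw : |Δ * x| ≤ w)
    (hq : q ≤ C * R / (1 + w ^ 2)) (hq0 : 0 ≤ q) :
    p * q ≤ (K * C * R * 2 / min 1 (Δ ^ 2)) * (1 + |x|) ^ (-(3/2) : ℝ) := by
  have hm : 0 < min 1 (Δ ^ 2) := lt_min one_pos (by positivity)
  have h1 : min 1 (Δ ^ 2) * (1 + |x|) ^ 2 / 2 ≤ 1 + w ^ 2 := by
    have h2 : (1 + |x|) ^ 2 / 2 ≤ 1 + |x| ^ 2 := by nlinarith [sq_nonneg (1 - |x|)]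
    have h3 : (Δ * |x|) ^ 2 ≤ w ^ 2 := by
      have : Δ * |x| ≤ w := by rwa [abs_mul, abs_of_pos hΔ] at hw
      have h0 : 0 ≤ Δ * |x| := by positivity
      exact pow_le_pow_left₀ h0 this 2
    calc min 1 (Δ ^ 2) * (1 + |x|) ^ 2 / 2 = min 1 (Δ ^ 2) * ((1 + |x|) ^ 2 / 2) := by ring
      _ ≤ min 1 (Δ ^ 2) * (1 + |x| ^ 2) := by gcongr
      _ = min 1 (Δ ^ 2) * 1 + min 1 (Δ ^ 2) * |x| ^ 2 := by ring
      _ ≤ 1 * 1 + Δ ^ 2 * |x| ^ 2 := by
          gcongr
          · exact min_le_left _ _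
          · exact min_le_right _ _
      _ ≤ 1 + w ^ 2 := by nlinarith
  have hx1 : 0 < 1 + |x| := by positivity
  have h4 : C * R / (1 + w ^ 2) ≤ C * R * 2 / (min 1 (Δ ^ 2) * (1 + |x|) ^ 2) := by
    rw [div_le_div_iff₀ (by positivity) (by positivity)]
    calc C * R * (min 1 (Δ ^ 2) * (1 + |x|) ^ 2) = C * R * 2 * (min 1 (Δ ^ 2) * (1 + |x|) ^ 2 / 2) := by ring
      _ ≤ C * R * 2 * (1 + w ^ 2) := by gcongr
  have h5 : (1 + |x|) ^ (-(3/2) : ℝ) = (1 + |x|) ^ ((1/2) : ℝ) / (1 + |x|) ^ 2 := by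
    rw [← Real.rpow_natCast, ← Real.rpow_sub hx1]
    norm_num
  rw [h5]
  calc p * q ≤ (K * (1 + |x|) ^ ((1/2) : ℝ)) * (C * R * 2 / (min 1 (Δ ^ 2) * (1 + |x|) ^ 2)) := by
        apply mul_le_mul hp (hq.trans h4) hq0 (by positivity)
    _ = _ := by
        field_simp

/-- The contour identity for the two-sided kernel. -/
theorem contour {θ : ℝ} (h0 : 0 < θ) (h1 : θ < 1) {n : ℕ} (hn : Even n) (hB : bernoulliFun n θ = 0)
    {Φ : ℂ → ℂ} {Δ U K : ℝ} (hΔ : 0 < Δ) (hU : 0 ≤ U) (hK : 0 ≤ K)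
    (hd : ∀ z : ℂ, 0 ≤ z.im → z.im ≤ U → DifferentiableAt ℂ Φ z)
    (hb : ∀ z : ℂ, 0 ≤ z.im → z.im ≤ U → ‖Φ z‖ ≤ K * (1 + |z.re|) ^ ((1/2) : ℝ)) :
    Integrable (fun x : ℝ => Φ x * EE θ n (Δ * x)) ∧
    Integrable (fun x : ℝ => Φ (x + U * I) * EE θ n (Δ * (x + U * I))) ∧
    ∫ x : ℝ, Φ x * EE θ n (Δ * x) = (∫ x : ℝ, Φ (x + U * I) * EE θ n (Δ * (x + U * I))) +
      I * ∫ u in (0:ℝ)..U, Φ (u * I) * ((Real.pi : ℂ) ^ 2 * (Δ * (u * I)) ^ n) := by
  obtain ⟨C, hC, b1, b2, b3⟩ := EE_bd h0 h1 hn hB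
  have key : ∀ (e : ℂ → ℂ) (z : ℂ), 0 ≤ z.im → z.im ≤ U →
      ‖e (Δ * z)‖ ≤ C * Real.exp (2 * Real.pi * |((Δ : ℂ) * z).im|) / (1 + ‖(Δ : ℂ) * z‖ ^ 2) →
      ‖Φ z * e (Δ * z)‖ ≤ (K * C * Real.exp (2 * Real.pi * (Δ * U)) * 2 / min 1 (Δ ^ 2)) * (1 + |z.re|) ^ (-(3/2) : ℝ) := by
    intro e z hz0 hz1 he
    rw [norm_mul]
    have hw : |Δ * z.re| ≤ ‖(Δ : ℂ) * z‖ := by
      have := Complex.abs_re_le_norm ((Δ : ℂ) * z)
      simpa using this
    refine decay hΔ hC hK (Real.exp_pos _).le (hb z hz0 hz1) (norm_nonneg _) hw ?_ (norm_nonneg _)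
    refine he.trans ?_
    have : |((Δ : ℂ) * z).im| ≤ Δ * U := by
      have e1 : ((Δ : ℂ) * z).im = Δ * z.im := by simp
      rw [e1, abs_of_nonneg (by positivity)]
      gcongr
    gcongr
  have hre : ∀ z : ℂ, ((Δ : ℂ) * z).re = Δ * z.re := by intro z; simp
  obtain ⟨r1, r2, r3⟩ := strip_right (f := fun z => Φ z * eP θ n (Δ * z)) (U := U)
    (K := K * C * Real.exp (2 * Real.pi * (Δ * U)) * 2 / min 1 (Δ ^ 2)) hU
    (by
      intro z hz0 hz1 hz2
      have d1 := hd z hz1 hz2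
      have d2 : DifferentiableAt ℂ (fun z : ℂ => eP θ n (Δ * z)) z :=
        DifferentiableAt.comp (f := fun z : ℂ => (Δ : ℂ) * z) z
          (eP_diff θ n (by rw [hre]; have : 0 ≤ Δ * z.re := by positivity
                           linarith)) (by fun_prop)
      exact d1.mul d2)
    (by
      intro z hz0 hz1 hz2
      exact key _ z hz1 hz2 (b1 _ (by rw [hre]; positivity)))
  obtain ⟨l1, l2, l3⟩ := strip_left (f := fun z => Φ z * eM θ n (Δ * z)) (U := U)
    (K := K * C * Real.exp (2 * Real.pi * (Δ * U)) * 2 / min 1 (Δ ^ 2)) hU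
    (by
      intro z hz0 hz1 hz2
      have d1 := hd z hz1 hz2
      have d2 : DifferentiableAt ℂ (fun z : ℂ => eM θ n (Δ * z)) z :=
        DifferentiableAt.comp (f := fun z : ℂ => (Δ : ℂ) * z) z
          (eM_diff θ n (by rw [hre]; have : Δ * z.re ≤ 0 := mul_nonpos_of_nonneg_of_nonpos hΔ.le hz0
                           linarith)) (by fun_prop)
      exact d1.mul d2)
    (by
      intro z hz0 hz1 hz2
      exact key _ z hz1 hz2 (b2 _ (by rw [hre]; exact mul_nonpos_of_nonneg_of_nonpos hΔ.le hz0)))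
  have hI0 : ∀ x : ℂ, x + ((0 : ℝ) : ℂ) * I = x := by intro x; simp
  -- identify with EE
  have eR : ∀ y : ℝ, EqOn (fun x : ℝ => Φ (x + y * I) * eP θ n (Δ * (x + y * I)))
      (fun x : ℝ => Φ (x + y * I) * EE θ n (Δ * (x + y * I))) (Ioi 0) := by
    intro y x hx
    have hx' : (0:ℝ) < x := hx
    have : 0 ≤ ((Δ : ℂ) * (x + y * I)).re := by rw [hre]; simp; positivity
    simp only [EE, this, if_true]
  have eL : ∀ y : ℝ, EqOn (fun x : ℝ => Φ (x + y * I) * eM θ n (Δ * (x + y * I)))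
      (fun x : ℝ => Φ (x + y * I) * EE θ n (Δ * (x + y * I))) (Iio 0) := by
    intro y x hx
    have hx' : x < 0 := hx
    have : ¬ 0 ≤ ((Δ : ℂ) * (x + y * I)).re := by
      rw [hre]
      simp only [add_re, ofReal_re, mul_re, I_re, mul_zero, ofReal_im, I_im, mul_one, sub_self, add_zero, not_le]
      exact mul_neg_of_pos_of_neg hΔ hx'
    simp only [EE, this, if_false]
  have eR0 := eR 0
  have eL0 := eL 0
  simp only [ofReal_zero, zero_mul, add_zero] at eR0 eL0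
  have split : ∀ g : ℝ → ℂ, IntegrableOn g (Ioi 0) → IntegrableOn g (Iio 0) →
      Integrable g ∧ ∫ x, g x = (∫ x in Ioi (0:ℝ), g x) + ∫ x in Iio (0:ℝ), g x := by
    intro g hg1 hg2
    have hg2' : IntegrableOn g (Iic 0) := (integrableOn_Iic_iff_integrableOn_Iio).2 hg2
    have hu : Integrable g := by
      rw [← integrableOn_univ, ← Iic_union_Ioi (a := (0:ℝ))]
      exact hg2'.union hg1
    refine ⟨hu, ?_⟩
    rw [← intervalIntegral.integral_Iic_add_Ioi hg2' hg1, integral_Iic_eq_integral_Iio]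
    ring
  have l1' := l1.mono_set Iio_subset_Iic_self
  have l2' := l2.mono_set Iio_subset_Iic_self
  have q1 := split (fun x : ℝ => Φ x * EE θ n (Δ * x)) (r1.congr_fun eR0 measurableSet_Ioi)
    (l1'.congr_fun eL0 measurableSet_Iio)
  have q2 := split (fun x : ℝ => Φ (x + U * I) * EE θ n (Δ * (x + U * I)))
    (r2.congr_fun (eR U) measurableSet_Ioi) (l2'.congr_fun (eL U) measurableSet_Iio)
  refine ⟨q1.1, q2.1, ?_⟩
  rw [q1.2, q2.2]
  rw [← setIntegral_congr_fun measurableSet_Ioi eR0, ← setIntegral_congr_fun measurableSet_Iio eL0,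
    ← setIntegral_congr_fun measurableSet_Ioi (eR U), ← setIntegral_congr_fun measurableSet_Iio (eL U)]
  rw [integral_Iic_eq_integral_Iio, integral_Iic_eq_integral_Iio] at l3
  rw [r3, l3]
  have hI : (∫ u in (0:ℝ)..U, Φ (u * I) * eP θ n (Δ * (u * I))) - (∫ u in (0:ℝ)..U, Φ (u * I) * eM θ n (Δ * (u * I)))
      = ∫ u in (0:ℝ)..U, Φ (u * I) * ((Real.pi : ℂ) ^ 2 * (Δ * (u * I)) ^ n) := by
    rw [← intervalIntegral.integral_sub]
    · rw [intervalIntegral.integral_of_le hU, intervalIntegral.integral_of_le hU]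
      refine setIntegral_congr_fun measurableSet_Ioc fun u hu => ?_
      have : 0 < ((Δ : ℂ) * (u * I)).im := by
        simp only [mul_im, ofReal_re, I_im, mul_one, ofReal_im, I_re, mul_zero, add_zero, zero_mul]
        exact mul_pos hΔ hu.1
      have e0 : ((Δ : ℂ) * (u * I)).re = 0 := by simp
      have h := diff_at_I (θ := θ) hn this (by rw [e0]; linarith) (by rw [e0]; linarith)
      show _ = Φ (u * I) * ((Real.pi : ℂ) ^ 2 * (Δ * (u * I)) ^ n)
      rw [← h]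
      ring
    · apply ContinuousOn.intervalIntegrable
      rw [Set.uIcc_of_le hU]
      intro u hu
      have d1 := hd (u * I) (by simpa using hu.1) (by simpa using hu.2)
      have d2 : DifferentiableAt ℂ (fun z : ℂ => eP θ n (Δ * z)) (u * I) :=
        DifferentiableAt.comp (f := fun z : ℂ => (Δ : ℂ) * z) (u * I)
          (eP_diff θ n (by rw [hre]; simp; exact h0)) (by fun_prop)
      exact (ContinuousAt.comp (f := fun u : ℝ => (u * I : ℂ)) (d1.mul d2).continuousAt (by fun_prop)).continuousWithinAt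
    · apply ContinuousOn.intervalIntegrable
      rw [Set.uIcc_of_le hU]
      intro u hu
      have d1 := hd (u * I) (by simpa using hu.1) (by simpa using hu.2)
      have d2 : DifferentiableAt ℂ (fun z : ℂ => eM θ n (Δ * z)) (u * I) :=
        DifferentiableAt.comp (f := fun z : ℂ => (Δ : ℂ) * z) (u * I)
          (eM_diff θ n (by rw [hre]; simp; exact h1)) (by fun_prop)
      exact (ContinuousAt.comp (f := fun u : ℝ => (u * I : ℂ)) (d1.mul d2).continuousAt (by fun_prop)).continuousWithinAt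
  rw [← hI]
  ring

end

end Pool.Agent.R305.SK
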