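import Mathlib

set_option autoImplicit false

/-! Definitions used in the statement about the iterated integrals `S_n` of the argument of the
Riemann zeta-function. -/

namespace Pool.Agent.R305.SK

open MeasureTheory Complex Filter Topology Set

noncomputable section

/-- Iterated integrals of `log |ζ|` on the real axis: `J 0 x = log |ζ(x)|` and
`J (k + 1) x = ∫_x^∞ J k (y) dy`. So `J m (1/2)` is the `m`-fold iterated integral
`∫_{1/2}^∞ ∫_{σ_{m-1}}^∞ ... ∫_{σ_1}^∞ log |ζ(σ_0)| dσ_0 ... dσ_{m-1}`. -/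
def J : ℕ → ℝ → ℝ
  | 0 => fun x => Real.log ‖riemannZeta (x : ℂ)‖
  | (k + 1) => fun x => ∫ y in Ioi x, J k y

/-- `(1/π) arg ζ(1/2 + i t)` by continuous variation from `arg ζ(2) = 0` along the segments from
`2` to `2 + i t` and from `2 + i t` to `1/2 + i t`, that is `(1/π) Im ∫ (ζ'/ζ)(s) ds` along this path. -/
def Sarg (t : ℝ) : ℝ :=
  1 / Real.pi * ((∫ u in (0:ℝ)..t, (logDeriv riemannZeta ((2 : ℂ) + u * I)).re) -
    ∫ x in (1/2 : ℝ)..2, (logDeriv riemannZeta ((x : ℂ) + t * I)).im)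

/-- `t` is the ordinate of a zero of zeta -/
def IsOrd (t : ℝ) : Prop := ∃ s : ℂ, riemannZeta s = 0 ∧ s.im = t

open Classical in
/-- The function `S(t)`: `Sarg t` if `t` is not the ordinate of a zero, and the average of the left
and right limits of `Sarg` at the ordinate of a zero. -/
def Sfun (t : ℝ) : ℝ :=
  if IsOrd t then (limUnder (𝓝[<] t) Sarg + limUnder (𝓝[>] t) Sarg) / 2 else Sarg t

/-- The constants of integration: `δ_{2k} = (-1)^(k-1) / ((2k)! 2^(2k))` and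
`δ_{2k-1} = ((-1)^(k-1) / π) J_{2k-1}(1/2)`, for `k ≥ 1`. -/
def del (n : ℕ) : ℝ :=
  if Even n then (-1) ^ (n / 2 - 1) / ((n.factorial : ℝ) * 2 ^ n) else (-1) ^ (n / 2) / Real.pi * J n (1/2)

/-- The iterated integrals: `S_0 = S`, `S_(n+1)(t) = ∫_0^t S_n(u) du + δ_(n+1)`. -/
def Sn : ℕ → ℝ → ℝ
  | 0 => Sfun
  | (n + 1) => fun t => (∫ u in (0:ℝ)..t, Sn n u) + del (n + 1)

/-- `M_k`, the maximum of the Bernoulli polynomial `B_k` on `[0, 1]` -/
def Mx (k : ℕ) : ℝ := sSup (bernoulliFun k '' Icc 0 1)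

/-- `m_k`, the minimum of the Bernoulli polynomial `B_k` on `[0, 1]` -/
def mn (k : ℕ) : ℝ := sInf (bernoulliFun k '' Icc 0 1)

/-- `A_n^- = π^n M_(n+1) / (2 (n+1)!)` -/
def Aminus (n : ℕ) : ℝ := Real.pi ^ n * Mx (n + 1) / (2 * (n + 1).factorial)

/-- `A_n^+ = - π^n m_(n+1) / (2 (n+1)!)` -/
def Aplus (n : ℕ) : ℝ := -(Real.pi ^ n * mn (n + 1)) / (2 * (n + 1).factorial)

/-- `Λ_n(t) = log t / (log log t)^(n+1)` -/
def Lam (n : ℕ) (t : ℝ) : ℝ := Real.log t / (Real.log (Real.log t)) ^ (n + 1)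

end

end Pool.Agent.R305.SK
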