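import Mathlib

set_option autoImplicit false

/-! Finite Euler-Maclaurin formula on the unit interval for `1 / (z + u) ^ 2`. -/

namespace Pool.Agent.R305.SK

open MeasureTheory Finset Complex Filter Topology Set

noncomputable section

/-- `z + u ≠ 0` for `Re z ≥ 0`, `z ≠ 0`, `u ≥ 0` -/
lemma zu_ne {z : ℂ} (hz : 0 ≤ z.re) (hz0 : z ≠ 0) {u : ℝ} (hu : 0 ≤ u) : z + u ≠ 0 := by
  intro h
  have h1 := congrArg Complex.re h
  have h2 := congrArg Complex.im h
  simp at h1 h2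
  apply hz0
  apply Complex.ext
  · simp; linarith
  · simpa using h2

/-- integration by parts -/
lemma ibp (N : ℕ) (c a b : ℝ) {z : ℂ} (hab : a ≤ b) (hne : ∀ u ∈ Icc a b, z + u ≠ 0) :
    ((N : ℂ) + 2) * (∫ u in a..b, ((bernoulliFun (N + 1) (c - u) : ℝ) : ℂ) / (z + u) ^ (N + 3)) =
      ((bernoulliFun (N + 1) (c - a) : ℝ) : ℂ) / (z + a) ^ (N + 2) -
        ((bernoulliFun (N + 1) (c - b) : ℝ) : ℂ) / (z + b) ^ (N + 2) -
        ((N : ℂ) + 1) * ∫ u in a..b, ((bernoulliFun N (c - u) : ℝ) : ℂ) / (z + u) ^ (N + 2) := by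
  have hcont : ∀ (k m : ℕ), ContinuousOn
      (fun u : ℝ => ((bernoulliFun k (c - u) : ℝ) : ℂ) / (z + u) ^ m) (Icc a b) := by
    intro k m
    apply ContinuousOn.div
    · have : Continuous fun u : ℝ => ((bernoulliFun k (c - u) : ℝ) : ℂ) := by
        have := continuous_bernoulliFun k
        fun_prop
      exact this.continuousOn
    · fun_prop
    · intro u hu
      exact pow_ne_zero _ (hne u hu)
  have hint : ∀ (k m : ℕ), IntervalIntegrable
      (fun u : ℝ => ((bernoulliFun k (c - u) : ℝ) : ℂ) / (z + u) ^ m) volume a b := by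
    intro k m
    apply ContinuousOn.intervalIntegrable
    rw [uIcc_of_le hab]
    exact hcont k m
  have hderiv : ∀ u ∈ uIcc a b, HasDerivAt
      (fun u : ℝ => ((bernoulliFun (N + 1) (c - u) : ℝ) : ℂ) / (z + u) ^ (N + 2))
      (-((N : ℂ) + 1) * (((bernoulliFun N (c - u) : ℝ) : ℂ) / (z + u) ^ (N + 2)) -
        ((N : ℂ) + 2) * (((bernoulliFun (N + 1) (c - u) : ℝ) : ℂ) / (z + u) ^ (N + 3))) u := by
    intro u hu
    rw [uIcc_of_le hab] at hu
    have h0 := hne u hu
    have h1 : HasDerivAt (fun u : ℝ => bernoulliFun (N + 1) (c - u))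
        (((N + 1 : ℕ) : ℝ) * bernoulliFun (N + 1 - 1) (c - u) * (-1)) u := by
      have h2 := hasDerivAt_bernoulliFun (N + 1) (c - u)
      have h3 : HasDerivAt (fun u : ℝ => c - u) (-1) u := by
        simpa using (hasDerivAt_id u).const_sub c
      exact h2.comp u h3
    have h4 := h1.ofReal_comp
    have h5 : HasDerivAt (fun u : ℝ => (z + u) ^ (N + 2))
        (((N + 2 : ℕ) : ℂ) * (z + u) ^ (N + 1) * 1) u := by
      have h6 : HasDerivAt (fun u : ℝ => z + (u : ℂ)) 1 u :=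
        (Complex.ofRealCLM.hasDerivAt (x := u)).const_add z
      have := h6.fun_pow (N + 2)
      simpa using this
    refine (h4.div h5 (pow_ne_zero _ h0)).congr_deriv ?_
    rw [Nat.add_sub_cancel]
    push_cast
    have e1 : (z + u) ^ (N + 2) = (z + u) ^ (N + 1) * (z + u) := pow_succ _ _
    have e2 : (z + u) ^ (N + 3) = (z + u) ^ (N + 1) * (z + u) * (z + u) := by
      rw [pow_succ, pow_succ]
    rw [e2, e1]
    have h7 : (z + u) ^ (N + 1) ≠ 0 := pow_ne_zero _ h0
    field_simp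
  have key := intervalIntegral.integral_eq_sub_of_hasDerivAt hderiv
    (((hint N (N + 2)).const_mul _).sub ((hint (N + 1) (N + 3)).const_mul _))
  rw [intervalIntegral.integral_sub ((hint N (N + 2)).const_mul _)
    ((hint (N + 1) (N + 3)).const_mul _), intervalIntegral.integral_const_mul,
    intervalIntegral.integral_const_mul] at key
  linear_combination -key

/-- the integral of the periodic Bernoulli function against `(z + u) ^ (-N - 2)` -/
def GN (θ : ℝ) (N : ℕ) (z : ℂ) : ℂ :=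
  (∫ u in (0:ℝ)..θ, ((bernoulliFun N (θ - u) : ℝ) : ℂ) / (z + u) ^ (N + 2)) +
  ∫ u in θ..1, ((bernoulliFun N (θ + 1 - u) : ℝ) : ℂ) / (z + u) ^ (N + 2)

/-- the finite sum -/
def PS (θ : ℝ) (N : ℕ) (z : ℂ) : ℂ :=
  1 / (z + θ) ^ 2 - ∑ j ∈ range (N + 1), (-1) ^ j * ((bernoulliFun j θ : ℝ) : ℂ) *
    (1 / z ^ (j + 1) - 1 / (z + 1) ^ (j + 1))

lemma GN_succ {θ : ℝ} (h0 : 0 ≤ θ) (h1 : θ ≤ 1) (N : ℕ) {z : ℂ} (hz : 0 ≤ z.re) (hz0 : z ≠ 0) :
    ((N : ℂ) + 2) * GN θ (N + 1) z =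
      ((bernoulliFun (N + 1) θ : ℝ) : ℂ) * (1 / z ^ (N + 2) - 1 / (z + 1) ^ (N + 2)) +
      (((bernoulliFun (N + 1) 1 : ℝ) : ℂ) - ((bernoulliFun (N + 1) 0 : ℝ) : ℂ)) / (z + θ) ^ (N + 2) -
      ((N : ℂ) + 1) * GN θ N z := by
  unfold GN
  have e1 := ibp N θ 0 θ (z := z) h0 (fun u hu => zu_ne hz hz0 hu.1)
  have e2 := ibp N (θ + 1) θ 1 (z := z) h1 (fun u hu => zu_ne hz hz0 (h0.trans hu.1))
  have e3 : N + 1 + 2 = N + 3 := by ring
  rw [e3]
  have e4 : θ + 1 - θ = 1 := by ring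
  have e5 : θ + 1 - 1 = θ := by ring
  rw [sub_zero, sub_self] at e1
  rw [e4, e5] at e2
  rw [mul_add, e1, e2]
  push_cast
  ring

/-- **finite Euler-Maclaurin formula** -/
lemma em {θ : ℝ} (h0 : 0 ≤ θ) (h1 : θ ≤ 1) (N : ℕ) {z : ℂ} (hz : 0 ≤ z.re) (hz0 : z ≠ 0) :
    (-1) ^ (N + 2) * ((N : ℂ) + 2) * GN θ (N + 1) z = PS θ (N + 1) z := by
  induction N with
  | zero =>
    have h := GN_succ h0 h1 0 hz hz0
    have hG0 : GN θ 0 z = 1 / z - 1 / (z + 1) := by
      unfold GN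
      simp only [bernoulliFun_zero, ofReal_one]
      have hint : ∀ a b : ℝ, 0 ≤ a → a ≤ b →
          IntervalIntegrable (fun u : ℝ => 1 / (z + u) ^ (0 + 2)) volume a b := by
        intro a b ha hab
        apply ContinuousOn.intervalIntegrable
        rw [uIcc_of_le hab]
        apply ContinuousOn.div (by fun_prop) (by fun_prop)
        intro u hu
        exact pow_ne_zero _ (zu_ne hz hz0 (ha.trans hu.1))
      rw [intervalIntegral.integral_add_adjacent_intervals (hint 0 θ le_rfl h0) (hint θ 1 h0 h1)]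
      have hd : ∀ u ∈ uIcc (0:ℝ) 1, HasDerivAt (fun u : ℝ => -(1 / (z + u))) (1 / (z + u) ^ (0 + 2)) u := by
        intro u hu
        rw [Set.uIcc_of_le zero_le_one] at hu
        have h0 := zu_ne hz hz0 hu.1
        have h6 : HasDerivAt (fun u : ℝ => z + (u : ℂ)) 1 u :=
          (Complex.ofRealCLM.hasDerivAt (x := u)).const_add z
        have h7 := (h6.inv h0).neg
        simp only [one_div]
        refine h7.congr_deriv ?_
        rw [neg_div, neg_neg, one_div]
      rw [intervalIntegral.integral_eq_sub_of_hasDerivAt hd (hint 0 1 le_rfl zero_le_one)]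
      push_cast
      ring
    have hb1 : ((bernoulliFun (0 + 1) 1 : ℝ) : ℂ) - ((bernoulliFun (0 + 1) 0 : ℝ) : ℂ) = 1 := by
      rw [zero_add, bernoulliFun_one, bernoulliFun_one]
      push_cast
      ring
    rw [hG0, hb1] at h
    unfold PS
    rw [Finset.sum_range_succ, Finset.sum_range_succ, Finset.sum_range_zero]
    simp only [bernoulliFun_zero, ofReal_one, zero_add, pow_zero, one_mul, pow_one] at h ⊢
    push_cast at h ⊢
    linear_combination h
  | succ N ih =>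
    have h := GN_succ h0 h1 (N + 1) hz hz0
    have hb1 : ((bernoulliFun (N + 1 + 1) 1 : ℝ) : ℂ) - ((bernoulliFun (N + 1 + 1) 0 : ℝ) : ℂ) = 0 := by
      rw [bernoulliFun_endpoints_eq_of_ne_one (by omega), sub_self]
    rw [hb1, zero_div, add_zero] at h
    have hs : PS θ (N + 1 + 1) z = PS θ (N + 1) z - (-1) ^ (N + 2) * ((bernoulliFun (N + 2) θ : ℝ) : ℂ) *
        (1 / z ^ (N + 3) - 1 / (z + 1) ^ (N + 3)) := by
      unfold PS
      rw [Finset.sum_range_succ _ (N + 1 + 1)]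
      ring
    rw [hs, ← ih]
    push_cast at h ⊢
    have e : (-1 : ℂ) ^ (N + 1 + 2) = -(-1) ^ (N + 2) := by rw [pow_succ]; ring
    rw [e]
    linear_combination (-(-1) ^ (N + 2)) * h

end

end Pool.Agent.R305.SK
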