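import Pool.Agent.R305.SK.Cont2

set_option autoImplicit false

/-! Sign, continuity and mass of the two-sided kernel. -/

namespace Pool.Agent.R305.SK

open MeasureTheory Finset Complex Filter Topology Set

noncomputable section

lemma eP_eM_zero {θ : ℝ} (h0 : 0 < θ) (h1 : θ < 1) {n : ℕ} (hn : Even n) (hn0 : n ≠ 0) :
    eP θ n 0 = eM θ n 0 := by
  have c1 : Tendsto (fun u : ℝ => eP θ n (u * I) - eM θ n (u * I)) (𝓝[>] 0) (𝓝 (eP θ n 0 - eM θ n 0)) := by
    have a1 : ContinuousAt (eP θ n) 0 := (eP_diff θ n (by simpa using h0)).continuousAt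
    have a2 : ContinuousAt (eM θ n) 0 := (eM_diff θ n (by simpa using h1)).continuousAt
    have a3 : Tendsto (fun u : ℝ => (u * I : ℂ)) (𝓝[>] 0) (𝓝 0) := by
      have : ContinuousAt (fun u : ℝ => (u * I : ℂ)) 0 := by fun_prop
      have h := this.tendsto
      simp only [ofReal_zero, zero_mul] at h
      exact h.mono_left nhdsWithin_le_nhds
    exact (a1.sub a2).tendsto.comp a3
  have c2 : Tendsto (fun u : ℝ => eP θ n (u * I) - eM θ n (u * I)) (𝓝[>] 0) (𝓝 0) := by
    have a3 : Tendsto (fun u : ℝ => (Real.pi : ℂ) ^ 2 * (u * I : ℂ) ^ n) (𝓝[>] 0) (𝓝 0) := by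
      have : ContinuousAt (fun u : ℝ => (Real.pi : ℂ) ^ 2 * (u * I : ℂ) ^ n) 0 := by fun_prop
      have h := this.tendsto
      simp only [ofReal_zero, zero_mul, zero_pow hn0, mul_zero] at h
      exact h.mono_left nhdsWithin_le_nhds
    refine a3.congr' ?_
    filter_upwards [self_mem_nhdsWithin] with u hu
    have hu' : (0:ℝ) < u := hu
    rw [diff_at_I hn (by simpa using hu') (by simpa using h0) (by simpa using h1)]
  exact sub_eq_zero.1 (tendsto_nhds_unique c1 c2)

lemma EE_cont {θ : ℝ} (h0 : 0 < θ) (h1 : θ < 1) {n : ℕ} (hn : Even n) (hn0 : n ≠ 0) :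
    Continuous (fun x : ℝ => EE θ n x) := by
  have e : (fun x : ℝ => EE θ n x) = fun x : ℝ => if (0:ℝ) ≤ x then eP θ n x else eM θ n x := by
    funext x
    simp [EE]
  rw [e]
  refine continuous_if_le (f := fun _ : ℝ => (0:ℝ)) (g := fun x : ℝ => x)
    (f' := fun x : ℝ => eP θ n x) (g' := fun x : ℝ => eM θ n x) continuous_const continuous_id ?_ ?_ ?_
  · intro x hx
    have hx' : (0:ℝ) ≤ x := hx
    have d := eP_diff θ n (z := (x : ℂ)) (by simp; linarith)
    exact (ContinuousAt.comp (f := fun u : ℝ => (u : ℂ)) d.continuousAt (by fun_prop)).continuousWithinAt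
  · intro x hx
    have hx' : x ≤ 0 := hx
    have d := eM_diff θ n (z := (x : ℂ)) (by simp; linarith)
    exact (ContinuousAt.comp (f := fun u : ℝ => (u : ℂ)) d.continuousAt (by fun_prop)).continuousWithinAt
  · intro x hx
    rw [← hx]
    simpa using eP_eM_zero h0 h1 hn hn0

lemma sin_sq_real (θ x : ℝ) : Complex.sin (Real.pi * ((x : ℂ) + θ)) ^ 2 = ((Real.sin (Real.pi * (x + θ)) ^ 2 : ℝ) : ℂ) := by
  push_cast
  rfl

lemma bern_symm {n : ℕ} (hn : Even n) (v : ℝ) : bernoulliFun (n + 1) (1 - v) = - bernoulliFun (n + 1) v := by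
  rw [bernoulliFun_eval_one_sub]
  rw [pow_succ, hn.neg_one_pow]
  ring

lemma EE_sign {θ : ℝ} (h0 : 0 < θ) (h1 : θ < 1) {n : ℕ} (hn : Even n) (hn0 : n ≠ 0)
    (hB : bernoulliFun n θ = 0) {ε : ℝ}
    (hε : ∀ v ∈ Icc (0:ℝ) 1, ε * bernoulliFun (n + 1) v ≤ ε * bernoulliFun (n + 1) θ) (x : ℝ) :
    ((ε : ℂ) * EE θ n x).im = 0 ∧ ((ε : ℂ) * EE θ n x).re ≤ 0 := by
  have hpos : ∀ x : ℝ, 0 < x → ((ε : ℂ) * EE θ n x).im = 0 ∧ ((ε : ℂ) * EE θ n x).re ≤ 0 := by
    intro x hx
    obtain ⟨r, hr, h⟩ := KK_sign h0 h1.le hn hB hε hx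
    have e : (ε : ℂ) * EE θ n x = ((Real.sin (Real.pi * (x + θ)) ^ 2 * (-r) : ℝ) : ℂ) := by
      have : (0:ℝ) ≤ ((x : ℂ)).re := by simpa using hx.le
      simp only [EE, this, if_true, eP]
      rw [sin_sq_real]
      calc _ = ((Real.sin (Real.pi * (x + θ)) ^ 2 : ℝ) : ℂ) * ((ε : ℂ) * KK θ n x) := by ring
        _ = _ := by rw [h]; push_cast; ring
    rw [e]
    refine ⟨ofReal_im _, ?_⟩
    rw [ofReal_re]
    have : 0 ≤ Real.sin (Real.pi * (x + θ)) ^ 2 * r := by positivity
    linarith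
  have hneg : ∀ x : ℝ, x < 0 → ((ε : ℂ) * EE θ n x).im = 0 ∧ ((ε : ℂ) * EE θ n x).re ≤ 0 := by
    intro x hx
    obtain ⟨r, hr, h⟩ := KK_sign (θ := 1 - θ) (ε := -ε) (n := n) (x := -x) (by linarith) (by linarith) hn
      (by rw [bernoulliFun_eval_one_sub, hB, mul_zero]) (by
        intro v hv
        have h2 := hε (1 - v) ⟨by linarith [hv.2], by linarith [hv.1]⟩
        rw [bern_symm hn] at h2
        rw [bern_symm hn]
        linarith) (by linarith)
    have e : (ε : ℂ) * EE θ n x = ((Real.sin (Real.pi * (x + θ)) ^ 2 * (-r) : ℝ) : ℂ) := by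
      have : ¬ (0:ℝ) ≤ ((x : ℂ)).re := by simpa using hx
      simp only [EE, this, if_false, eM]
      rw [sin_sq_real]
      calc _ = ((Real.sin (Real.pi * (x + θ)) ^ 2 : ℝ) : ℂ) * (((-ε : ℝ) : ℂ) * KK (1 - θ) n ((-x : ℝ) : ℂ)) := by
            push_cast; ring
        _ = _ := by rw [h]; push_cast; ring
    rw [e]
    refine ⟨ofReal_im _, ?_⟩
    rw [ofReal_re]
    have : 0 ≤ Real.sin (Real.pi * (x + θ)) ^ 2 * r := by positivity
    linarith
  rcases lt_trichotomy x 0 with hx | hx | hx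
  · exact hneg x hx
  · have hc : Continuous fun y : ℝ => (ε : ℂ) * EE θ n y := continuous_const.mul (EE_cont h0 h1 hn hn0)
    have t : Tendsto (fun y : ℝ => (ε : ℂ) * EE θ n y) (𝓝[>] x) (𝓝 ((ε : ℂ) * EE θ n x)) :=
      (hc.tendsto x).mono_left nhdsWithin_le_nhds
    have t1 := (Complex.continuous_im.tendsto _).comp t
    have t2 := (Complex.continuous_re.tendsto _).comp t
    constructor
    · refine tendsto_nhds_unique (t1.congr' ?_) tendsto_const_nhds
      filter_upwards [self_mem_nhdsWithin] with y hy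
      have : (0:ℝ) < y := by rw [← hx]; exact hy
      exact (hpos y this).1
    · refine le_of_tendsto t2 ?_
      filter_upwards [self_mem_nhdsWithin] with y hy
      have : (0:ℝ) < y := by rw [← hx]; exact hy
      exact (hpos y this).2
  · exact hpos x hx

/-- the Fourier transform at large frequencies -/
lemma ft_pos {θ : ℝ} (h0 : 0 < θ) (h1 : θ < 1) {n : ℕ} (hn : Even n) (hB : bernoulliFun n θ = 0)
    {l : ℝ} (hl : 2 * Real.pi ≤ l) :
    ∫ x : ℝ, cexp (I * l * x) * EE θ n x = I ^ (n + 1) * (Real.pi : ℂ) ^ 2 * (n.factorial : ℂ) / (l : ℂ) ^ (n + 1) := by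
  have hl0 : 0 < l := by have := Real.pi_pos; linarith
  obtain ⟨C, hC, b1, b2, b3⟩ := EE_bd h0 h1 hn hB
  have key : ∀ U : ℝ, 0 ≤ U → Integrable (fun x : ℝ => cexp (I * l * (x + U * I)) * EE θ n (x + U * I)) ∧
      ∫ x : ℝ, cexp (I * l * x) * EE θ n x = (∫ x : ℝ, cexp (I * l * (x + U * I)) * EE θ n (x + U * I)) +
      I * ∫ u in (0:ℝ)..U, cexp (I * l * (u * I)) * ((Real.pi : ℂ) ^ 2 * (u * I) ^ n) := by
    intro U hU
    have h := contour (θ := θ) h0 h1 hn hB (Φ := fun z => cexp (I * l * z)) (Δ := 1) (U := U) (K := 1)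
      one_pos hU zero_le_one (by intro z _ _; fun_prop) (by
        intro z hz _
        rw [Complex.norm_exp]
        have e : (I * l * z).re = -(l * z.im) := by simp
        rw [e]
        have h1 : Real.exp (-(l * z.im)) ≤ 1 := by
          rw [Real.exp_le_one_iff]
          have : 0 ≤ l * z.im := by positivity
          linarith
        have h2 : (1:ℝ) ≤ (1 + |z.re|) ^ ((1/2) : ℝ) := Real.one_le_rpow (by linarith [abs_nonneg z.re]) (by norm_num)
        linarith)
    simp only [ofReal_one, one_mul] at h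
    exact ⟨h.2.1, h.2.2⟩
  have T1 : Tendsto (fun U : ℝ => ∫ x : ℝ, cexp (I * l * (x + U * I)) * EE θ n (x + U * I)) atTop (𝓝 0) := by
    have hbd : ∀ U : ℝ, 0 ≤ U → ∀ x : ℝ, ‖cexp (I * l * (x + U * I)) * EE θ n (x + U * I)‖ ≤ C * (1 + x ^ 2 + U ^ 2)⁻¹ := by
      intro U hU x
      rw [norm_mul, Complex.norm_exp]
      have e : (I * l * (x + U * I)).re = -(l * U) := by simp
      rw [e]
      have h2 := b3 (x + U * I)
      have e2 : |((x : ℂ) + U * I).im| = U := by simp [abs_of_nonneg hU]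
      have e3 : ‖(x : ℂ) + U * I‖ ^ 2 = x ^ 2 + U ^ 2 := by
        rw [Complex.sq_norm, Complex.normSq_add_mul_I]
      rw [e2, e3] at h2
      calc Real.exp (-(l * U)) * ‖EE θ n (x + U * I)‖ ≤ Real.exp (-(l * U)) * (C * Real.exp (2 * Real.pi * U) / (1 + (x ^ 2 + U ^ 2))) := by gcongr
        _ = (Real.exp (-(l * U)) * Real.exp (2 * Real.pi * U)) * (C * (1 + x ^ 2 + U ^ 2)⁻¹) := by
            rw [← add_assoc]; ring
        _ ≤ 1 * (C * (1 + x ^ 2 + U ^ 2)⁻¹) := by
            have h5 : Real.exp (-(l * U)) * Real.exp (2 * Real.pi * U) ≤ 1 := by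
              rw [← Real.exp_add, Real.exp_le_one_iff]
              nlinarith
            gcongr
        _ = _ := one_mul _
    have h := tendsto_integral_filter_of_dominated_convergence (μ := volume) (l := atTop)
      (F := fun (U : ℝ) (x : ℝ) => cexp (I * l * (x + U * I)) * EE θ n (x + U * I)) (f := fun _ => (0:ℂ))
      (fun x : ℝ => C * (1 + x ^ 2)⁻¹) ?_ ?_ ?_ ?_
    · simpa using h
    · filter_upwards [eventually_ge_atTop (0:ℝ)] with U hU
      exact (key U hU).1.aestronglyMeasurable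
    · filter_upwards [eventually_ge_atTop (0:ℝ)] with U hU
      refine Eventually.of_forall fun x => (hbd U hU x).trans ?_
      exact mul_le_mul_of_nonneg_left (inv_anti₀ (by positivity) (by nlinarith [sq_nonneg U])) hC
    · exact integrable_inv_one_add_sq.const_mul C
    · refine Eventually.of_forall fun x => ?_
      rw [tendsto_zero_iff_norm_tendsto_zero]
      have h4 : Tendsto (fun U : ℝ => C * (1 + x ^ 2 + U ^ 2)⁻¹) atTop (𝓝 0) := by
        have h5 : Tendsto (fun U : ℝ => 1 + x ^ 2 + U ^ 2) atTop atTop :=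
          tendsto_atTop_add_const_left _ _ (tendsto_pow_atTop (by norm_num))
        simpa using (tendsto_inv_atTop_zero.comp h5).const_mul C
      refine squeeze_zero' (Eventually.of_forall fun U => norm_nonneg _) ?_ h4
      filter_upwards [eventually_ge_atTop (0:ℝ)] with U hU
      exact hbd U hU x
  have hint : (∫ u in Ioi (0:ℝ), cexp (I * l * (u * I)) * ((Real.pi : ℂ) ^ 2 * (u * I) ^ n)) =
      (Real.pi : ℂ) ^ 2 * I ^ n * (n.factorial : ℂ) / (l : ℂ) ^ (n + 1) := by
    have h := Real.integral_rpow_mul_exp_neg_mul_Ioi (a := (n : ℝ) + 1) (r := l) (by positivity) hl0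
    rw [add_sub_cancel_right, Real.Gamma_nat_eq_factorial] at h
    have e : (fun u : ℝ => cexp (I * l * (u * I)) * ((Real.pi : ℂ) ^ 2 * (u * I) ^ n)) =
        fun u : ℝ => ((Real.pi : ℂ) ^ 2 * I ^ n) * ((u ^ (n : ℝ) * Real.exp (-(l * u)) : ℝ) : ℂ) := by
      funext u
      have e1 : I * l * (u * I) = ((-(l * u) : ℝ) : ℂ) := by
        push_cast
        linear_combination (l * u : ℂ) * I_mul_I
      rw [e1, ← Complex.ofReal_exp, Real.rpow_natCast, mul_pow]
      push_cast
      ring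
    rw [e, integral_const_mul, integral_complex_ofReal, h]
    have e2 : (1 / l) ^ ((n : ℝ) + 1) = 1 / l ^ (n + 1) := by
      rw [show ((n : ℝ) + 1) = ((n + 1 : ℕ) : ℝ) by push_cast; ring, Real.rpow_natCast, one_div_pow]
    rw [e2]
    push_cast
    ring
  have hint2 : IntegrableOn (fun u : ℝ => cexp (I * l * (u * I)) * ((Real.pi : ℂ) ^ 2 * (u * I) ^ n)) (Ioi 0) := by
    have h : IntegrableOn (fun u : ℝ => u ^ (n : ℝ) * Real.exp (-(l * u))) (Ioi 0) := by
      have := Real.integral_rpow_mul_exp_neg_mul_Ioi (a := (n : ℝ) + 1) (r := l) (by positivity) hl0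
      rw [add_sub_cancel_right] at this
      by_contra hc
      rw [integral_undef hc] at this
      have h3 : 0 < (1 / l) ^ ((n : ℝ) + 1) * Real.Gamma ((n : ℝ) + 1) := by
        have := Real.Gamma_pos_of_pos (s := (n : ℝ) + 1) (by positivity)
        positivity
      linarith
    have e : (fun u : ℝ => cexp (I * l * (u * I)) * ((Real.pi : ℂ) ^ 2 * (u * I) ^ n)) =
        fun u : ℝ => ((Real.pi : ℂ) ^ 2 * I ^ n) * ((u ^ (n : ℝ) * Real.exp (-(l * u)) : ℝ) : ℂ) := by
      funext u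
      have e1 : I * l * (u * I) = ((-(l * u) : ℝ) : ℂ) := by
        push_cast
        linear_combination (l * u : ℂ) * I_mul_I
      rw [e1, ← Complex.ofReal_exp, Real.rpow_natCast, mul_pow]
      push_cast
      ring
    rw [e]
    exact h.ofReal.const_mul _
  have T2 := (intervalIntegral_tendsto_integral_Ioi 0 hint2 tendsto_id).const_mul I
  have T3 := T1.add T2
  have T4 : Tendsto (fun U : ℝ => (∫ x : ℝ, cexp (I * l * (x + U * I)) * EE θ n (x + U * I)) +
      I * ∫ u in (0:ℝ)..U, cexp (I * l * (u * I)) * ((Real.pi : ℂ) ^ 2 * (u * I) ^ n)) atTop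
      (𝓝 (∫ x : ℝ, cexp (I * l * x) * EE θ n x)) := by
    refine Tendsto.congr' ?_ tendsto_const_nhds
    filter_upwards [eventually_ge_atTop (0:ℝ)] with U hU
    exact (key U hU).2
  have h := tendsto_nhds_unique T4 T3
  rw [h, hint]
  ring

/-- the mass of the kernel -/
theorem mass {θ : ℝ} (h0 : 0 < θ) (h1 : θ < 1) {n : ℕ} (hn : Even n) (hn0 : n ≠ 0)
    (hB : bernoulliFun n θ = 0) {ε : ℝ} (hε1 : ε = 1 ∨ ε = -1)
    (hε : ∀ v ∈ Icc (0:ℝ) 1, ε * bernoulliFun (n + 1) v ≤ ε * bernoulliFun (n + 1) θ) :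
    Integrable (fun x : ℝ => EE θ n x) ∧
    ∫ x : ℝ, EE θ n x = -((Real.pi : ℂ) ^ 2 * ((bernoulliFun (n + 1) θ : ℝ) : ℂ) / ((n : ℂ) + 1)) := by
  obtain ⟨C, hC, b1, b2, b3⟩ := EE_bd h0 h1 hn hB
  have hcont := EE_cont h0 h1 hn hn0
  have hbd : ∀ x : ℝ, ‖EE θ n x‖ ≤ C * (1 + x ^ 2)⁻¹ := by
    intro x
    have h := b3 x
    simp only [ofReal_im, abs_zero, mul_zero, Real.exp_zero, mul_one, Complex.norm_real, Real.norm_eq_abs, sq_abs] at h
    rwa [div_eq_mul_inv] at h
  have hI : Integrable (fun x : ℝ => EE θ n x) :=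
    Integrable.mono' (integrable_inv_one_add_sq.const_mul C) hcont.aestronglyMeasurable
      (Eventually.of_forall hbd)
  refine ⟨hI, ?_⟩
  -- real-valued
  have hreal : ∀ x : ℝ, (starRingEnd ℂ) (EE θ n x) = EE θ n x := by
    intro x
    have h := (EE_sign h0 h1 hn hn0 hB hε x).1
    rw [Complex.conj_eq_iff_im]
    rcases hε1 with h2 | h2
    · rw [h2] at h; simpa using h
    · rw [h2] at h; simpa using h
  have hft : ∀ k : ℤ, k ≠ 0 → FourierTransform.fourier (fun x : ℝ => EE θ n x) (k : ℝ) =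
      (Real.pi : ℂ) ^ 2 * (n.factorial : ℂ) / (2 * Real.pi * I * k) ^ (n + 1) := by
    intro k hk
    rw [Real.fourier_real_eq_integral_exp_smul]
    simp only [smul_eq_mul]
    have hk' : (k : ℂ) ≠ 0 := by exact_mod_cast hk
    have hpi : (Real.pi : ℂ) ≠ 0 := by exact_mod_cast Real.pi_ne_zero
    rcases lt_or_gt_of_ne hk with hneg | hpos
    · have hk1 : (k : ℝ) ≤ -1 := by
        have : k ≤ -1 := by omega
        exact_mod_cast this
      have h := ft_pos h0 h1 hn hB (l := 2 * Real.pi * (-k)) (by nlinarith [Real.pi_pos])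
      have e : (∫ v : ℝ, cexp (((-2 * Real.pi * v * k : ℝ) : ℂ) * I) * EE θ n v) =
          ∫ x : ℝ, cexp (I * ((2 * Real.pi * (-k) : ℝ) : ℂ) * x) * EE θ n x := by
        congr 1
        funext v
        congr 2
        push_cast
        ring
      rw [e, h]
      push_cast
      rw [div_eq_div_iff (by simp [hk', hpi]) (by simp [hk', hpi])]
      have e3 : (2 * (Real.pi : ℂ) * I * k) ^ (n + 1) = (2 * Real.pi * (-k)) ^ (n + 1) * (-I) ^ (n + 1) := by
        rw [← mul_pow]
        congr 1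
        ring
      rw [e3]
      have e4 : I ^ (n + 1) * (-I) ^ (n + 1) = 1 := by
        rw [← mul_pow]
        simp
      linear_combination ((Real.pi : ℂ) ^ 2 * (n.factorial : ℂ) * (2 * Real.pi * (-k)) ^ (n + 1)) * e4
    · have hk1 : (1 : ℝ) ≤ k := by
        have : 1 ≤ k := by omega
        exact_mod_cast this
      have h := ft_pos h0 h1 hn hB (l := 2 * Real.pi * k) (by nlinarith [Real.pi_pos])
      have e : (∫ v : ℝ, cexp (((-2 * Real.pi * v * k : ℝ) : ℂ) * I) * EE θ n v) =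
          (starRingEnd ℂ) (∫ x : ℝ, cexp (I * ((2 * Real.pi * k : ℝ) : ℂ) * x) * EE θ n x) := by
        rw [← integral_conj]
        congr 1
        funext v
        rw [map_mul, hreal, ← Complex.exp_conj]
        congr 2
        simp only [map_mul, conj_I, conj_ofReal]
        push_cast
        ring
      rw [e, h]
      simp only [map_div₀, map_mul, map_pow, conj_I, conj_ofReal, map_natCast]
      push_cast
      rw [div_eq_div_iff (by simp [hk', hpi]) (by simp [hk', hpi])]
      have e3 : (2 * (Real.pi : ℂ) * I * k) ^ (n + 1) = (2 * Real.pi * k) ^ (n + 1) * I ^ (n + 1) := by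
        rw [← mul_pow]
        congr 1
        ring
      rw [e3]
      have e4 : (-I) ^ (n + 1) * I ^ (n + 1) = 1 := by
        rw [← mul_pow]
        simp
      linear_combination ((Real.pi : ℂ) ^ 2 * (n.factorial : ℂ) * (2 * Real.pi * k) ^ (n + 1)) * e4
  -- Bernoulli series
  have hB1 := hasSum_one_div_pow_mul_fourier_mul_bernoulliFun (k := n + 1) (by omega)
    (x := 1 - θ) ⟨by linarith, by linarith⟩
  have hpi : (Real.pi : ℂ) ≠ 0 := by exact_mod_cast Real.pi_ne_zero
  set c : ℂ := (Real.pi : ℂ) ^ 2 * (n.factorial : ℂ) / (2 * Real.pi * I) ^ (n + 1) with hc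
  have hfk : ∀ k : ℤ, k ≠ 0 → FourierTransform.fourier (fun x : ℝ => EE θ n x) (k : ℝ) = c * (1 / (k : ℂ) ^ (n + 1)) := by
    intro k hk
    rw [hft k hk, hc, mul_pow (2 * (Real.pi : ℂ) * I)]
    have hk' : (k : ℂ) ≠ 0 := by exact_mod_cast hk
    field_simp
  have hsum : Summable (fun k : ℤ => FourierTransform.fourier (fun x : ℝ => EE θ n x) (k : ℝ)) := by
    have h1 : Summable fun k : ℤ => 1 / |(k : ℝ)| ^ (n + 1) := by
      have := (Real.summable_one_div_int_pow (p := n + 1)).2 (by omega)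
      simpa [abs_div, abs_pow] using this.abs
    have h2 : Summable (fun k : ℤ => c * (1 / (k : ℂ) ^ (n + 1))) := by
      apply Summable.mul_left
      refine Summable.of_norm ?_
      refine h1.congr fun k => ?_
      rw [norm_div, norm_one, norm_pow, Complex.norm_intCast]
    have h3 : (fun k : ℤ => FourierTransform.fourier (fun x : ℝ => EE θ n x) (k : ℝ)) =ᶠ[cofinite]
        (fun k : ℤ => c * (1 / (k : ℂ) ^ (n + 1))) := by
      have : ∀ᶠ k : ℤ in cofinite, k ≠ 0 := by
        simpa using (Set.finite_singleton (0:ℤ)).compl_mem_cofinite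
      filter_upwards [this] with k hk
      exact hfk k hk
    exact h2.congr_cofinite h3.symm
  have hP := Real.tsum_eq_tsum_fourier_of_rpow_decay_of_summable (f := fun x : ℝ => EE θ n x) hcont
    (b := 2) (by norm_num) (by
      refine Asymptotics.IsBigO.of_bound C ?_
      have : ∀ᶠ x : ℝ in cocompact ℝ, x ≠ 0 := by
        have := (isCompact_singleton (x := (0:ℝ))).compl_mem_cocompact
        filter_upwards [this] with x hx
        simpa using hx
      filter_upwards [this] with x hx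
      refine (hbd x).trans ?_
      have hx2 : 0 < |x| := abs_pos.2 hx
      rw [Real.norm_of_nonneg (by positivity)]
      rw [show (-2 : ℝ) = -((2 : ℕ) : ℝ) by norm_num, Real.rpow_neg hx2.le, Real.rpow_natCast, sq_abs]
      have : 0 < x ^ 2 := by positivity
      gcongr
      linarith) hsum (-θ)
  have hL : ∑' k : ℤ, EE θ n ((-θ + k : ℝ) : ℂ) = 0 := by
    have : ∀ k : ℤ, EE θ n ((-θ + k : ℝ) : ℂ) = 0 := by
      intro k
      have hs : Complex.sin (Real.pi * (((-θ + k : ℝ) : ℂ) + θ)) = 0 := by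
        have : (Real.pi : ℂ) * (((-θ + k : ℝ) : ℂ) + θ) = k * Real.pi := by
          push_cast
          ring
        rw [this]
        exact Complex.sin_int_mul_pi k
      unfold EE eP eM
      rw [hs]
      simp
    rw [tsum_congr this, tsum_zero]
  rw [hL] at hP
  -- separate k = 0
  have hS : HasSum (fun k : ℤ => if k = 0 then (0:ℂ) else c * (1 / (k : ℂ) ^ (n + 1) * fourier k (((1 - θ : ℝ)) : UnitAddCircle)))
      (c * (-(2 * Real.pi * I) ^ (n + 1) / (n + 1).factorial * bernoulliFun (n + 1) (1 - θ))) := by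
    refine (hB1.mul_left c).congr_fun ?_ |> fun h => h
    intro k
    split_ifs with hk
    · rw [hk]; simp
    · rfl
  have hsum2 : HasSum (fun k : ℤ => FourierTransform.fourier (fun x : ℝ => EE θ n x) (k : ℝ) * fourier k (((-θ : ℝ)) : UnitAddCircle))
      (FourierTransform.fourier (fun x : ℝ => EE θ n x) 0 + c * (-(2 * Real.pi * I) ^ (n + 1) / (n + 1).factorial * bernoulliFun (n + 1) (1 - θ))) := by
    have h := (hasSum_ite_eq (0:ℤ) (FourierTransform.fourier (fun x : ℝ => EE θ n x) (0:ℝ))).add hS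
    refine h.congr_fun ?_ |> fun h => h
    intro k
    have hper : (((-θ : ℝ)) : UnitAddCircle) = ((1 - θ : ℝ) : UnitAddCircle) := by
      rw [show (1 - θ : ℝ) = -θ + 1 by ring, AddCircle.coe_add, AddCircle.coe_period, add_zero]
    split_ifs with hk
    · rw [hk]; simp
    · rw [hper, hfk k hk]
      ring
  rw [hsum2.tsum_eq] at hP
  have h00 : FourierTransform.fourier (fun x : ℝ => EE θ n x) (0:ℝ) = ∫ x : ℝ, EE θ n x := by
    rw [Real.fourier_real_eq_integral_exp_smul]
    simp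
  rw [h00] at hP
  have e5 : c * (-(2 * Real.pi * I) ^ (n + 1) / (n + 1).factorial * bernoulliFun (n + 1) (1 - θ)) =
      (Real.pi : ℂ) ^ 2 * ((bernoulliFun (n + 1) θ : ℝ) : ℂ) / ((n : ℂ) + 1) := by
    rw [hc, bern_symm hn, Nat.factorial_succ]
    have hf : (n.factorial : ℂ) ≠ 0 := by exact_mod_cast n.factorial_ne_zero
    have hn1 : (n : ℂ) + 1 ≠ 0 := by exact_mod_cast Nat.succ_ne_zero n
    push_cast
    have hI : (2 * (Real.pi : ℂ) * I) ^ (n + 1) ≠ 0 := by
      apply pow_ne_zero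
      simp [hpi]
    field_simp
  rw [e5] at hP
  linear_combination -hP

end

end Pool.Agent.R305.SK
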