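import Pool.Agent.R305.SK.Z2
import Pool.Agent.R305.SK.Mass

set_option autoImplicit false

/-! The main inequality. -/

namespace Pool.Agent.R305.SK

open MeasureTheory Complex Filter Topology Set

noncomputable section

lemma sh_re (s z : ℂ) : (s - I * z).re = s.re + z.im := by simp

lemma sh_im (s z : ℂ) : (s - I * z).im = s.im - z.re := by simp

lemma log_grow (a x : ℝ) : 1 + Real.log (2 + |a - x|) ≤ (1 + 2 * (2 + |a|) ^ ((1/2) : ℝ)) * (1 + |x|) ^ ((1/2) : ℝ) := by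
  have h1 : 2 + |a - x| ≤ (2 + |a|) * (1 + |x|) := by
    have := abs_sub a x
    nlinarith [abs_nonneg a, abs_nonneg x, mul_nonneg (abs_nonneg a) (abs_nonneg x)]
  have h2 : Real.log (2 + |a - x|) ≤ Real.log ((2 + |a|) * (1 + |x|)) :=
    Real.log_le_log (by positivity) h1
  have h3 := Real.log_le_rpow_div (x := (2 + |a|) * (1 + |x|)) (ε := 1/2) (by positivity) (by norm_num)
  rw [Real.mul_rpow (by positivity) (by positivity)] at h3
  have h4 : (1:ℝ) ≤ (1 + |x|) ^ ((1/2) : ℝ) := Real.one_le_rpow (by linarith [abs_nonneg x]) (by norm_num)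
  have h5 : (2 + |a|) ^ ((1/2) : ℝ) * (1 + |x|) ^ ((1/2) : ℝ) / (1/2) = 2 * (2 + |a|) ^ ((1/2) : ℝ) * (1 + |x|) ^ ((1/2) : ℝ) := by ring
  rw [h5] at h3
  nlinarith

lemma log_split {t x : ℝ} (ht : 2 ≤ t) : Real.log (2 + |t - x|) ≤ Real.log t + Real.log (2 + |x|) := by
  rw [← Real.log_mul (by linarith) (by positivity)]
  apply Real.log_le_log (by positivity)
  have := abs_sub t x
  rw [abs_of_nonneg (by linarith : (0:ℝ) ≤ t)] at this
  nlinarith [abs_nonneg x]

theorem MI (hRH : RiemannHypothesis) {θ : ℝ} (h0 : 0 < θ) (h1 : θ < 1) {n : ℕ} (hn : Even n)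
    (hn0 : n ≠ 0) (hB : bernoulliFun n θ = 0) {ε : ℝ} (hε1 : ε = 1 ∨ ε = -1)
    (hε : ∀ v ∈ Icc (0:ℝ) 1, ε * bernoulliFun (n + 1) v ≤ ε * bernoulliFun (n + 1) θ)
    {U : ℝ} (hU : 1/2 < U) (hU1 : U ≤ 1) :
    ∃ C : ℝ, 0 ≤ C ∧ ∀ s : ℂ, 1/2 < s.re → s.re ≤ 1 → 2 ≤ s.im → ∀ Δ : ℝ, 1 ≤ Δ →
      ε * (Real.pi ^ 2 * Δ ^ n) * (I ^ (n + 1) * ∫ u in (0:ℝ)..U, (u : ℂ) ^ n * QQ (s + u)).re ≤
        (Real.pi ^ 2 * (ε * bernoulliFun (n + 1) θ) / (n + 1)) * (Real.log s.im / 2) / Δ +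
          C * Real.exp (2 * Real.pi * Δ * U) / Δ := by
  obtain ⟨CE, hCE, b1, b2, b3⟩ := EE_bd h0 h1 hn hB
  obtain ⟨CR, hCR, hR⟩ := QQ_right (δ := U - 1/2) (by linarith)
  obtain ⟨C0, hC0, hre⟩ := re_QQ hRH
  obtain ⟨CG, hCG, hgr⟩ := QQ_growth hRH
  obtain ⟨hI, hmass⟩ := mass h0 h1 hn hn0 hB hε1 hε
  have hEc := EE_cont h0 h1 hn hn0
  have hU0 : 0 ≤ U := by linarith
  -- bound on real axis
  have hEb : ∀ x : ℝ, ‖EE θ n x‖ ≤ CE * (1 + x ^ 2)⁻¹ := by
    intro x
    have h := b3 x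
    simp only [ofReal_im, abs_zero, mul_zero, Real.exp_zero, mul_one, Complex.norm_real, Real.norm_eq_abs, sq_abs] at h
    rwa [div_eq_mul_inv] at h
  obtain ⟨r, hr⟩ : ∃ r : ℝ → ℝ, r = fun x : ℝ => -((ε : ℂ) * EE θ n (x : ℂ)).re := ⟨_, rfl⟩
  have hsign := EE_sign h0 h1 hn hn0 hB hε
  have hr0 : ∀ x, 0 ≤ r x := by intro x; rw [hr]; have := (hsign x).2; simp only; linarith
  have hrE : ∀ x : ℝ, (ε : ℂ) * EE θ n x = -((r x : ℝ) : ℂ) := by
    intro x
    rw [hr]
    apply Complex.ext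
    · simp
    · have h := (hsign x).1
      rw [h]; simp
  have hεabs : |ε| = 1 := by rcases hε1 with h | h <;> rw [h] <;> simp
  have hrn : ∀ x, r x ≤ ‖EE θ n x‖ := by
    intro x
    have h2 : ‖(ε : ℂ) * EE θ n x‖ = ‖EE θ n x‖ := by
      rw [norm_mul, Complex.norm_real, Real.norm_eq_abs, hεabs, one_mul]
    rw [← h2, hrE, norm_neg, Complex.norm_real, Real.norm_eq_abs]
    exact le_abs_self _
  have hrc : Continuous r := by
    rw [hr]
    exact (Complex.continuous_re.comp (continuous_const.mul hEc)).neg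
  have hrI : Integrable r := by
    refine Integrable.mono' (integrable_inv_one_add_sq.const_mul CE) hrc.aestronglyMeasurable
      (Eventually.of_forall fun x => ?_)
    rw [Real.norm_of_nonneg (hr0 x)]
    exact (hrn x).trans (hEb x)
  have hrmass : ∫ x, r x = Real.pi ^ 2 * (ε * bernoulliFun (n + 1) θ) / (n + 1) := by
    have e : ((∫ x, r x : ℝ) : ℂ) = -((ε : ℂ) * ∫ x : ℝ, EE θ n x) := by
      rw [← integral_const_mul, ← integral_neg, ← integral_complex_ofReal]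
      congr 1
      funext x
      rw [hrE, neg_neg]
    rw [hmass] at e
    have e2 : -((ε : ℂ) * -((Real.pi : ℂ) ^ 2 * ((bernoulliFun (n + 1) θ : ℝ) : ℂ) / ((n : ℂ) + 1))) =
        ((Real.pi ^ 2 * (ε * bernoulliFun (n + 1) θ) / (n + 1) : ℝ) : ℂ) := by
      push_cast
      ring
    rw [e2] at e
    exact_mod_cast e
  -- log weighted mass
  obtain ⟨G, hG⟩ : ∃ G : ℝ → ℝ, G = fun x => r x * Real.log (2 + |x|) := ⟨_, rfl⟩
  have hlog2 : ∀ x : ℝ, 0 ≤ Real.log (2 + |x|) := fun x => Real.log_nonneg (by linarith [abs_nonneg x])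
  have hG0 : ∀ x, 0 ≤ G x := fun x => by rw [hG]; exact mul_nonneg (hr0 x) (hlog2 x)
  have hGI : Integrable G := by
    have hmaj : Integrable (fun x : ℝ => CE * 10 * (1 + |x|) ^ (-(3/2) : ℝ)) := by
      have h := integrable_one_add_norm (E := ℝ) (μ := volume) (r := 3/2) (by simp; norm_num)
      simp only [Real.norm_eq_abs] at h
      exact h.const_mul _
    refine Integrable.mono' hmaj ?_ (Eventually.of_forall fun x => ?_)
    · rw [hG]
      apply Continuous.aestronglyMeasurable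
      apply hrc.mul
      apply Continuous.log (by fun_prop)
      intro x
      have := abs_nonneg x
      linarith
    · rw [Real.norm_of_nonneg (hG0 x), hG]
      simp only
      have h2 := log_grow 0 x
      rw [abs_zero, zero_sub, abs_neg, add_zero] at h2
      have h3 : (2:ℝ) ^ ((1/2) : ℝ) ≤ 2 := by
        calc (2:ℝ) ^ ((1/2) : ℝ) ≤ (2:ℝ) ^ (1:ℝ) := Real.rpow_le_rpow_of_exponent_le (by norm_num) (by norm_num)
          _ = 2 := Real.rpow_one 2
      have hx1 : 0 < 1 + |x| := by positivity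
      have h5 : (1 + |x|) ^ (-(3/2) : ℝ) = (1 + |x|) ^ ((1/2) : ℝ) / (1 + |x|) ^ 2 := by
        rw [← Real.rpow_natCast, ← Real.rpow_sub hx1]
        norm_num
      have h6 : (0:ℝ) ≤ (1 + |x|) ^ ((1/2) : ℝ) := by positivity
      have h7 : Real.log (2 + |x|) ≤ 5 * (1 + |x|) ^ ((1/2) : ℝ) := by nlinarith
      have h8 : (1 + x ^ 2)⁻¹ ≤ 2 / (1 + |x|) ^ 2 := by
        rw [inv_eq_one_div, div_le_div_iff₀ (by positivity) (by positivity)]
        nlinarith [sq_nonneg (1 - |x|), sq_abs x]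
      calc r x * Real.log (2 + |x|) ≤ (CE * (2 / (1 + |x|) ^ 2)) * (5 * (1 + |x|) ^ ((1/2) : ℝ)) := by
            apply mul_le_mul _ h7 (hlog2 x) (by positivity)
            exact ((hrn x).trans (hEb x)).trans (by gcongr)
        _ = _ := by rw [h5]; ring
  obtain ⟨m1, hm1⟩ : ∃ m1 : ℝ, m1 = ∫ x, G x := ⟨_, rfl⟩
  have hm1' : 0 ≤ m1 := by rw [hm1]; exact integral_nonneg hG0
  obtain ⟨m0, hm0⟩ : ∃ m0 : ℝ, m0 = ∫ x, r x := ⟨_, rfl⟩
  have hm0' : 0 ≤ m0 := by rw [hm0]; exact integral_nonneg hr0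
  refine ⟨m1 + C0 * m0 + CR * CE * Real.pi, by positivity, fun s hs1 hs2 hs3 Δ hΔ => ?_⟩
  have hΔ0 : 0 < Δ := by linarith
  have him : |s.im| = s.im := abs_of_nonneg (by linarith)
  have hcon := contour (θ := θ) h0 h1 hn hB (Φ := fun z => QQ (s - I * z)) (Δ := Δ) (U := U)
    (K := CG / (s.re - 1/2) * (1 + 2 * (2 + |s.im|) ^ ((1/2) : ℝ))) hΔ0 hU0 (by
      have : 0 < s.re - 1/2 := by linarith
      positivity) (by
      intro z hz0 hz1
      have h2 := QQ_diff hRH (s := s - I * z) (by rw [sh_re]; linarith)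
      exact DifferentiableAt.comp (f := fun z : ℂ => s - I * z) z h2 (by fun_prop)) (by
      intro z hz0 hz1
      have h2 := hgr (s - I * z) (by rw [sh_re]; linarith) (by rw [sh_re]; linarith)
      refine h2.trans ?_
      rw [sh_re, sh_im]
      have h3 := log_grow s.im z.re
      have hp : 0 < s.re - 1/2 := by linarith
      calc CG * (1 + Real.log (2 + |s.im - z.re|)) / (s.re + z.im - 1/2)
          ≤ CG * (1 + Real.log (2 + |s.im - z.re|)) / (s.re - 1/2) := by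
            apply div_le_div_of_nonneg_left _ hp (by linarith)
            have := Real.log_nonneg (x := 2 + |s.im - z.re|) (by linarith [abs_nonneg (s.im - z.re)])
            positivity
        _ ≤ CG * ((1 + 2 * (2 + |s.im|) ^ ((1/2) : ℝ)) * (1 + |z.re|) ^ ((1/2) : ℝ)) / (s.re - 1/2) := by
            gcongr
        _ = _ := by ring)
  obtain ⟨c1, c2, c3⟩ := hcon
  -- the vertical term
  have e1 : I * (∫ u in (0:ℝ)..U, QQ (s - I * (u * I)) * ((Real.pi : ℂ) ^ 2 * (Δ * (u * I)) ^ n)) =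
      ((Real.pi ^ 2 * Δ ^ n : ℝ) : ℂ) * (I ^ (n + 1) * ∫ u in (0:ℝ)..U, (u : ℂ) ^ n * QQ (s + u)) := by
    have e2 : (∫ u in (0:ℝ)..U, QQ (s - I * (u * I)) * ((Real.pi : ℂ) ^ 2 * (Δ * (u * I)) ^ n)) =
        ∫ u in (0:ℝ)..U, ((Real.pi : ℂ) ^ 2 * Δ ^ n * I ^ n) * ((u : ℂ) ^ n * QQ (s + u)) := by
      congr 1
      funext u
      have : s - I * (u * I) = s + u := by linear_combination (-(u:ℂ)) * I_mul_I
      rw [this, mul_pow, mul_pow]
      ring
    rw [e2, intervalIntegral.integral_const_mul]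
    push_cast
    ring
  rw [e1] at c3
  -- real parts
  obtain ⟨W, hW⟩ : ∃ W : ℂ, W = I ^ (n + 1) * ∫ u in (0:ℝ)..U, (u : ℂ) ^ n * QQ (s + u) := ⟨_, rfl⟩
  rw [← hW] at c3 ⊢
  have e3 : ε * (Real.pi ^ 2 * Δ ^ n) * W.re = (∫ x : ℝ, (ε : ℂ) * (QQ (s - I * x) * EE θ n (Δ * x))).re -
      ((ε : ℂ) * ∫ x : ℝ, QQ (s - I * (x + U * I)) * EE θ n (Δ * (x + U * I))).re := by
    have e4 : (ε * (Real.pi ^ 2 * Δ ^ n) * W.re : ℝ) = ((ε : ℂ) * (((Real.pi ^ 2 * Δ ^ n : ℝ) : ℂ) * W)).re := by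
      rw [Complex.re_ofReal_mul, Complex.re_ofReal_mul, mul_assoc]
    rw [e4, integral_const_mul, c3, mul_add, Complex.add_re]
    ring
  rw [e3]
  -- first term
  have f1 : (∫ x : ℝ, (ε : ℂ) * (QQ (s - I * x) * EE θ n (Δ * x))).re ≤
      ∫ x : ℝ, (r (Δ * x) * (Real.log s.im / 2 + C0) + G (Δ * x)) := by
    have g1 : (∫ x : ℝ, (ε : ℂ) * (QQ (s - I * x) * EE θ n (Δ * x))).re =
        ∫ x : ℝ, ((ε : ℂ) * (QQ (s - I * x) * EE θ n (Δ * x))).re := by
      have := integral_re (c1.const_mul (ε : ℂ))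
      simpa using this.symm
    rw [g1]
    apply integral_mono
    · have := (c1.const_mul (ε : ℂ)).re
      simpa using this
    · exact ((hrI.comp_mul_left' hΔ0.ne').mul_const _).add (hGI.comp_mul_left' hΔ0.ne')
    · intro x
      simp only
      have g2 : (ε : ℂ) * (QQ (s - I * x) * EE θ n (Δ * x)) = ((-(r (Δ * x)) : ℝ) : ℂ) * QQ (s - I * x) := by
        have := hrE (Δ * x)
        push_cast at this ⊢
        rw [← this]
        ring
      rw [g2, Complex.re_ofReal_mul]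
      have g3 := hre (s - I * x) (by rw [sh_re]; simpa using hs1) (by rw [sh_re]; simp; linarith)
      rw [sh_im, ofReal_re] at g3
      have g4 := log_split (x := x) hs3
      have g5 : Real.log (2 + |x|) ≤ Real.log (2 + |Δ * x|) := by
        apply Real.log_le_log (by positivity)
        rw [abs_mul, abs_of_pos hΔ0]
        nlinarith [abs_nonneg x]
      have g6 := hr0 (Δ * x)
      have g7 : -(QQ (s - I * x)).re ≤ Real.log s.im / 2 + C0 + Real.log (2 + |Δ * x|) := by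
        have := hlog2 (Δ * x)
        linarith
      rw [hG]
      simp only
      nlinarith
  have f2 : ∫ x : ℝ, (r (Δ * x) * (Real.log s.im / 2 + C0) + G (Δ * x)) =
      (m0 * (Real.log s.im / 2 + C0) + m1) / Δ := by
    rw [integral_add ((hrI.comp_mul_left' hΔ0.ne').mul_const _) (hGI.comp_mul_left' hΔ0.ne'),
      integral_mul_const]
    have k1 : ∫ x : ℝ, r (Δ * x) = Δ⁻¹ * m0 := by
      rw [Measure.integral_comp_mul_left r Δ, abs_of_pos (inv_pos.2 hΔ0), smul_eq_mul, hm0]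
    have k2 : ∫ x : ℝ, G (Δ * x) = Δ⁻¹ * m1 := by
      rw [Measure.integral_comp_mul_left G Δ, abs_of_pos (inv_pos.2 hΔ0), smul_eq_mul, hm1]
    rw [k1, k2]
    field_simp
  -- second term
  have f3 : ‖(ε : ℂ) * ∫ x : ℝ, QQ (s - I * (x + U * I)) * EE θ n (Δ * (x + U * I))‖ ≤
      CR * CE * Real.pi * Real.exp (2 * Real.pi * Δ * U) / Δ := by
    rw [norm_mul, Complex.norm_real, Real.norm_eq_abs, hεabs, one_mul]
    have k1 : ‖∫ x : ℝ, QQ (s - I * (x + U * I)) * EE θ n (Δ * (x + U * I))‖ ≤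
        ∫ x : ℝ, (CR * (CE * Real.exp (2 * Real.pi * Δ * U))) * (1 + (Δ * x) ^ 2)⁻¹ := by
      refine norm_integral_le_of_norm_le ?_ (Eventually.of_forall fun x => ?_)
      · exact ((integrable_inv_one_add_sq).comp_mul_left' hΔ0.ne').const_mul _
      · rw [norm_mul]
        have k2 := hR (s - I * (x + U * I)) (by rw [sh_re]; simp; linarith)
        have k3 := b3 (Δ * (x + U * I))
        have k4 : |((Δ : ℂ) * (x + U * I)).im| = Δ * U := by
          have : ((Δ : ℂ) * (x + U * I)).im = Δ * U := by simp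
          rw [this, abs_of_nonneg (by positivity)]
        have k5 : (Δ * x) ^ 2 ≤ ‖(Δ : ℂ) * (x + U * I)‖ ^ 2 := by
          have := Complex.abs_re_le_norm ((Δ : ℂ) * (x + U * I))
          have k6 : ((Δ : ℂ) * (x + U * I)).re = Δ * x := by simp
          rw [k6] at this
          rw [← sq_abs (Δ * x)]
          gcongr
        rw [k4] at k3
        calc ‖QQ (s - I * (x + U * I))‖ * ‖EE θ n (Δ * (x + U * I))‖
            ≤ CR * (CE * Real.exp (2 * Real.pi * (Δ * U)) / (1 + ‖(Δ : ℂ) * (x + U * I)‖ ^ 2)) := by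
              apply mul_le_mul k2 k3 (norm_nonneg _) hCR
          _ ≤ CR * (CE * Real.exp (2 * Real.pi * (Δ * U)) / (1 + (Δ * x) ^ 2)) := by
              gcongr
          _ = _ := by
              rw [← mul_assoc (2 * Real.pi) Δ U]
              ring
    refine k1.trans (le_of_eq ?_)
    rw [integral_const_mul, Measure.integral_comp_mul_left (fun y : ℝ => (1 + y ^ 2)⁻¹) Δ,
      integral_univ_inv_one_add_sq, abs_of_pos (inv_pos.2 hΔ0), smul_eq_mul]
    field_simp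
  have f4 := (abs_le.1 ((Complex.abs_re_le_norm _).trans f3)).1
  have f5 : (m1 + C0 * m0) / Δ ≤ (m1 + C0 * m0) * Real.exp (2 * Real.pi * Δ * U) / Δ := by
    have k1 : 1 ≤ Real.exp (2 * Real.pi * Δ * U) := by
      apply Real.one_le_exp
      have := Real.pi_pos
      positivity
    have k2 : 0 ≤ m1 + C0 * m0 := by positivity
    apply div_le_div_of_nonneg_right _ hΔ0.le
    nlinarith
  rw [← hrmass, ← hm0]
  have e7 : (m0 * (Real.log s.im / 2 + C0) + m1) / Δ = m0 * (Real.log s.im / 2) / Δ + (m1 + C0 * m0) / Δ := by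
    ring
  have e8 : (m1 + C0 * m0 + CR * CE * Real.pi) * Real.exp (2 * Real.pi * Δ * U) / Δ =
      (m1 + C0 * m0) * Real.exp (2 * Real.pi * Δ * U) / Δ + CR * CE * Real.pi * Real.exp (2 * Real.pi * Δ * U) / Δ := by
    ring
  rw [f2, e7] at f1
  rw [e8]
  linarith

end

end Pool.Agent.R305.SK
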