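import Pool.Agent.R305.SK.ST2
import Pool.Agent.R305.SK.MI

set_option autoImplicit false

/-! Final assembly: bounds for `S_n`. -/

namespace Pool.Agent.R305.SK

open MeasureTheory Complex Filter Topology Set

noncomputable section

/-- truncation -/
lemma LL_trunc (hRH : RiemannHypothesis) (n : ℕ) {U : ℝ} (hU : 1/2 < U) (hU1 : U ≤ 1) :
    ∃ C : ℝ, 0 ≤ C ∧ ∀ s : ℂ, 1/2 < s.re → s.re ≤ 1 → 1 ≤ s.im →
      ‖(n.factorial : ℂ) * LL (n + 1) s + ∫ u in (0:ℝ)..U, (u : ℂ) ^ n * QQ (s + u)‖ ≤ C := by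
  obtain ⟨C1, hC1, h1⟩ := ZZ_bd (δ := U - 1/2) (by linarith)
  have hU0 : 0 ≤ U := by linarith
  obtain ⟨G, hG⟩ : ∃ G : ℝ → ℝ, G = fun u : ℝ => C1 * (u ^ (n : ℝ) * Real.exp (-(1/2 * u))) := ⟨_, rfl⟩
  have hGI : IntegrableOn G (Ioi 0) := by
    have h := Real.integral_rpow_mul_exp_neg_mul_Ioi (a := (n : ℝ) + 1) (r := 1/2) (by positivity) (by norm_num)
    rw [add_sub_cancel_right] at h
    rw [hG]
    apply Integrable.const_mul
    by_contra hc
    rw [integral_undef hc] at h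
    have h3 : 0 < (1 / (1/2 : ℝ)) ^ ((n : ℝ) + 1) * Real.Gamma ((n : ℝ) + 1) := by
      have := Real.Gamma_pos_of_pos (s := (n : ℝ) + 1) (by positivity)
      positivity
    linarith
  have hG0 : ∀ u ∈ Ioi (0:ℝ), 0 ≤ G u := by
    intro u hu
    have hu' : (0:ℝ) < u := hu
    rw [hG]
    positivity
  refine ⟨1 + ∫ u in Ioi (0:ℝ), G u, ?_, fun s hs1 hs2 hs3 => ?_⟩
  · have := setIntegral_nonneg (μ := volume) measurableSet_Ioi hG0
    linarith
  have hs : s ∈ DD := ⟨hs1, by linarith⟩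
  obtain ⟨hI, hF⟩ := LL_formula hRH n 0 hs
  have hfac : (n.factorial : ℂ) ≠ 0 := by exact_mod_cast n.factorial_ne_zero
  obtain ⟨g, hg⟩ : ∃ g : ℝ → ℂ, g = fun u : ℝ => (u : ℂ) ^ n * ZZ (s + u) := ⟨_, rfl⟩
  have hgI : IntegrableOn g (Ioi 0) := by
    have h2 := hI.const_mul (-(n.factorial : ℂ))
    refine h2.congr (Eventually.of_forall fun u => ?_)
    rw [hg]
    have : LL 0 (s + u) = -ZZ (s + u) := rfl
    simp only [this]
    push_cast
    field_simp
  have hF2 : (n.factorial : ℂ) * LL (n + 1) s = -∫ u in Ioi (0:ℝ), g u := by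
    have e : 0 + n + 1 = n + 1 := by ring
    rw [e] at hF
    rw [← hF, ← integral_const_mul, ← integral_neg]
    congr 1
    funext u
    rw [hg]
    have : LL 0 (s + u) = -ZZ (s + u) := rfl
    simp only [this]
    push_cast
    field_simp
  have hsplit : ∫ u in Ioi (0:ℝ), g u = (∫ u in (0:ℝ)..U, g u) + ∫ u in Ioi U, g u :=
    (intervalIntegral.integral_interval_add_Ioi hgI (hgI.mono_set (Ioi_subset_Ioi hU0))).symm
  have hshift : ∀ u : ℝ, 0 ≤ u → s + (u : ℂ) - 1 ≠ 0 := by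
    intro u hu h
    have := congrArg Complex.im h
    simp at this
    linarith
  have hQc : ContinuousOn (fun u : ℝ => (u : ℂ) ^ n * QQ (s + u)) (uIcc 0 U) := by
    rw [uIcc_of_le hU0]
    intro u hu
    have h3 := QQ_diff hRH (s := s + u) (by simp; linarith [hu.1])
    have h4 : ContinuousAt (fun u : ℝ => QQ (s + u)) u :=
      ContinuousAt.comp (f := fun u : ℝ => s + (u : ℂ)) h3.continuousAt (by fun_prop)
    exact ((by fun_prop : Continuous fun u : ℝ => (u : ℂ) ^ n).continuousAt.mul h4).continuousWithinAt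
  have hRc : ContinuousOn (fun u : ℝ => (u : ℂ) ^ n * (s + u - 1)⁻¹) (uIcc 0 U) := by
    rw [uIcc_of_le hU0]
    intro u hu
    have h4 : ContinuousAt (fun u : ℝ => (s + (u : ℂ) - 1)⁻¹) u :=
      ContinuousAt.inv₀ (by fun_prop) (hshift u hu.1)
    exact ((by fun_prop : Continuous fun u : ℝ => (u : ℂ) ^ n).continuousAt.mul h4).continuousWithinAt
  have hpart : ∫ u in (0:ℝ)..U, g u = (∫ u in (0:ℝ)..U, (u : ℂ) ^ n * QQ (s + u)) -
      ∫ u in (0:ℝ)..U, (u : ℂ) ^ n * (s + u - 1)⁻¹ := by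
    rw [← intervalIntegral.integral_sub hQc.intervalIntegrable hRc.intervalIntegrable]
    congr 1
    funext u
    rw [hg]
    simp only [ZZ, one_div]
    ring
  have e1 : (n.factorial : ℂ) * LL (n + 1) s + ∫ u in (0:ℝ)..U, (u : ℂ) ^ n * QQ (s + u) =
      (∫ u in (0:ℝ)..U, (u : ℂ) ^ n * (s + u - 1)⁻¹) - ∫ u in Ioi U, g u := by
    rw [hF2, hsplit, hpart]
    ring
  rw [e1]
  have n1 : ‖∫ u in (0:ℝ)..U, (u : ℂ) ^ n * (s + u - 1)⁻¹‖ ≤ 1 := by
    have h3 := intervalIntegral.norm_integral_le_of_norm_le_const (a := 0) (b := U) (C := 1)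
      (f := fun u : ℝ => (u : ℂ) ^ n * (s + u - 1)⁻¹) (by
        intro u hu
        rw [uIoc_of_le hU0] at hu
        rw [norm_mul, norm_pow, norm_inv, Complex.norm_real, Real.norm_of_nonneg hu.1.le]
        have h4 : (1:ℝ) ≤ ‖s + (u : ℂ) - 1‖ := by
          have := Complex.abs_im_le_norm (s + (u : ℂ) - 1)
          simp only [sub_im, add_im, ofReal_im, add_zero, one_im, sub_zero] at this
          have := le_abs_self s.im
          linarith
        have h5 : u ^ n ≤ 1 := pow_le_one₀ hu.1.le (by linarith [hu.2])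
        have h6 : ‖s + (u : ℂ) - 1‖⁻¹ ≤ 1 := inv_le_one_of_one_le₀ h4
        have h7 : 0 ≤ u ^ n := pow_nonneg hu.1.le n
        have h8 : 0 ≤ ‖s + (u : ℂ) - 1‖⁻¹ := by positivity
        nlinarith)
    rw [sub_zero, abs_of_nonneg hU0, one_mul] at h3
    linarith
  have n2 : ‖∫ u in Ioi U, g u‖ ≤ ∫ u in Ioi (0:ℝ), G u := by
    have h3 : ‖∫ u in Ioi U, g u‖ ≤ ∫ u in Ioi U, G u := by
      refine norm_integral_le_of_norm_le (hGI.mono_set (Ioi_subset_Ioi hU0)) ?_
      refine (ae_restrict_mem measurableSet_Ioi).mono fun u hu => ?_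
      have hu' : U < u := hu
      have hu0 : 0 < u := by linarith
      rw [hg, hG]
      simp only
      rw [norm_mul, norm_pow, Complex.norm_real, Real.norm_of_nonneg hu0.le, Real.rpow_natCast]
      have h4 := h1 (s + u) (by simp; linarith)
      have h5 : Real.exp (-((s + (u : ℂ)).re / 2)) ≤ Real.exp (-(1/2 * u)) := by
        apply Real.exp_le_exp.2
        simp
        linarith
      calc u ^ n * ‖ZZ (s + u)‖ ≤ u ^ n * (C1 * Real.exp (-(1/2 * u))) := by
            gcongr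
            exact h4.trans (by gcongr)
        _ = _ := by ring
    refine h3.trans ?_
    exact setIntegral_mono_set hGI ((ae_restrict_mem measurableSet_Ioi).mono hG0)
      (Ioi_subset_Ioi hU0).eventuallyLE
  exact (norm_sub_le _ _).trans (add_le_add n1 n2)

/-- `T_n` in terms of the truncated integral -/
lemma TT_trunc (hRH : RiemannHypothesis) (n : ℕ) {U : ℝ} (hU : 1/2 < U) (hU1 : U ≤ 1) :
    ∃ C : ℝ, 0 ≤ C ∧ ∀ x t : ℝ, 1/2 < x → x ≤ 1 → 1 ≤ t →
      |TT n x t - 1 / (Real.pi * n.factorial) * (I ^ (n + 1) * ∫ u in (0:ℝ)..U, (u : ℂ) ^ n * QQ (((x : ℂ) + t * I) + u)).re| ≤ C := by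
  obtain ⟨C, hC, h⟩ := LL_trunc hRH n hU hU1
  refine ⟨1 / (Real.pi * n.factorial) * C, by have := Real.pi_pos; positivity, fun x t hx hx1 ht => ?_⟩
  have h1 := h ((x : ℂ) + t * I) (by simpa using hx) (by simpa using hx1) (by simpa using ht)
  obtain ⟨W, hW⟩ : ∃ W : ℂ, W = ∫ u in (0:ℝ)..U, (u : ℂ) ^ n * QQ (((x : ℂ) + t * I) + u) := ⟨_, rfl⟩
  rw [← hW] at h1 ⊢
  obtain ⟨L, hL⟩ : ∃ L : ℂ, L = LL (n + 1) ((x : ℂ) + t * I) := ⟨_, rfl⟩
  unfold TT
  rw [← hL] at h1 ⊢
  have hfac : (0:ℝ) < n.factorial := by exact_mod_cast n.factorial_pos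
  have hpi := Real.pi_pos
  have e1 : (I ^ n * L).im = -(I ^ (n + 1) * L).re := by
    have : I ^ (n + 1) * L = I * (I ^ n * L) := by ring
    rw [this]
    simp
  have e2 : 1 / Real.pi * (I ^ n * L).im - 1 / (Real.pi * n.factorial) * (I ^ (n + 1) * W).re =
      -(1 / (Real.pi * n.factorial) * (I ^ (n + 1) * ((n.factorial : ℂ) * L + W)).re) := by
    have e3 : (I ^ (n + 1) * ((n.factorial : ℂ) * L + W)).re = n.factorial * (I ^ (n + 1) * L).re + (I ^ (n + 1) * W).re := by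
      have e4 : I ^ (n + 1) * ((n.factorial : ℂ) * L + W) = ((n.factorial : ℝ) : ℂ) * (I ^ (n + 1) * L) + I ^ (n + 1) * W := by
        push_cast
        ring
      rw [e4, Complex.add_re, Complex.re_ofReal_mul]
    rw [e3, e1]
    field_simp
    ring
  rw [e2, abs_neg, abs_mul, abs_of_pos (by positivity : 0 < 1 / (Real.pi * n.factorial))]
  apply mul_le_mul_of_nonneg_left _ (by positivity)
  refine (Complex.abs_re_le_norm _).trans ?_
  rw [norm_mul, norm_pow, Complex.norm_I, one_pow, one_mul]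
  exact h1

/-- the bound for `T_n`, uniform up to the critical line, hence for `S_n` -/
theorem Sn_bound (hRH : RiemannHypothesis) {θ : ℝ} (h0 : 0 < θ) (h1 : θ < 1) {n : ℕ} (hn : Even n)
    (hn0 : n ≠ 0) (hB : bernoulliFun n θ = 0) {ε : ℝ} (hε1 : ε = 1 ∨ ε = -1)
    (hε : ∀ v ∈ Icc (0:ℝ) 1, ε * bernoulliFun (n + 1) v ≤ ε * bernoulliFun (n + 1) θ)
    {U : ℝ} (hU : 1/2 < U) (hU1 : U ≤ 1) :
    ∃ C : ℝ, 0 ≤ C ∧ ∀ t : ℝ, 2 ≤ t → ∀ Δ : ℝ, 1 ≤ Δ →
      ε * Sn n t ≤ (ε * bernoulliFun (n + 1) θ) / (2 * Real.pi * (n + 1).factorial) * Real.log t / Δ ^ (n + 1) +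
        C * Real.exp (2 * Real.pi * Δ * U) / Δ ^ (n + 1) + C := by
  obtain ⟨C1, hC1, hMI⟩ := MI hRH h0 h1 hn hn0 hB hε1 hε hU hU1
  obtain ⟨C2, hC2, hT⟩ := TT_trunc hRH n hU hU1
  have hfac : (0:ℝ) < n.factorial := by exact_mod_cast n.factorial_pos
  have hpi := Real.pi_pos
  refine ⟨max (C1 / (Real.pi ^ 3 * n.factorial)) C2, le_max_of_le_right hC2, fun t ht Δ hΔ => ?_⟩
  have hΔ0 : 0 < Δ := by linarith
  have hεabs : |ε| = 1 := by rcases hε1 with h | h <;> rw [h] <;> simp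
  have hx : ∀ x : ℝ, 1/2 < x → x ≤ 1 → ε * TT n x t ≤
      (ε * bernoulliFun (n + 1) θ) / (2 * Real.pi * (n + 1).factorial) * Real.log t / Δ ^ (n + 1) +
        max (C1 / (Real.pi ^ 3 * n.factorial)) C2 * Real.exp (2 * Real.pi * Δ * U) / Δ ^ (n + 1) +
          max (C1 / (Real.pi ^ 3 * n.factorial)) C2 := by
    intro x hx hx1
    have g1 := hMI ((x : ℂ) + t * I) (by simpa using hx) (by simpa using hx1) (by simpa using ht) Δ hΔ
    have g2 := hT x t hx hx1 (by linarith)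
    have e0 : ((x : ℂ) + t * I).im = t := by simp
    rw [e0] at g1
    obtain ⟨R, hR⟩ : ∃ R : ℝ, R = (I ^ (n + 1) * ∫ u in (0:ℝ)..U, (u : ℂ) ^ n * QQ (((x : ℂ) + t * I) + u)).re := ⟨_, rfl⟩
    rw [← hR] at g1 g2
    have g3 : ε * TT n x t ≤ 1 / (Real.pi * n.factorial) * (ε * R) + C2 := by
      have h5 : ε * (TT n x t - 1 / (Real.pi * n.factorial) * R) ≤ C2 := by
        refine (le_abs_self _).trans ?_
        rw [abs_mul, hεabs, one_mul]
        exact g2
      have h6 : 1 / (Real.pi * n.factorial) * (ε * R) = ε * (1 / (Real.pi * n.factorial) * R) := by ring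
      rw [h6]
      linarith
    have g4 : 1 / (Real.pi * n.factorial) * (ε * R) =
        (ε * (Real.pi ^ 2 * Δ ^ n) * R) / (Real.pi ^ 3 * n.factorial * Δ ^ n) := by
      field_simp
    have g5 : (ε * (Real.pi ^ 2 * Δ ^ n) * R) / (Real.pi ^ 3 * n.factorial * Δ ^ n) ≤
        ((Real.pi ^ 2 * (ε * bernoulliFun (n + 1) θ) / (n + 1)) * (Real.log t / 2) / Δ +
          C1 * Real.exp (2 * Real.pi * Δ * U) / Δ) / (Real.pi ^ 3 * n.factorial * Δ ^ n) := by
      gcongr
    have g6 : ((Real.pi ^ 2 * (ε * bernoulliFun (n + 1) θ) / (n + 1)) * (Real.log t / 2) / Δ +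
          C1 * Real.exp (2 * Real.pi * Δ * U) / Δ) / (Real.pi ^ 3 * n.factorial * Δ ^ n) =
        (ε * bernoulliFun (n + 1) θ) / (2 * Real.pi * (n + 1).factorial) * Real.log t / Δ ^ (n + 1) +
          C1 / (Real.pi ^ 3 * n.factorial) * Real.exp (2 * Real.pi * Δ * U) / Δ ^ (n + 1) := by
      rw [Nat.factorial_succ]
      push_cast
      field_simp
      ring
    have g7 : C1 / (Real.pi ^ 3 * n.factorial) * Real.exp (2 * Real.pi * Δ * U) / Δ ^ (n + 1) ≤
        max (C1 / (Real.pi ^ 3 * n.factorial)) C2 * Real.exp (2 * Real.pi * Δ * U) / Δ ^ (n + 1) := by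
      gcongr
      exact le_max_left _ _
    have g8 := le_max_right (C1 / (Real.pi ^ 3 * n.factorial)) C2
    rw [g6] at g5
    rw [g4] at g3
    linarith
  have hlim := ((TT_lim hRH n).2.2 hn0 t (by linarith)).const_mul ε
  refine le_of_tendsto hlim ?_
  filter_upwards [near_half] with x hxx
  exact hx x hxx.1 (by linarith [hxx.2])

/-- crude bound -/
theorem Sn_crude (hRH : RiemannHypothesis) (n : ℕ) : ∃ C : ℝ, 0 ≤ C ∧ ∀ t : ℝ, 2 ≤ t →
    |Sn (n + 1) t| ≤ C * (1 + Real.log (2 + t)) := by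
  obtain ⟨C2, hC2, hT⟩ := TT_trunc hRH (n + 1) (U := 1) (by norm_num) le_rfl
  obtain ⟨CG, hCG, hgr⟩ := QQ_growth hRH
  have hfac : (0:ℝ) < (n + 1).factorial := by exact_mod_cast (n + 1).factorial_pos
  have hpi := Real.pi_pos
  refine ⟨1 / (Real.pi * (n + 1).factorial) * CG + C2, by positivity, fun t ht => ?_⟩
  have hlog : 0 ≤ Real.log (2 + t) := Real.log_nonneg (by linarith)
  have hx : ∀ x : ℝ, 1/2 < x → x ≤ 1 → |TT (n + 1) x t| ≤ (1 / (Real.pi * (n + 1).factorial) * CG + C2) * (1 + Real.log (2 + t)) := by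
    intro x hx hx1
    have g2 := hT x t hx hx1 (by linarith)
    have g3 : ‖∫ u in (0:ℝ)..1, (u : ℂ) ^ (n + 1) * QQ (((x : ℂ) + t * I) + u)‖ ≤ CG * (1 + Real.log (2 + t)) := by
      have h3 := intervalIntegral.norm_integral_le_of_norm_le_const (a := 0) (b := 1) (C := CG * (1 + Real.log (2 + t)))
        (f := fun u : ℝ => (u : ℂ) ^ (n + 1) * QQ (((x : ℂ) + t * I) + u)) (by
          intro u hu
          rw [uIoc_of_le zero_le_one] at hu
          rw [norm_mul, norm_pow, Complex.norm_real, Real.norm_of_nonneg hu.1.le]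
          have h4 := hgr (((x : ℂ) + t * I) + u) (by simp; linarith [hu.1]) (by simp; linarith [hu.2])
          have e1 : (((x : ℂ) + t * I) + u).re = x + u := by simp
          have e2 : (((x : ℂ) + t * I) + u).im = t := by simp
          rw [e1, e2, abs_of_nonneg (by linarith : (0:ℝ) ≤ t)] at h4
          have hp : 0 < x + u - 1/2 := by linarith [hu.1]
          have h5 : u ^ (n + 1) ≤ x + u - 1/2 := by
            have : u ^ (n + 1) ≤ u := by
              calc u ^ (n + 1) = u ^ n * u := pow_succ u n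
                _ ≤ 1 * u := by gcongr; exact hu.1.le; exact pow_le_one₀ hu.1.le hu.2
                _ = u := one_mul u
            linarith
          calc u ^ (n + 1) * ‖QQ (((x : ℂ) + t * I) + u)‖ ≤ (x + u - 1/2) * (CG * (1 + Real.log (2 + t)) / (x + u - 1/2)) := by
                apply mul_le_mul h5 h4 (norm_nonneg _) hp.le
            _ = _ := by rw [mul_div_assoc', mul_div_cancel_left₀ _ hp.ne'])
      rw [sub_zero, abs_one, mul_one] at h3
      exact h3
    have g4 : |(I ^ (n + 1 + 1) * ∫ u in (0:ℝ)..1, (u : ℂ) ^ (n + 1) * QQ (((x : ℂ) + t * I) + u)).re| ≤ CG * (1 + Real.log (2 + t)) := by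
      refine (Complex.abs_re_le_norm _).trans ?_
      rw [norm_mul, norm_pow, Complex.norm_I, one_pow, one_mul]
      exact g3
    obtain ⟨R, hR⟩ : ∃ R : ℝ, R = (I ^ (n + 1 + 1) * ∫ u in (0:ℝ)..1, (u : ℂ) ^ (n + 1) * QQ (((x : ℂ) + t * I) + u)).re := ⟨_, rfl⟩
    rw [← hR] at g2 g4
    have g5 : |1 / (Real.pi * (n + 1).factorial) * R| ≤ 1 / (Real.pi * (n + 1).factorial) * (CG * (1 + Real.log (2 + t))) := by
      rw [abs_mul, abs_of_pos (by positivity : 0 < 1 / (Real.pi * (n + 1).factorial))]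
      gcongr
    have g6 : |TT (n + 1) x t| ≤ |TT (n + 1) x t - 1 / (Real.pi * (n + 1).factorial) * R| + |1 / (Real.pi * (n + 1).factorial) * R| := by
      have := abs_add_le (TT (n + 1) x t - 1 / (Real.pi * (n + 1).factorial) * R) (1 / (Real.pi * (n + 1).factorial) * R)
      rwa [sub_add_cancel] at this
    nlinarith
  have hlim := ((TT_lim hRH (n + 1)).2.2 (by omega) t (by linarith)).abs
  refine le_of_tendsto hlim ?_
  filter_upwards [near_half] with x hxx
  exact hx x hxx.1 (by linarith [hxx.2])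

end

end Pool.Agent.R305.SK
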