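import Pool.Agent.R305.SK.EM

set_option autoImplicit false

/-! The kernel function. -/

namespace Pool.Agent.R305.SK

open MeasureTheory Finset Complex Filter Topology Set

noncomputable section

lemma summ_sq {c : ℝ} (hc : 0 < c) : Summable fun k : ℕ => 1 / ((k : ℝ) + c) ^ 2 := by
  have h := (Real.summable_one_div_nat_add_rpow c 2).2 (by norm_num)
  refine h.congr fun k => ?_
  have h1 : (0:ℝ) < (k : ℝ) + c := by positivity
  rw [abs_of_pos h1, Real.rpow_two]

lemma norm_ge {z : ℂ} {θ c : ℝ} (hz : c - θ ≤ z.re) (hc : 0 < c) (k : ℕ) :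
    (k : ℝ) + c ≤ ‖z + k + θ‖ := by
  have h := Complex.re_le_norm (z + k + θ)
  simp only [add_re, natCast_re, ofReal_re] at h
  linarith

lemma term_bd {z : ℂ} {θ c : ℝ} (hz : c - θ ≤ z.re) (hc : 0 < c) (k : ℕ) :
    ‖1 / (z + k + θ) ^ 2‖ ≤ 1 / ((k : ℝ) + c) ^ 2 := by
  have h := norm_ge hz hc k
  have h0 : (0:ℝ) < (k : ℝ) + c := by positivity
  rw [norm_div, norm_one, norm_pow]
  exact one_div_le_one_div_of_le (by positivity) (by gcongr)

lemma summ_term {z : ℂ} {θ : ℝ} (hz : -θ < z.re) : Summable fun k : ℕ => 1 / (z + k + θ) ^ 2 :=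
  Summable.of_norm_bounded (summ_sq (c := z.re + θ) (by linarith))
    (fun k => term_bd (by linarith) (by linarith) k)

/-- the kernel function `z ^ n ∑ 1 / (z + k + θ) ^ 2 - polynomial` -/
def KK (θ : ℝ) (n : ℕ) (z : ℂ) : ℂ :=
  z ^ n * (∑' k : ℕ, 1 / (z + k + θ) ^ 2) -
    ∑ j ∈ range n, (-1) ^ j * ((bernoulliFun j θ : ℝ) : ℂ) * z ^ (n - 1 - j)

lemma KK_diff (θ : ℝ) (n : ℕ) : DifferentiableOn ℂ (KK θ n) {z : ℂ | -θ < z.re} := by
  have hopen : IsOpen {z : ℂ | -θ < z.re} := isOpen_lt continuous_const Complex.continuous_re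
  have h1 : DifferentiableOn ℂ (fun z : ℂ => ∑' k : ℕ, 1 / (z + k + θ) ^ 2) {z : ℂ | -θ < z.re} := by
    intro z hz
    rw [Set.mem_ofPred_eq] at hz
    obtain ⟨c, hc0, hcz⟩ : ∃ c : ℝ, 0 < c ∧ c - θ < z.re := ⟨(z.re + θ) / 2, by linarith, by linarith⟩
    have hU : IsOpen {w : ℂ | c - θ < w.re} := isOpen_lt continuous_const Complex.continuous_re
    have h2 : DifferentiableOn ℂ (fun z : ℂ => ∑' k : ℕ, 1 / (z + k + θ) ^ 2) {w : ℂ | c - θ < w.re} := by
      refine differentiableOn_tsum_of_summable_norm (summ_sq hc0) (fun k => ?_) hU (fun k w hw => ?_)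
      · intro w hw
        have h3 := norm_ge (le_of_lt hw) hc0 k
        have h4 : w + k + θ ≠ 0 := by
          intro h5
          rw [h5, norm_zero] at h3
          have : (0:ℝ) < (k : ℝ) + c := by positivity
          linarith
        have h6 : DifferentiableAt ℂ (fun w : ℂ => 1 / (w + k + θ) ^ 2) w :=
          DifferentiableAt.div (by fun_prop) (by fun_prop) (pow_ne_zero _ h4)
        exact h6.differentiableWithinAt
      · exact term_bd (le_of_lt hw) hc0 k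
    exact ((h2 z hcz).differentiableAt (hU.mem_nhds hcz)).differentiableWithinAt
  unfold KK
  apply DifferentiableOn.sub
  · exact DifferentiableOn.mul (by fun_prop) h1
  · fun_prop

lemma inv_tendsto {z : ℂ} (j : ℕ) :
    Tendsto (fun K : ℕ => 1 / (z + K) ^ (j + 1)) atTop (𝓝 0) := by
  rw [tendsto_zero_iff_norm_tendsto_zero]
  have h1 : Tendsto (fun K : ℕ => ‖z + K‖) atTop atTop := by
    have h2 : Tendsto (fun K : ℕ => (K : ℝ) - ‖z‖) atTop atTop :=
      tendsto_atTop_add_const_right _ _ tendsto_natCast_atTop_atTop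
    refine tendsto_atTop_mono (fun K => ?_) h2
    have h3 := norm_sub_norm_le (K : ℂ) (-z)
    rw [norm_neg, sub_neg_eq_add, add_comm (K : ℂ) z, Complex.norm_natCast] at h3
    exact h3
  have h4 : Tendsto (fun K : ℕ => (‖z + K‖ ^ (j + 1))⁻¹) atTop (𝓝 0) :=
    (tendsto_inv_atTop_zero.comp ((tendsto_pow_atTop (Nat.succ_ne_zero j)).comp h1))
  refine h4.congr fun K => ?_
  rw [norm_div, norm_one, norm_pow, one_div]

lemma partial_sum (θ : ℝ) (n : ℕ) (z : ℂ) (K : ℕ) :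
    ∑ k ∈ range K, PS θ n (z + k) = ∑ k ∈ range K, 1 / (z + k + θ) ^ 2 -
      ∑ j ∈ range (n + 1), (-1) ^ j * ((bernoulliFun j θ : ℝ) : ℂ) *
        (1 / z ^ (j + 1) - 1 / (z + K) ^ (j + 1)) := by
  induction K with
  | zero => simp
  | succ K ih =>
    rw [Finset.sum_range_succ (fun k : ℕ => PS θ n (z + k)), ih,
      Finset.sum_range_succ (fun k : ℕ => 1 / (z + k + θ) ^ 2)]
    unfold PS
    have e : ∀ j : ℕ, (-1 : ℂ) ^ j * ((bernoulliFun j θ : ℝ) : ℂ) *
        (1 / z ^ (j + 1) - 1 / (z + ((K + 1 : ℕ) : ℂ)) ^ (j + 1)) =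
        (-1) ^ j * ((bernoulliFun j θ : ℝ) : ℂ) * (1 / z ^ (j + 1) - 1 / (z + K) ^ (j + 1)) +
        (-1) ^ j * ((bernoulliFun j θ : ℝ) : ℂ) *
          (1 / (z + K) ^ (j + 1) - 1 / (z + K + 1) ^ (j + 1)) := by
      intro j
      push_cast
      rw [← add_assoc]
      ring
    simp only [e]
    rw [Finset.sum_add_distrib]
    ring

/-- the weight integral -/
def WI (θ : ℝ) (n : ℕ) (z : ℂ) : ℂ :=
  (∫ u in (0:ℝ)..θ, ((bernoulliFun (n + 1) θ - bernoulliFun (n + 1) (θ - u) : ℝ) : ℂ) / (z + u) ^ (n + 3)) +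
  ∫ u in θ..1, ((bernoulliFun (n + 1) θ - bernoulliFun (n + 1) (θ + 1 - u) : ℝ) : ℂ) / (z + u) ^ (n + 3)

lemma int_inv {z : ℂ} (n : ℕ) {a b : ℝ} (ha : 0 ≤ a) (hab : a ≤ b) (hz : 0 ≤ z.re) (hz0 : z ≠ 0) :
    ((n : ℂ) + 2) * ∫ u in a..b, 1 / (z + u) ^ (n + 3) =
      1 / (z + a) ^ (n + 2) - 1 / (z + b) ^ (n + 2) := by
  have hd : ∀ u ∈ uIcc a b, HasDerivAt (fun u : ℝ => -(1 / (z + u) ^ (n + 2)))
      (((n : ℂ) + 2) * (1 / (z + u) ^ (n + 3))) u := by
    intro u hu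
    rw [Set.uIcc_of_le hab] at hu
    have h0 := zu_ne hz hz0 (ha.trans hu.1)
    have h6 : HasDerivAt (fun u : ℝ => z + (u : ℂ)) 1 u :=
      (Complex.ofRealCLM.hasDerivAt (x := u)).const_add z
    have h7 := ((h6.fun_pow (n + 2)).fun_inv (pow_ne_zero _ h0)).fun_neg
    simp only [one_div]
    refine h7.congr_deriv ?_
    have e1 : n + 2 - 1 = n + 1 := by omega
    have e2 : (z + u) ^ (n + 3) = (z + u) ^ (n + 1) * (z + u) * (z + u) := by
      rw [pow_succ, pow_succ]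
    have e3 : (z + u) ^ (n + 2) = (z + u) ^ (n + 1) * (z + u) := pow_succ _ _
    have h8 : (z + u) ^ (n + 1) ≠ 0 := pow_ne_zero _ h0
    rw [e1, e2, e3]
    push_cast
    field_simp
  have hint : IntervalIntegrable (fun u : ℝ => ((n : ℂ) + 2) * (1 / (z + u) ^ (n + 3))) volume a b := by
    apply ContinuousOn.intervalIntegrable
    rw [Set.uIcc_of_le hab]
    apply ContinuousOn.mul continuousOn_const
    apply ContinuousOn.div (by fun_prop) (by fun_prop)
    intro u hu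
    exact pow_ne_zero _ (zu_ne hz hz0 (ha.trans hu.1))
  rw [← intervalIntegral.integral_const_mul,
    intervalIntegral.integral_eq_sub_of_hasDerivAt hd hint]
  ring

/-- the difference as an integral with a weight of constant sign -/
lemma PS_eq {θ : ℝ} (h0 : 0 ≤ θ) (h1 : θ ≤ 1) {n : ℕ} (hn : Even n) {z : ℂ}
    (hz : 0 ≤ z.re) (hz0 : z ≠ 0) :
    PS θ n z = -((n : ℂ) + 2) * WI θ n z := by
  have h := em h0 h1 n hz hz0
  have e1 : (-1 : ℂ) ^ (n + 2) = 1 := by
    rw [pow_add, hn.neg_one_pow]; norm_num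
  have e2 : (-1 : ℂ) ^ (n + 1) = -1 := by rw [pow_succ, hn.neg_one_pow]; norm_num
  have e3 : PS θ n z = PS θ (n + 1) z + (-1) ^ (n + 1) * ((bernoulliFun (n + 1) θ : ℝ) : ℂ) *
      (1 / z ^ (n + 2) - 1 / (z + 1) ^ (n + 2)) := by
    unfold PS
    rw [Finset.sum_range_succ _ (n + 1)]
    ring
  rw [e3, ← h, e1, e2]
  have hc : ∀ (c : ℝ) (a b : ℝ), 0 ≤ a → a ≤ b → IntervalIntegrable
      (fun u : ℝ => ((bernoulliFun (n + 1) (c - u) : ℝ) : ℂ) / (z + u) ^ (n + 3)) volume a b := by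
    intro c a b ha hab
    apply ContinuousOn.intervalIntegrable
    rw [Set.uIcc_of_le hab]
    apply ContinuousOn.div
    · have : Continuous fun u : ℝ => ((bernoulliFun (n + 1) (c - u) : ℝ) : ℂ) := by
        have := continuous_bernoulliFun (n + 1)
        fun_prop
      exact this.continuousOn
    · fun_prop
    · intro u hu
      exact pow_ne_zero _ (zu_ne hz hz0 (ha.trans hu.1))
  have hc2 : ∀ (a b : ℝ), 0 ≤ a → a ≤ b → IntervalIntegrable
      (fun u : ℝ => ((bernoulliFun (n + 1) θ : ℝ) : ℂ) * (1 / (z + u) ^ (n + 3))) volume a b := by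
    intro a b ha hab
    apply ContinuousOn.intervalIntegrable
    rw [Set.uIcc_of_le hab]
    apply ContinuousOn.mul continuousOn_const
    apply ContinuousOn.div (by fun_prop) (by fun_prop)
    intro u hu
    exact pow_ne_zero _ (zu_ne hz hz0 (ha.trans hu.1))
  have e4 : ∀ (c a b : ℝ), 0 ≤ a → a ≤ b →
      ((n : ℂ) + 2) * ∫ u in a..b, ((bernoulliFun (n + 1) θ - bernoulliFun (n + 1) (c - u) : ℝ) : ℂ) / (z + u) ^ (n + 3) =
      ((bernoulliFun (n + 1) θ : ℝ) : ℂ) * (1 / (z + a) ^ (n + 2) - 1 / (z + b) ^ (n + 2)) -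
      ((n : ℂ) + 2) * ∫ u in a..b, ((bernoulliFun (n + 1) (c - u) : ℝ) : ℂ) / (z + u) ^ (n + 3) := by
    intro c a b ha hab
    rw [← int_inv n ha hab hz hz0]
    have e5 : (fun u : ℝ => ((bernoulliFun (n + 1) θ - bernoulliFun (n + 1) (c - u) : ℝ) : ℂ) / (z + u) ^ (n + 3)) =
        fun u : ℝ => ((bernoulliFun (n + 1) θ : ℝ) : ℂ) * (1 / (z + u) ^ (n + 3)) -
          ((bernoulliFun (n + 1) (c - u) : ℝ) : ℂ) / (z + u) ^ (n + 3) := by
      funext u
      push_cast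
      ring
    rw [e5, intervalIntegral.integral_sub (hc2 a b ha hab) (hc c a b ha hab),
      intervalIntegral.integral_const_mul]
    ring
  have e6 := e4 θ 0 θ le_rfl h0
  have e7 := e4 (θ + 1) θ 1 h0 h1
  unfold WI GN
  have e8 : n + 1 + 2 = n + 3 := by ring
  rw [e8]
  rw [ofReal_zero, add_zero] at e6
  rw [ofReal_one] at e7
  linear_combination e6 + e7

end

end Pool.Agent.R305.SK
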