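import Pool.Agent.R305.SK.Ker

set_option autoImplicit false

/-! Bounds for the kernel function, its sign, and the identity for the sum of two kernels. -/

namespace Pool.Agent.R305.SK

open MeasureTheory Finset Complex Filter Topology Set

noncomputable section

lemma norm_zu {z : ℂ} (hz : 0 ≤ z.re) {u : ℝ} (hu : 0 ≤ u) : ‖z‖ ≤ ‖z + u‖ := by
  rw [← sq_le_sq₀ (norm_nonneg _) (norm_nonneg _), Complex.sq_norm, Complex.sq_norm,
    Complex.normSq_apply, Complex.normSq_apply]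
  simp only [add_re, ofReal_re, add_im, ofReal_im, add_zero]
  nlinarith

lemma bern_bdd (k : ℕ) : ∃ B : ℝ, 0 ≤ B ∧ ∀ x ∈ Icc (0:ℝ) 1, |bernoulliFun k x| ≤ B := by
  obtain ⟨C, hC⟩ := (isCompact_Icc (a := (0:ℝ)) (b := 1)).exists_bound_of_continuousOn
    (continuous_bernoulliFun k).continuousOn
  exact ⟨max C 0, le_max_right _ _, fun x hx => (hC x hx).trans (le_max_left _ _)⟩

lemma piece_bd {B : ℝ} (n : ℕ) {z : ℂ} (hz : 0 ≤ z.re) (hz0 : z ≠ 0) {a b : ℝ}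
    (ha : 0 ≤ a) (hab : a ≤ b) (hb : b ≤ 1) (w : ℝ → ℝ) (hw : ∀ u ∈ Icc a b, |w u| ≤ B) (hB : 0 ≤ B) :
    ‖∫ u in a..b, ((w u : ℝ) : ℂ) / (z + u) ^ (n + 3)‖ ≤ B / ‖z‖ ^ (n + 3) := by
  have hz1 : 0 < ‖z‖ := norm_pos_iff.2 hz0
  have h := intervalIntegral.norm_integral_le_of_norm_le_const (a := a) (b := b)
    (C := B / ‖z‖ ^ (n + 3)) (f := fun u : ℝ => ((w u : ℝ) : ℂ) / (z + u) ^ (n + 3)) (by
      intro u hu
      rw [Set.uIoc_of_le hab] at hu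
      have hu' : u ∈ Icc a b := ⟨hu.1.le, hu.2⟩
      rw [norm_div, norm_pow, Complex.norm_real, Real.norm_eq_abs]
      have h1 := norm_zu hz (ha.trans hu'.1)
      gcongr
      exact hw u hu')
  refine h.trans ?_
  have h2 : |b - a| ≤ 1 := by rw [abs_of_nonneg (by linarith)]; linarith
  calc B / ‖z‖ ^ (n + 3) * |b - a| ≤ B / ‖z‖ ^ (n + 3) * 1 := by gcongr
    _ = _ := mul_one _

lemma PS_bd {θ : ℝ} (h0 : 0 ≤ θ) (h1 : θ ≤ 1) {n : ℕ} (hn : Even n) :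
    ∃ C : ℝ, 0 ≤ C ∧ ∀ z : ℂ, 0 ≤ z.re → z ≠ 0 → ‖PS θ n z‖ ≤ C / ‖z‖ ^ (n + 3) := by
  obtain ⟨B, hB, hb⟩ := bern_bdd (n + 1)
  refine ⟨((n : ℝ) + 2) * (4 * B), by positivity, fun z hz hz0 => ?_⟩
  rw [PS_eq h0 h1 hn hz hz0, norm_mul]
  have e1 : ‖-((n : ℂ) + 2)‖ = (n : ℝ) + 2 := by
    rw [norm_neg]
    have : ((n : ℂ) + 2) = (((n : ℝ) + 2 : ℝ) : ℂ) := by push_cast; ring
    rw [this, Complex.norm_real, Real.norm_of_nonneg (by positivity)]
  rw [e1, mul_div_assoc]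
  apply mul_le_mul_of_nonneg_left _ (by positivity)
  unfold WI
  refine (norm_add_le _ _).trans ?_
  have h2 := piece_bd (B := 2 * B) n hz hz0 le_rfl h0 h1
    (fun u => bernoulliFun (n + 1) θ - bernoulliFun (n + 1) (θ - u)) (by
      intro u hu
      have a1 := abs_le.1 (hb θ ⟨h0, h1⟩)
      have a2 := abs_le.1 (hb (θ - u) ⟨by linarith [hu.2], by linarith [hu.1]⟩)
      rw [abs_le]
      constructor <;> linarith [a1.1, a1.2, a2.1, a2.2]) (by positivity)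
  have h3 := piece_bd (B := 2 * B) n hz hz0 h0 h1 le_rfl
    (fun u => bernoulliFun (n + 1) θ - bernoulliFun (n + 1) (θ + 1 - u)) (by
      intro u hu
      have a1 := abs_le.1 (hb θ ⟨h0, h1⟩)
      have a2 := abs_le.1 (hb (θ + 1 - u) ⟨by linarith [hu.2], by linarith [hu.1]⟩)
      rw [abs_le]
      constructor <;> linarith [a1.1, a1.2, a2.1, a2.2]) (by positivity)
  refine (add_le_add h2 h3).trans (le_of_eq ?_)
  ring

/-- sum of `1 / (R + k) ^ 2` -/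
lemma sum_sq {R : ℝ} (hR : 1 ≤ R) : Summable (fun k : ℕ => 1 / (R + k) ^ 2) ∧
    ∑' k : ℕ, 1 / (R + k) ^ 2 ≤ 2 / R := by
  have hs : Summable (fun k : ℕ => 1 / (R + k) ^ 2) := by
    refine (summ_sq (c := R) (by linarith)).congr fun k => ?_
    rw [add_comm]
  refine ⟨hs, ?_⟩
  refine hs.tsum_le_of_sum_range_le fun K => ?_
  have h : ∑ k ∈ range K, 1 / (R + k) ^ 2 ≤ 2 * (1 / R - 1 / (R + K)) := by
    induction K with
    | zero => simp
    | succ K ih =>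
      rw [Finset.sum_range_succ]
      have h1 : (1:ℝ) ≤ R + K := by
        have : (0:ℝ) ≤ K := Nat.cast_nonneg K
        linarith
      have h2 : 1 / (R + K) ^ 2 ≤ 2 * (1 / (R + K) - 1 / (R + (K + 1 : ℕ))) := by
        push_cast
        rw [← add_assoc]
        obtain ⟨x, hx⟩ : ∃ x : ℝ, x = R + K := ⟨_, rfl⟩
        rw [← hx] at h1 ⊢
        have e : 1 / x - 1 / (x + 1) = 1 / (x * (x + 1)) := by field_simp; ring
        rw [e, mul_one_div, div_le_div_iff₀ (by positivity) (by positivity)]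
        nlinarith
      linarith
  have h3 : 0 ≤ 1 / (R + K) := by positivity
  have h4 : 2 / R = 2 * (1 / R) := by ring
  rw [h4]
  linarith

lemma norm_sq_zk {z : ℂ} (hz : 0 ≤ z.re) (k : ℕ) : (‖z‖ + k) ^ 2 ≤ 2 * ‖z + k‖ ^ 2 := by
  have h1 : ‖z‖ ^ 2 + (k : ℝ) ^ 2 ≤ ‖z + k‖ ^ 2 := by
    rw [Complex.sq_norm, Complex.sq_norm, Complex.normSq_apply, Complex.normSq_apply]
    simp only [add_re, natCast_re, add_im, natCast_im, add_zero]
    have : (0:ℝ) ≤ k := Nat.cast_nonneg k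
    nlinarith
  nlinarith [sq_nonneg (‖z‖ - k)]

lemma zk_re {z : ℂ} (hz : 0 ≤ z.re) (k : ℕ) : 0 ≤ (z + k).re := by
  simp only [add_re, natCast_re]
  positivity

lemma zk_ne {z : ℂ} (hz : 0 ≤ z.re) (hz0 : z ≠ 0) (k : ℕ) : z + k ≠ 0 := by
  have := zu_ne hz hz0 (u := (k : ℝ)) (Nat.cast_nonneg k)
  simpa using this

lemma PS_summ {θ : ℝ} (h0 : 0 ≤ θ) (h1 : θ ≤ 1) {n : ℕ} (hn : Even n) :
    ∃ C : ℝ, 0 ≤ C ∧ ∀ z : ℂ, 0 ≤ z.re → 1 ≤ ‖z‖ → (Summable fun k : ℕ => PS θ n (z + k)) ∧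
      ‖∑' k : ℕ, PS θ n (z + k)‖ ≤ C / ‖z‖ ^ (n + 2) := by
  obtain ⟨C, hC, h⟩ := PS_bd h0 h1 hn
  refine ⟨4 * C, by positivity, fun z hz hz1 => ?_⟩
  have hz0 : z ≠ 0 := by
    rintro rfl
    rw [norm_zero] at hz1
    linarith
  have hb : ∀ k : ℕ, ‖PS θ n (z + k)‖ ≤ (2 * C / ‖z‖ ^ (n + 1)) * (1 / (‖z‖ + k) ^ 2) := by
    intro k
    refine (h (z + k) (zk_re hz k) (zk_ne hz hz0 k)).trans ?_
    have h2 : ‖z‖ ≤ ‖z + k‖ := by
      have := norm_zu hz (u := (k : ℝ)) (Nat.cast_nonneg k)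
      simpa using this
    have h3 := norm_sq_zk hz k
    have h4 : 0 < ‖z + k‖ := norm_pos_iff.2 (zk_ne hz hz0 k)
    have h5 : 0 < ‖z‖ := by linarith
    have h6 : 0 < ‖z‖ + k := by positivity
    have e1 : ‖z + k‖ ^ (n + 3) = ‖z + k‖ ^ (n + 1) * ‖z + k‖ ^ 2 := by rw [← pow_add]
    rw [e1]
    have h7 : ‖z‖ ^ (n + 1) ≤ ‖z + k‖ ^ (n + 1) := by gcongr
    have e2 : (2 * C / ‖z‖ ^ (n + 1)) * (1 / (‖z‖ + k) ^ 2) = C / (‖z‖ ^ (n + 1) * ((‖z‖ + k) ^ 2 / 2)) := by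
      field_simp
    rw [e2]
    apply div_le_div_of_nonneg_left hC (by positivity)
    apply mul_le_mul h7 (by linarith) (by positivity) (by positivity)
  obtain ⟨h8, h9⟩ := sum_sq hz1
  refine ⟨Summable.of_norm_bounded (h8.mul_left _) hb, ?_⟩
  refine (tsum_of_norm_bounded (h8.mul_left _).hasSum hb).trans ?_
  rw [tsum_mul_left]
  have h5 : 0 < ‖z‖ := by linarith
  calc 2 * C / ‖z‖ ^ (n + 1) * ∑' k : ℕ, 1 / (‖z‖ + k) ^ 2 ≤ 2 * C / ‖z‖ ^ (n + 1) * (2 / ‖z‖) := by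
        gcongr
    _ = 4 * C / ‖z‖ ^ (n + 2) := by
        rw [pow_succ _ (n + 1)]
        field_simp
        ring

/-- summability of the differences for every `z ≠ 0` in the closed right half-plane -/
lemma PS_summ' {θ : ℝ} (h0 : 0 ≤ θ) (h1 : θ ≤ 1) {n : ℕ} (hn : Even n) {z : ℂ} (hz : 0 ≤ z.re) :
    Summable fun k : ℕ => PS θ n (z + k) := by
  obtain ⟨C, hC, h⟩ := PS_summ h0 h1 hn
  have hz1 : 1 ≤ ‖z + 1‖ := by
    have := Complex.re_le_norm (z + 1)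
    simp only [add_re, one_re] at this
    linarith
  have h2 := (h (z + 1) (by simp only [add_re, one_re]; linarith) hz1).1
  rw [← summable_nat_add_iff 1]
  refine h2.congr fun k => ?_
  push_cast
  congr 1
  ring

/-- the kernel as a sum of differences -/
lemma KK_eq {θ : ℝ} (h0 : 0 < θ) (h1 : θ ≤ 1) {n : ℕ} (hn : Even n) (hB : bernoulliFun n θ = 0)
    {z : ℂ} (hz : 0 ≤ z.re) (hz0 : z ≠ 0) : KK θ n z = z ^ n * ∑' k : ℕ, PS θ n (z + k) := by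
  have hs1 := PS_summ' h0.le h1 hn hz
  have hs2 : Summable fun k : ℕ => 1 / (z + k + θ) ^ 2 := summ_term (by linarith)
  have ht1 := hs1.hasSum.tendsto_sum_nat
  have ht2 := hs2.hasSum.tendsto_sum_nat
  have ht3 : Tendsto (fun K : ℕ => ∑ j ∈ range (n + 1), (-1 : ℂ) ^ j * ((bernoulliFun j θ : ℝ) : ℂ) *
        (1 / z ^ (j + 1) - 1 / (z + K) ^ (j + 1))) atTop
      (𝓝 (∑ j ∈ range (n + 1), (-1 : ℂ) ^ j * ((bernoulliFun j θ : ℝ) : ℂ) * (1 / z ^ (j + 1) - 0))) := by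
    apply tendsto_finset_sum
    intro j _
    exact ((inv_tendsto j).const_sub _).const_mul _
  have ht4 := ht2.sub ht3
  have e : (fun K : ℕ => ∑ k ∈ range K, PS θ n (z + k)) = fun K : ℕ => ∑ k ∈ range K, 1 / (z + k + θ) ^ 2 -
      ∑ j ∈ range (n + 1), (-1 : ℂ) ^ j * ((bernoulliFun j θ : ℝ) : ℂ) *
        (1 / z ^ (j + 1) - 1 / (z + K) ^ (j + 1)) := funext fun K => partial_sum θ n z K
  rw [e] at ht1
  rw [tendsto_nhds_unique ht1 ht4]
  unfold KK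
  rw [mul_sub]
  congr 1
  rw [Finset.sum_range_succ, hB, ofReal_zero, mul_zero, zero_mul, add_zero, Finset.mul_sum]
  refine Finset.sum_congr rfl fun j hj => ?_
  rw [Finset.mem_range] at hj
  have e2 : z ^ n = z ^ (n - 1 - j) * z ^ (j + 1) := by
    rw [← pow_add]
    congr 1
    omega
  rw [e2]
  have h3 : z ^ (j + 1) ≠ 0 := pow_ne_zero _ hz0
  field_simp
  ring

/-- decay of the kernel function in the right half-plane -/
lemma KK_bd {θ : ℝ} (h0 : 0 < θ) (h1 : θ ≤ 1) {n : ℕ} (hn : Even n) (hB : bernoulliFun n θ = 0) :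
    ∃ C : ℝ, 0 ≤ C ∧ ∀ z : ℂ, 0 ≤ z.re → ‖KK θ n z‖ ≤ C / (1 + ‖z‖ ^ 2) := by
  obtain ⟨C, hC, h⟩ := PS_summ h0.le h1 hn
  have hK : IsCompact ({z : ℂ | 0 ≤ z.re} ∩ Metric.closedBall (0:ℂ) 1) :=
    (isCompact_closedBall (0:ℂ) 1).inter_left (isClosed_le continuous_const Complex.continuous_re)
  obtain ⟨M, hM⟩ := hK.exists_bound_of_continuousOn (f := KK θ n)
    ((KK_diff θ n).continuousOn.mono (fun z hz => by
      have h2 : 0 ≤ z.re := hz.1
      show -θ < z.re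
      linarith))
  refine ⟨max (2 * M) (2 * C), le_max_of_le_right (by positivity), fun z hz => ?_⟩
  rcases le_or_gt 1 ‖z‖ with hz1 | hz1
  · have hz0 : z ≠ 0 := by
      rintro rfl
      rw [norm_zero] at hz1
      linarith
    rw [KK_eq h0 h1 hn hB hz hz0, norm_mul, norm_pow]
    have h2 := (h z hz hz1).2
    have h3 : 0 < ‖z‖ := by linarith
    calc ‖z‖ ^ n * ‖∑' k : ℕ, PS θ n (z + k)‖ ≤ ‖z‖ ^ n * (C / ‖z‖ ^ (n + 2)) := by gcongr
      _ = C / ‖z‖ ^ 2 := by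
          rw [pow_add]
          field_simp
      _ = 2 * C / (2 * ‖z‖ ^ 2) := by field_simp
      _ ≤ 2 * C / (1 + ‖z‖ ^ 2) := by
          apply div_le_div_of_nonneg_left (by positivity) (by positivity)
          nlinarith
      _ ≤ _ := by
          gcongr
          exact le_max_right _ _
  · have h2 := hM z ⟨hz, by rw [Metric.mem_closedBall, dist_zero_right]; exact hz1.le⟩
    have hM0 : 0 ≤ M := (norm_nonneg _).trans h2
    calc ‖KK θ n z‖ ≤ M := h2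
      _ = 2 * M / 2 := by ring
      _ ≤ 2 * M / (1 + ‖z‖ ^ 2) := by
          apply div_le_div_of_nonneg_left (by positivity) (by positivity)
          nlinarith [norm_nonneg z]
      _ ≤ _ := by
          gcongr
          exact le_max_left _ _

/-- the sign of the difference on the positive half-line -/
lemma PS_sign {θ : ℝ} (h0 : 0 ≤ θ) (h1 : θ ≤ 1) {n : ℕ} (hn : Even n) {ε : ℝ}
    (hε : ∀ v ∈ Icc (0:ℝ) 1, ε * bernoulliFun (n + 1) v ≤ ε * bernoulliFun (n + 1) θ) {x : ℝ} (hx : 0 < x) :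
    ∃ r : ℝ, 0 ≤ r ∧ (ε : ℂ) * PS θ n (x : ℂ) = ((-r : ℝ) : ℂ) := by
  have hz : (0:ℝ) ≤ ((x : ℂ)).re := by simpa using hx.le
  have hz0 : (x : ℂ) ≠ 0 := by exact_mod_cast hx.ne'
  rw [PS_eq h0 h1 hn hz hz0]
  refine ⟨((n : ℝ) + 2) * ((∫ u in (0:ℝ)..θ, (ε * (bernoulliFun (n + 1) θ - bernoulliFun (n + 1) (θ - u))) / (x + u) ^ (n + 3)) +
    ∫ u in θ..1, (ε * (bernoulliFun (n + 1) θ - bernoulliFun (n + 1) (θ + 1 - u))) / (x + u) ^ (n + 3)), ?_, ?_⟩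
  · apply mul_nonneg (by positivity)
    apply add_nonneg
    · apply intervalIntegral.integral_nonneg h0
      intro u hu
      have h3 := hε (θ - u) ⟨by linarith [hu.2], by linarith [hu.1]⟩
      have h4 : 0 < x + u := by linarith [hu.1]
      apply div_nonneg _ (by positivity)
      rw [mul_sub]
      linarith
    · apply intervalIntegral.integral_nonneg h1
      intro u hu
      have h3 := hε (θ + 1 - u) ⟨by linarith [hu.2], by linarith [hu.1]⟩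
      have h4 : 0 < x + u := by linarith [hu.1]
      apply div_nonneg _ (by positivity)
      rw [mul_sub]
      linarith
  · unfold WI
    have e1 : ∀ (a b c : ℝ), ((∫ u in a..b, ((ε * (bernoulliFun (n + 1) θ - bernoulliFun (n + 1) (c - u))) / (x + u) ^ (n + 3)) : ℝ) : ℂ) =
        (ε : ℂ) * ∫ u in a..b, ((bernoulliFun (n + 1) θ - bernoulliFun (n + 1) (c - u) : ℝ) : ℂ) / ((x : ℂ) + u) ^ (n + 3) := by
      intro a b c
      rw [← intervalIntegral.integral_ofReal, ← intervalIntegral.integral_const_mul]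
      congr 1
      funext u
      push_cast
      ring
    simp only [ofReal_neg, ofReal_mul (((n : ℝ) + 2)), ofReal_add]
    rw [e1 0 θ θ, e1 θ 1 (θ + 1)]
    push_cast
    ring

/-- the sign of the kernel -/
lemma KK_sign {θ : ℝ} (h0 : 0 < θ) (h1 : θ ≤ 1) {n : ℕ} (hn : Even n) (hB : bernoulliFun n θ = 0) {ε : ℝ}
    (hε : ∀ v ∈ Icc (0:ℝ) 1, ε * bernoulliFun (n + 1) v ≤ ε * bernoulliFun (n + 1) θ) {x : ℝ} (hx : 0 < x) :
    ∃ r : ℝ, 0 ≤ r ∧ (ε : ℂ) * KK θ n (x : ℂ) = ((-r : ℝ) : ℂ) := by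
  have hz : (0:ℝ) ≤ ((x : ℂ)).re := by simpa using hx.le
  have hz0 : (x : ℂ) ≠ 0 := by exact_mod_cast hx.ne'
  rw [KK_eq h0 h1 hn hB hz hz0]
  have h : ∀ k : ℕ, ∃ r : ℝ, 0 ≤ r ∧ (ε : ℂ) * PS θ n ((x : ℂ) + k) = ((-r : ℝ) : ℂ) := by
    intro k
    have := PS_sign h0.le h1 hn hε (x := x + k) (by positivity)
    push_cast at this
    simpa using this
  choose r hr0 hr using h
  refine ⟨x ^ n * ∑' k, r k, mul_nonneg (by positivity) (tsum_nonneg hr0), ?_⟩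
  have e : (ε : ℂ) * (((x : ℂ)) ^ n * ∑' k : ℕ, PS θ n ((x : ℂ) + k)) =
      (x : ℂ) ^ n * ∑' k : ℕ, (ε : ℂ) * PS θ n ((x : ℂ) + k) := by
    rw [tsum_mul_left]
    ring
  rw [e]
  simp only [hr]
  push_cast
  rw [tsum_neg]
  ring

end

end Pool.Agent.R305.SK
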