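import Pool.Agent.R305.SK.Ker2

set_option autoImplicit false

/-! The identity for the sum of two kernels; the two-sided kernel. -/

namespace Pool.Agent.R305.SK

open MeasureTheory Finset Complex Filter Topology Set

noncomputable section

lemma sum_Z {w : ℂ} (hw : 0 < w.im) :
    Complex.sin (Real.pi * w) ^ 2 * (∑' m : ℤ, 1 / (w + m) ^ 2) = (Real.pi : ℂ) ^ 2 := by
  have h := EisensteinSeries.qExpansion_identity (k := 1) le_rfl ⟨w, hw⟩
  have e0 : ((⟨w, hw⟩ : UpperHalfPlane) : ℂ) = w := rfl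
  rw [e0] at h
  simp only [Nat.factorial_one, Nat.cast_one, div_one, pow_one] at h
  norm_num at h
  obtain ⟨q, hq⟩ : ∃ q : ℂ, q = cexp (2 * Real.pi * I * w) := ⟨_, rfl⟩
  rw [← hq] at h
  have hq1 : ‖q‖ < 1 := by
    rw [hq, Complex.norm_exp]
    have : (2 * Real.pi * I * w).re = -(2 * Real.pi * w.im) := by
      simp [mul_assoc]
    rw [this]
    rw [Real.exp_lt_one_iff]
    have := Real.pi_pos
    have : 0 < 2 * Real.pi * w.im := by positivity
    linarith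
  have h2 := tsum_coe_mul_geometric_of_norm_lt_one hq1
  rw [h2] at h
  have e2 : (∑' m : ℤ, 1 / (w + m) ^ 2) = ∑' m : ℤ, ((w + m) ^ 2)⁻¹ := by
    congr 1
    funext m
    rw [one_div]
  rw [e2, h]
  have hE : cexp (Real.pi * w * I) ≠ 0 := Complex.exp_ne_zero _
  have hqE : q = cexp (Real.pi * w * I) ^ 2 := by
    rw [hq, ← Complex.exp_nat_mul]
    congr 1
    push_cast
    ring
  have hsin : Complex.sin (Real.pi * w) = (cexp (-(Real.pi * w * I)) - cexp (Real.pi * w * I)) * I / 2 := by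
    rw [Complex.sin]
    ring_nf
  have hE' : cexp (-(Real.pi * w * I)) = (cexp (Real.pi * w * I))⁻¹ := Complex.exp_neg _
  have hne : (1 - q) ≠ 0 := by
    intro h0
    have : q = 1 := by linear_combination -h0
    rw [this, norm_one] at hq1
    exact lt_irrefl _ hq1
  rw [hsin, hE', hqE]
  rw [hqE] at hne
  obtain ⟨E, hEd⟩ : ∃ E : ℂ, E = cexp (Real.pi * w * I) := ⟨_, rfl⟩
  rw [← hEd] at hE hne ⊢
  field_simp
  exact I_pow_four

lemma poly_cancel (θ : ℝ) {n : ℕ} (hn : Even n) (z : ℂ) :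
    ∑ j ∈ range n, (-1 : ℂ) ^ j * ((bernoulliFun j θ : ℝ) : ℂ) * z ^ (n - 1 - j) +
      ∑ j ∈ range n, (-1 : ℂ) ^ j * ((bernoulliFun j (1 - θ) : ℝ) : ℂ) * (-z) ^ (n - 1 - j) = 0 := by
  rw [← Finset.sum_add_distrib]
  refine Finset.sum_eq_zero fun j hj => ?_
  rw [Finset.mem_range] at hj
  rw [bernoulliFun_eval_one_sub, neg_pow z]
  push_cast
  have e1 : (-1 : ℂ) ^ (n - 1 - j) = -(-1) ^ j := by
    have h1 : (-1 : ℂ) ^ (n - 1 - j) * (-1) ^ (j + 1) = 1 := by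
      rw [← pow_add]
      have : n - 1 - j + (j + 1) = n := by omega
      rw [this, hn.neg_one_pow]
    have h2 : (-1 : ℂ) ^ (j + 1) * (-1) ^ (j + 1) = 1 := by
      rw [← mul_pow]; norm_num
    have h3 : (-1 : ℂ) ^ (n - 1 - j) = (-1) ^ (j + 1) := by
      calc (-1 : ℂ) ^ (n - 1 - j) = (-1 : ℂ) ^ (n - 1 - j) * ((-1) ^ (j + 1) * (-1) ^ (j + 1)) := by rw [h2, mul_one]
        _ = ((-1 : ℂ) ^ (n - 1 - j) * (-1) ^ (j + 1)) * (-1) ^ (j + 1) := by ring
        _ = (-1) ^ (j + 1) := by rw [h1, one_mul]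
    rw [h3, pow_succ]
    ring
  rw [e1]
  have h4 : (-1 : ℂ) ^ j * (-1) ^ j = 1 := by rw [← mul_pow]; norm_num
  linear_combination (-(-1 : ℂ) ^ j * ((bernoulliFun j θ : ℝ) : ℂ) * z ^ (n - 1 - j)) * h4

/-- the identity between the two kernels -/
lemma KK_add {θ : ℝ} {n : ℕ} (hn : Even n) {z : ℂ} (hz : 0 < z.im)
    (h1 : -θ < z.re) (h2 : z.re < 1 - θ) :
    Complex.sin (Real.pi * (z + θ)) ^ 2 * (KK θ n z + KK (1 - θ) n (-z)) =
      (Real.pi : ℂ) ^ 2 * z ^ n := by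
  have hs1 : Summable fun k : ℕ => 1 / (z + k + θ) ^ 2 := summ_term h1
  have hs2 : Summable fun k : ℕ => 1 / (-z + k + ((1 - θ : ℝ) : ℂ)) ^ 2 := summ_term (by simp; linarith)
  have hw : 0 < (z + θ).im := by simpa using hz
  have key := sum_Z hw
  have e1 : (∑' m : ℤ, 1 / (z + θ + m) ^ 2) = (∑' k : ℕ, 1 / (z + k + θ) ^ 2) +
      ∑' k : ℕ, 1 / (-z + k + ((1 - θ : ℝ) : ℂ)) ^ 2 := by
    have e2 : ∀ k : ℕ, 1 / (z + θ + ((k : ℤ) : ℂ)) ^ 2 = 1 / (z + k + θ) ^ 2 := by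
      intro k
      push_cast
      congr 2
      ring
    have e3 : ∀ k : ℕ, 1 / (z + θ + ((-((k : ℤ) + 1) : ℤ) : ℂ)) ^ 2 = 1 / (-z + k + ((1 - θ : ℝ) : ℂ)) ^ 2 := by
      intro k
      push_cast
      congr 1
      ring
    have h3 := tsum_of_nat_of_neg_add_one (f := fun m : ℤ => 1 / (z + θ + m) ^ 2)
      (hs1.congr fun k => (e2 k).symm) (hs2.congr fun k => (e3 k).symm)
    rw [h3]
    congr 1
    · exact tsum_congr e2
    · exact tsum_congr e3
  rw [e1] at key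
  have hp := poly_cancel θ hn z
  have hzn : (-z) ^ n = z ^ n := hn.neg_pow z
  unfold KK
  rw [hzn]
  linear_combination (z ^ n) * key - (Complex.sin (Real.pi * (z + θ)) ^ 2) * hp

end

end Pool.Agent.R305.SK
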