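import Pool.Agent.R305.SK.Z2

set_option autoImplicit false

/-! Iterated horizontal integrals of the logarithmic derivative in the quarter plane. -/

namespace Pool.Agent.R305.SK

open MeasureTheory Complex Filter Topology Set

noncomputable section

/-- the quarter plane -/
def DD : Set ℂ := {s | 1/2 < s.re ∧ 0 < s.im}

lemma DD_open : IsOpen DD :=
  (isOpen_lt continuous_const Complex.continuous_re).inter (isOpen_lt continuous_const Complex.continuous_im)

/-- iterated horizontal integrals -/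
def LL : ℕ → ℂ → ℂ
  | 0 => fun s => -ZZ s
  | (k + 1) => fun s => ∫ u in Ioi (0:ℝ), LL k (s + u)

def Adm (f : ℂ → ℂ) : Prop := (∀ s ∈ DD, DifferentiableAt ℂ f s) ∧
  ∀ a t1 t2 : ℝ, 1/2 < a → 0 < t1 → ∃ C : ℝ, 0 ≤ C ∧ ∀ s : ℂ, a ≤ s.re → t1 ≤ s.im → s.im ≤ t2 →
    ‖f s‖ ≤ C * Real.exp (-(s.re / 2))

lemma exp_int (c : ℝ) : IntegrableOn (fun u : ℝ => Real.exp (-((c + u) / 2))) (Ioi 0) ∧
    ∫ u in Ioi (0:ℝ), Real.exp (-((c + u) / 2)) = 2 * Real.exp (-(c / 2)) := by
  have e : (fun u : ℝ => Real.exp (-((c + u) / 2))) = fun u : ℝ => Real.exp (-(c / 2)) * Real.exp (-(1/2) * u) := by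
    funext u
    rw [← Real.exp_add]
    congr 1
    ring
  rw [e]
  constructor
  · exact (integrableOn_exp_mul_Ioi (by norm_num) 0).const_mul _
  · rw [integral_const_mul, integral_exp_mul_Ioi (by norm_num)]
    simp
    ring

lemma mem_shift {s : ℂ} (hs : s ∈ DD) {u : ℝ} (hu : 0 ≤ u) : s + u ∈ DD := by
  refine ⟨?_, ?_⟩
  · simp only [add_re, ofReal_re]; linarith [hs.1]
  · simp only [add_im, ofReal_im, add_zero]; exact hs.2

lemma Adm.hbd {f : ℂ → ℂ} (h : Adm f) {s : ℂ} (hs : s ∈ DD) : ∃ C : ℝ, 0 ≤ C ∧ ∀ u : ℝ, 0 ≤ u →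
    ‖f (s + u)‖ ≤ C * Real.exp (-((s.re + u) / 2)) := by
  obtain ⟨C, hC, h2⟩ := h.2 s.re s.im s.im hs.1 hs.2
  refine ⟨C, hC, fun u hu => ?_⟩
  have := h2 (s + u) (by simp; exact hu) (by simp) (by simp)
  simpa using this

lemma Adm.cont {f : ℂ → ℂ} (h : Adm f) {s : ℂ} (hs : s ∈ DD) : ContinuousOn (fun u : ℝ => f (s + u)) (Ici 0) := by
  intro u hu
  have h1 := h.1 (s + u) (mem_shift hs hu)
  exact (ContinuousAt.comp (f := fun u : ℝ => s + u) h1.continuousAt (by fun_prop)).continuousWithinAt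

lemma Adm.int {f : ℂ → ℂ} (h : Adm f) {s : ℂ} (hs : s ∈ DD) : IntegrableOn (fun u : ℝ => f (s + u)) (Ioi 0) := by
  obtain ⟨C, hC, h2⟩ := h.hbd hs
  refine Integrable.mono' ((exp_int s.re).1.const_mul C) ?_ ?_
  · exact ((h.cont hs).mono Ioi_subset_Ici_self).aestronglyMeasurable measurableSet_Ioi
  · exact (ae_restrict_mem measurableSet_Ioi).mono fun u hu => h2 u (le_of_lt hu)

lemma Adm.tend {f : ℂ → ℂ} (h : Adm f) {s : ℂ} (hs : s ∈ DD) : Tendsto (fun u : ℝ => f (s + u)) atTop (𝓝 0) := by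
  obtain ⟨C, hC, h2⟩ := h.hbd hs
  rw [tendsto_zero_iff_norm_tendsto_zero]
  have h3 : Tendsto (fun u : ℝ => C * Real.exp (-((s.re + u) / 2))) atTop (𝓝 0) := by
    have h4 : Tendsto (fun u : ℝ => -((s.re + u) / 2)) atTop atBot := by
      apply tendsto_neg_atTop_atBot.comp
      apply Tendsto.atTop_div_const (by norm_num)
      exact tendsto_atTop_add_const_left _ _ tendsto_id
    simpa using (Real.tendsto_exp_atBot.comp h4).const_mul C
  refine squeeze_zero' (Eventually.of_forall fun u => norm_nonneg _) ?_ h3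
  filter_upwards [eventually_ge_atTop (0:ℝ)] with u hu
  exact h2 u hu

/-- one step -/
lemma Adm.step {f : ℂ → ℂ} (h : Adm f) {s : ℂ} (hs : s ∈ DD) :
    HasDerivAt (fun s : ℂ => ∫ u in Ioi (0:ℝ), f (s + u)) (-f s) s := by
  obtain ⟨ρ, hρ⟩ : ∃ ρ : ℝ, ρ = min (s.re - 1/2) s.im / 3 := ⟨_, rfl⟩
  have hmin : 0 < min (s.re - 1/2) s.im := lt_min (by linarith [hs.1]) hs.2
  have hρ0 : 0 < ρ := by rw [hρ]; positivity
  have hρ1 : 3 * ρ ≤ s.re - 1/2 := by rw [hρ]; linarith [min_le_left (s.re - 1/2) s.im]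
  have hρ2 : 3 * ρ ≤ s.im := by rw [hρ]; linarith [min_le_right (s.re - 1/2) s.im]
  obtain ⟨C, hC, hb⟩ := h.2 (s.re - 2 * ρ) (s.im - 2 * ρ) (s.im + 2 * ρ) (by linarith) (by linarith)
  have hnear : ∀ w ∈ Metric.ball s ρ, w ∈ DD := by
    intro w hw
    rw [mem_ball_iff_norm] at hw
    have h1 := abs_lt.1 ((Complex.abs_re_le_norm (w - s)).trans_lt hw)
    have h2 := abs_lt.1 ((Complex.abs_im_le_norm (w - s)).trans_lt hw)
    simp only [sub_re, sub_im] at h1 h2
    exact ⟨by linarith [h1.1], by linarith [h2.1]⟩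
  have hder : ∀ w ∈ Metric.ball s ρ, ∀ u : ℝ, 0 ≤ u →
      ‖deriv f (w + u)‖ ≤ (C / ρ) * Real.exp (-((s.re - 2 * ρ + u) / 2)) := by
    intro w hw u hu
    have hw' := hw
    rw [mem_ball_iff_norm] at hw
    have h1 := abs_lt.1 ((Complex.abs_re_le_norm (w - s)).trans_lt hw)
    have h2 := abs_lt.1 ((Complex.abs_im_le_norm (w - s)).trans_lt hw)
    simp only [sub_re, sub_im] at h1 h2
    have hcl : ∀ z ∈ Metric.closedBall (w + u) ρ, s.re - 2 * ρ + u ≤ z.re ∧ s.im - 2 * ρ ≤ z.im ∧ z.im ≤ s.im + 2 * ρ := by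
      intro z hz
      rw [mem_closedBall_iff_norm] at hz
      have h3 := abs_le.1 ((Complex.abs_re_le_norm (z - (w + u))).trans hz)
      have h4 := abs_le.1 ((Complex.abs_im_le_norm (z - (w + u))).trans hz)
      simp only [sub_re, sub_im, add_re, add_im, ofReal_re, ofReal_im, add_zero] at h3 h4
      exact ⟨by linarith [h3.1], by linarith [h4.1], by linarith [h4.2]⟩
    have hd : DiffContOnCl ℂ f (Metric.ball (w + u) ρ) := by
      apply DifferentiableOn.diffContOnCl
      rw [closure_ball _ hρ0.ne']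
      intro z hz
      obtain ⟨h5, h6, h7⟩ := hcl z hz
      exact (h.1 z ⟨by linarith, by linarith⟩).differentiableWithinAt
    have h8 := Complex.norm_deriv_le_of_forall_mem_sphere_norm_le hρ0 hd
      (C := C * Real.exp (-((s.re - 2 * ρ + u) / 2))) (by
        intro z hz
        obtain ⟨h5, h6, h7⟩ := hcl z (Metric.sphere_subset_closedBall hz)
        refine (hb z (by linarith) h6 h7).trans ?_
        gcongr)
    calc _ ≤ _ := h8
      _ = _ := by ring
  have hfu : ∀ w ∈ DD, ∀ u : ℝ, 0 ≤ u → HasDerivAt (fun z : ℂ => f (z + u)) (deriv f (w + u)) w := by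
    intro w hw u hu
    have h1 := (h.1 (w + u) (mem_shift hw hu)).hasDerivAt
    exact HasDerivAt.comp_add_const w (u : ℂ) h1
  have hmeas : ∀ᶠ w in 𝓝 s, AEStronglyMeasurable (fun u : ℝ => f (w + u)) (volume.restrict (Ioi 0)) := by
    filter_upwards [DD_open.mem_nhds hs] with w hw
    exact ((h.cont hw).mono Ioi_subset_Ici_self).aestronglyMeasurable measurableSet_Ioi
  have hdc : ContinuousOn (fun u : ℝ => deriv f (s + u)) (Ici 0) := by
    intro u hu
    have hd : DifferentiableOn ℂ f DD := fun w hw => (h.1 w hw).differentiableWithinAt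
    have h1 : DifferentiableAt ℂ (deriv f) (s + u) :=
      (hd.analyticAt (DD_open.mem_nhds (mem_shift hs hu))).deriv.differentiableAt
    exact (ContinuousAt.comp (f := fun u : ℝ => s + u) h1.continuousAt (by fun_prop)).continuousWithinAt
  have hmain := hasDerivAt_integral_of_dominated_loc_of_deriv_le (μ := volume.restrict (Ioi (0:ℝ)))
    (F := fun (w : ℂ) (u : ℝ) => f (w + u)) (F' := fun (w : ℂ) (u : ℝ) => deriv f (w + u))
    (x₀ := s) (bound := fun u : ℝ => (C / ρ) * Real.exp (-((s.re - 2 * ρ + u) / 2)))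
    (Metric.ball_mem_nhds s hρ0) hmeas (h.int hs)
    ((hdc.mono Ioi_subset_Ici_self).aestronglyMeasurable measurableSet_Ioi)
    ((ae_restrict_mem measurableSet_Ioi).mono fun u hu w hw => hder w hw u (le_of_lt hu))
    ((exp_int _).1.const_mul _)
    ((ae_restrict_mem measurableSet_Ioi).mono fun u hu w hw => hfu w (hnear w hw) u (le_of_lt hu))
  have hval : ∫ u in Ioi (0:ℝ), deriv f (s + u) = 0 - f s := by
    have h1 := integral_Ioi_of_hasDerivAt_of_tendsto' (a := (0:ℝ)) (f := fun u : ℝ => f (s + u))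
      (f' := fun u : ℝ => deriv f (s + u)) (m := 0) (by
        intro u hu
        have h2 := (h.1 (s + u) (mem_shift hs hu)).hasDerivAt
        have h3 : HasDerivAt (fun u : ℝ => s + (u : ℂ)) 1 u := (Complex.ofRealCLM.hasDerivAt).const_add s
        have h5 := HasDerivAt.comp u h2 h3
        simp only [mul_one] at h5
        exact h5) hmain.1 (h.tend hs)
    simpa using h1
  have h9 := hmain.2
  rw [hval, zero_sub] at h9
  exact h9

lemma Adm.next {f : ℂ → ℂ} (h : Adm f) : Adm (fun s : ℂ => ∫ u in Ioi (0:ℝ), f (s + u)) := by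
  refine ⟨fun s hs => (h.step hs).differentiableAt, fun a t1 t2 ha ht1 => ?_⟩
  obtain ⟨C, hC, hb⟩ := h.2 a t1 t2 ha ht1
  refine ⟨2 * C, by positivity, fun s h1 h2 h3 => ?_⟩
  have hs : s ∈ DD := ⟨by linarith, by linarith⟩
  have h4 : ‖∫ u in Ioi (0:ℝ), f (s + u)‖ ≤ ∫ u in Ioi (0:ℝ), C * Real.exp (-((s.re + u) / 2)) := by
    refine norm_integral_le_of_norm_le ((exp_int s.re).1.const_mul C) ?_
    refine (ae_restrict_mem measurableSet_Ioi).mono fun u hu => ?_
    have hu' : (0:ℝ) < u := hu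
    have := hb (s + u) (by simp; linarith) (by simpa using h2) (by simpa using h3)
    simpa using this
  rw [integral_const_mul, (exp_int s.re).2] at h4
  linarith

lemma ZZ_diff (hRH : RiemannHypothesis) {s : ℂ} (hs : 1/2 < s.re) (h1 : s ≠ 1) : DifferentiableAt ℂ ZZ s := by
  unfold ZZ
  have hs1 : s - 1 ≠ 0 := sub_ne_zero.2 h1
  have h2 : DifferentiableAt ℂ (fun s : ℂ => (s - 1)⁻¹) s :=
    (((hasDerivAt_id s).sub_const 1).inv hs1).differentiableAt
  simp only [one_div]
  exact (QQ_diff hRH hs).sub h2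

lemma ne_one_of_im {s : ℂ} (h : 0 < s.im) : s ≠ 1 := by
  rintro rfl
  simp at h

lemma LL_adm (hRH : RiemannHypothesis) (k : ℕ) : Adm (LL k) := by
  induction k with
  | zero =>
    refine ⟨fun s hs => (ZZ_diff hRH hs.1 (ne_one_of_im hs.2)).neg, fun a t1 t2 ha ht1 => ?_⟩
    obtain ⟨C1, hC1, h1⟩ := ZZ_bd (δ := 1/4) (by norm_num)
    have hcomp : IsCompact (Icc a (5/4) ×ℂ Icc t1 t2) := isCompact_Icc.reProdIm isCompact_Icc
    obtain ⟨M, hM⟩ := hcomp.exists_bound_of_continuousOn (f := ZZ) (by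
      intro s hs
      rw [mem_reProdIm] at hs
      exact (ZZ_diff hRH (by linarith [hs.1.1]) (ne_one_of_im (by linarith [hs.2.1]))).continuousAt.continuousWithinAt)
    refine ⟨max C1 (|M| * Real.exp (5/8)), le_max_of_le_left hC1, fun s h2 h3 h4 => ?_⟩
    show ‖-ZZ s‖ ≤ _
    rw [norm_neg]
    rcases le_total s.re (5/4) with h5 | h5
    · have h6 := hM s (by rw [mem_reProdIm]; exact ⟨⟨h2, h5⟩, ⟨h3, h4⟩⟩)
      have h7 : 1 ≤ Real.exp (5/8) * Real.exp (-(s.re / 2)) := by
        rw [← Real.exp_add]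
        apply Real.one_le_exp
        linarith
      calc ‖ZZ s‖ ≤ |M| := h6.trans (le_abs_self M)
        _ ≤ |M| * (Real.exp (5/8) * Real.exp (-(s.re / 2))) := by
            have := abs_nonneg M
            nlinarith
        _ = |M| * Real.exp (5/8) * Real.exp (-(s.re / 2)) := by ring
        _ ≤ _ := by
            gcongr
            exact le_max_right _ _
    · refine (h1 s (by linarith)).trans ?_
      gcongr
      exact le_max_left _ _
  | succ k ih => exact ih.next

lemma LL_deriv (hRH : RiemannHypothesis) (k : ℕ) {s : ℂ} (hs : s ∈ DD) :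
    HasDerivAt (LL (k + 1)) (-LL k s) s := (LL_adm hRH k).step hs

/-- vertical increments -/
lemma LL_vert (hRH : RiemannHypothesis) (k : ℕ) {x : ℝ} (hx : 1/2 < x) {t1 t2 : ℝ} (h1 : 0 < t1) (h2 : t1 ≤ t2) :
    LL (k + 1) (x + t2 * I) - LL (k + 1) (x + t1 * I) = -(I * ∫ y in t1..t2, LL k (x + y * I)) := by
  have hmem : ∀ y ∈ uIcc t1 t2, (x + y * I : ℂ) ∈ DD := by
    intro y hy
    rw [uIcc_of_le h2] at hy
    exact ⟨by simpa using hx, by simp; linarith [hy.1]⟩
  have hd : ∀ y ∈ uIcc t1 t2, HasDerivAt (fun y : ℝ => LL (k + 1) (x + y * I)) (-LL k (x + y * I) * I) y := by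
    intro y hy
    have h3 := LL_deriv hRH k (hmem y hy)
    have h4 : HasDerivAt (fun y : ℝ => (x + y * I : ℂ)) I y := by
      have := ((Complex.ofRealCLM.hasDerivAt (x := y)).mul_const I).const_add (x : ℂ)
      simpa using this
    exact HasDerivAt.comp y h3 h4
  have hc : ContinuousOn (fun y : ℝ => -LL k (x + y * I) * I) (uIcc t1 t2) := by
    intro y hy
    have h3 := (LL_adm hRH k).1 _ (hmem y hy)
    have h4 : ContinuousAt (fun y : ℝ => LL k (x + y * I)) y :=
      ContinuousAt.comp (f := fun y : ℝ => (x + y * I : ℂ)) h3.continuousAt (by fun_prop)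
    exact (h4.neg.mul continuousAt_const).continuousWithinAt
  have h5 := intervalIntegral.integral_eq_sub_of_hasDerivAt hd hc.intervalIntegrable
  rw [← h5, intervalIntegral.integral_mul_const, intervalIntegral.integral_neg]
  ring

/-- the formula for repeated integration -/
lemma LL_formula (hRH : RiemannHypothesis) (k : ℕ) : ∀ (j : ℕ) {s : ℂ}, s ∈ DD →
    IntegrableOn (fun u : ℝ => ((u ^ k / k.factorial : ℝ) : ℂ) * LL j (s + u)) (Ioi 0) ∧
    ∫ u in Ioi (0:ℝ), ((u ^ k / k.factorial : ℝ) : ℂ) * LL j (s + u) = LL (j + k + 1) s := by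
  have hint : ∀ (k j : ℕ) {s : ℂ}, s ∈ DD →
      IntegrableOn (fun u : ℝ => ((u ^ k / k.factorial : ℝ) : ℂ) * LL j (s + u)) (Ioi 0) ∧
      Tendsto (fun u : ℝ => ((u ^ k / k.factorial : ℝ) : ℂ) * LL j (s + u)) atTop (𝓝 0) := by
    intro k j s hs
    obtain ⟨C, hC, hb⟩ := (LL_adm hRH j).hbd hs
    have hbd : ∀ u : ℝ, 0 ≤ u → ‖((u ^ k / k.factorial : ℝ) : ℂ) * LL j (s + u)‖ ≤
        (C * 4 ^ k * Real.exp (-(s.re / 2))) * Real.exp (-(1/4) * u) := by
      intro u hu
      rw [norm_mul, Complex.norm_real, Real.norm_of_nonneg (by positivity)]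
      have h1 : u ^ k / k.factorial ≤ 4 ^ k * Real.exp (u / 4) := by
        have h2 := Real.pow_div_factorial_le_exp (u / 4) (by positivity) k
        have h3 : u ^ k / k.factorial = 4 ^ k * ((u / 4) ^ k / k.factorial) := by
          rw [div_pow]
          field_simp
        rw [h3]
        gcongr
      calc u ^ k / k.factorial * ‖LL j (s + u)‖ ≤ (4 ^ k * Real.exp (u / 4)) * (C * Real.exp (-((s.re + u) / 2))) := by
            apply mul_le_mul h1 (hb u hu) (norm_nonneg _) (by positivity)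
        _ = (C * 4 ^ k) * (Real.exp (u / 4) * Real.exp (-((s.re + u) / 2))) := by ring
        _ = (C * 4 ^ k) * (Real.exp (-(s.re / 2)) * Real.exp (-(1/4) * u)) := by
            rw [← Real.exp_add, ← Real.exp_add]
            congr 2
            ring
        _ = _ := by ring
    constructor
    · refine Integrable.mono' ((integrableOn_exp_mul_Ioi (a := -(1/4)) (by norm_num) 0).const_mul
        (C * 4 ^ k * Real.exp (-(s.re / 2)))) ?_ ?_
      · apply ContinuousOn.aestronglyMeasurable _ measurableSet_Ioi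
        exact (by fun_prop : Continuous fun u : ℝ => ((u ^ k / k.factorial : ℝ) : ℂ)).continuousOn.mul
          (((LL_adm hRH j).cont hs).mono Ioi_subset_Ici_self)
      · exact (ae_restrict_mem measurableSet_Ioi).mono fun u hu => hbd u (le_of_lt hu)
    · rw [tendsto_zero_iff_norm_tendsto_zero]
      have h3 : Tendsto (fun u : ℝ => (C * 4 ^ k * Real.exp (-(s.re / 2))) * Real.exp (-(1/4) * u)) atTop (𝓝 0) := by
        have h4 : Tendsto (fun u : ℝ => -(1/4) * u) atTop atBot :=
          tendsto_id.const_mul_atTop_of_neg (by norm_num)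
        simpa using (Real.tendsto_exp_atBot.comp h4).const_mul (C * 4 ^ k * Real.exp (-(s.re / 2)))
      refine squeeze_zero' (Eventually.of_forall fun u => norm_nonneg _) ?_ h3
      filter_upwards [eventually_ge_atTop (0:ℝ)] with u hu
      exact hbd u hu
  induction k with
  | zero =>
    intro j s hs
    refine ⟨(hint 0 j hs).1, ?_⟩
    simp only [pow_zero, Nat.factorial_zero, Nat.cast_one, div_one, ofReal_one, one_mul, add_zero]
    rfl
  | succ k ih =>
    intro j s hs
    refine ⟨(hint (k + 1) j hs).1, ?_⟩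
    have hpoly : ∀ u : ℝ, HasDerivAt (fun u : ℝ => ((u ^ (k + 1) / (k + 1).factorial : ℝ) : ℂ))
        ((u ^ k / k.factorial : ℝ) : ℂ) u := by
      intro u
      have h1 : HasDerivAt (fun u : ℝ => u ^ (k + 1) / ((k + 1).factorial : ℝ)) (u ^ k / k.factorial) u := by
        have h2 := (hasDerivAt_pow (k + 1) u).div_const ((k + 1).factorial : ℝ)
        convert! h2 using 1
        rw [Nat.factorial_succ]
        have : (k.factorial : ℝ) ≠ 0 := by exact_mod_cast k.factorial_ne_zero
        push_cast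
        have : (k : ℝ) + 1 ≠ 0 := by positivity
        field_simp
      exact h1.ofReal_comp
    have hv : ∀ u ∈ Ioi (0:ℝ), HasDerivAt (fun u : ℝ => -LL (j + 1) (s + u)) (LL j (s + u)) u := by
      intro u hu
      have h3 := LL_deriv hRH j (mem_shift hs (le_of_lt hu))
      have h4 : HasDerivAt (fun u : ℝ => s + (u : ℂ)) 1 u := (Complex.ofRealCLM.hasDerivAt).const_add s
      have h5 := (HasDerivAt.comp u h3 h4).neg
      simp only [mul_one, neg_neg] at h5
      exact h5
    have h1 := integral_Ioi_mul_deriv_eq_deriv_mul (a := (0:ℝ)) (a' := (0:ℂ)) (b' := (0:ℂ))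
      (u := fun u : ℝ => ((u ^ (k + 1) / (k + 1).factorial : ℝ) : ℂ))
      (u' := fun u : ℝ => ((u ^ k / k.factorial : ℝ) : ℂ))
      (v := fun u : ℝ => -LL (j + 1) (s + u)) (v' := fun u : ℝ => LL j (s + u))
      (fun u _ => hpoly u) hv (hint (k + 1) j hs).1 (by
        have := (hint k (j + 1) hs).1.neg
        refine this.congr_fun (fun u _ => ?_) measurableSet_Ioi
        simp) (by
        have h6 : ContinuousWithinAt (fun u : ℝ => ((u ^ (k + 1) / (k + 1).factorial : ℝ) : ℂ) * (-LL (j + 1) (s + u))) (Ioi 0) 0 := by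
          apply ContinuousWithinAt.mul
          · exact (by fun_prop : Continuous fun u : ℝ => ((u ^ (k + 1) / (k + 1).factorial : ℝ) : ℂ)).continuousWithinAt
          · exact ((LL_adm hRH (j + 1)).cont hs 0 self_mem_Ici).neg.mono Ioi_subset_Ici_self
        have h7 := h6.tendsto
        have e0 : (((0:ℝ) ^ (k + 1) / (k + 1).factorial : ℝ) : ℂ) * (-LL (j + 1) (s + ((0:ℝ) : ℂ))) = 0 := by simp
        rw [e0] at h7
        exact h7) (by
        have := ((hint (k + 1) (j + 1) hs).2).neg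
        refine (this.congr fun u => ?_).trans (by simp)
        simp)
    rw [h1]
    have h8 := (ih (j + 1) hs).2
    have h9 : ∫ u in Ioi (0:ℝ), ((u ^ k / k.factorial : ℝ) : ℂ) * -LL (j + 1) (s + u) = -LL (j + 1 + k + 1) s := by
      rw [← h8, ← integral_neg]
      congr 1
      funext u
      ring
    rw [h9]
    have e : j + 1 + k + 1 = j + (k + 1) + 1 := by ring
    rw [e]
    ring

end

end Pool.Agent.R305.SK
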