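import Pool.Agent.R305.SK.LL

set_option autoImplicit false

/-! The iterated integrals near the real axis. -/

namespace Pool.Agent.R305.SK

open MeasureTheory Complex Filter Topology Set

noncomputable section

/-- (after `Pool.Agent.H986R2.DBN.Xb.zeta_one`) -/
lemma zeta_one {s : ℂ} {r : ℝ} (hr : 1 ≤ r) (hs : s.re = 1 / 2 + r) :
    ‖riemannZeta s - 1‖ ≤ (2 * ∑' m : ℕ, 1 / ((m : ℝ) + 1) ^ (3 / 2 : ℝ)) * (2 : ℝ) ^ (-r) := by
  have hs1 : 1 < s.re := by rw [hs]; linarith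
  have hsum : Summable fun n : ℕ => 1 / ((n : ℂ) + 1) ^ s := by
    have := (Complex.summable_one_div_nat_cpow (p := s)).2 hs1
    have h2 := (summable_nat_add_iff (f := fun n : ℕ => 1 / (n : ℂ) ^ s) 1).2 this
    simpa using h2
  have hsumR : Summable fun n : ℕ => 1 / ((n : ℝ) + 1) ^ (3 / 2 : ℝ) := by
    have := (Real.summable_one_div_nat_rpow (p := 3 / 2)).2 (by norm_num)
    have h2 := (summable_nat_add_iff (f := fun n : ℕ => 1 / (n : ℝ) ^ (3 / 2 : ℝ)) 1).2 this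
    simpa using h2
  rw [zeta_eq_tsum_one_div_nat_add_one_cpow hs1, hsum.tsum_eq_zero_add]
  have h0 : (1 : ℂ) / (((0 : ℕ) : ℂ) + 1) ^ s = 1 := by simp
  rw [h0, add_sub_cancel_left]
  have hsumR' : Summable fun n : ℕ => 1 / (((n + 1 : ℕ) : ℝ) + 1) ^ (3 / 2 : ℝ) :=
    (summable_nat_add_iff (f := fun n : ℕ => 1 / ((n : ℝ) + 1) ^ (3 / 2 : ℝ)) 1).2 hsumR
  have hle : ∑' n : ℕ, 1 / (((n + 1 : ℕ) : ℝ) + 1) ^ (3 / 2 : ℝ) ≤
      ∑' m : ℕ, 1 / ((m : ℝ) + 1) ^ (3 / 2 : ℝ) := by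
    rw [hsumR.tsum_eq_zero_add]
    have : (0 : ℝ) ≤ 1 / (((0 : ℕ) : ℝ) + 1) ^ (3 / 2 : ℝ) := by positivity
    linarith
  have hterm : ∀ n : ℕ, ‖1 / (((n + 1 : ℕ) : ℂ) + 1) ^ s‖ ≤
      (2 * (2 : ℝ) ^ (-r)) * (1 / (((n + 1 : ℕ) : ℝ) + 1) ^ (3 / 2 : ℝ)) := by
    intro n
    set x : ℝ := ((n + 1 : ℕ) : ℝ) + 1 with hx
    have hx2 : 2 ≤ x := by
      rw [hx]; push_cast; have : (0 : ℝ) ≤ n := Nat.cast_nonneg n; linarith
    have hx0 : 0 < x := by linarith
    have e1 : (((n + 1 : ℕ) : ℂ) + 1) = (x : ℂ) := by rw [hx]; push_cast; ring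
    rw [e1, norm_div, norm_one, Complex.norm_cpow_eq_rpow_re_of_pos hx0, hs]
    have e2 : x ^ (1 / 2 + r) = x ^ (3 / 2 : ℝ) * x ^ (r - 1) := by
      rw [← Real.rpow_add hx0]; congr 1; ring
    have e3 : (2 : ℝ) ^ (r - 1) ≤ x ^ (r - 1) :=
      Real.rpow_le_rpow (by norm_num) hx2 (by linarith)
    have e4 : (2 : ℝ) ^ (r - 1) = 2 ^ r / 2 := by
      rw [Real.rpow_sub (by norm_num), Real.rpow_one]
    have e5 : (0 : ℝ) < 2 ^ (r - 1) := Real.rpow_pos_of_pos (by norm_num) _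
    have e6 : (0 : ℝ) < x ^ (3 / 2 : ℝ) := Real.rpow_pos_of_pos hx0 _
    have e7 : 2 * (2 : ℝ) ^ (-r) = 1 / (2 : ℝ) ^ (r - 1) := by
      rw [e4, Real.rpow_neg (by norm_num)]
      field_simp
    rw [e2, e7, div_mul_div_comm, one_mul]
    apply one_div_le_one_div_of_le (by positivity)
    rw [mul_comm (x ^ (3 / 2 : ℝ))]
    exact mul_le_mul_of_nonneg_right e3 e6.le
  have hS : Summable fun n : ℕ => (2 * (2 : ℝ) ^ (-r)) * (1 / (((n + 1 : ℕ) : ℝ) + 1) ^ (3 / 2 : ℝ)) :=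
    hsumR'.mul_left _
  calc ‖∑' n : ℕ, 1 / (((n + 1 : ℕ) : ℂ) + 1) ^ s‖
      ≤ ∑' n : ℕ, (2 * (2 : ℝ) ^ (-r)) * (1 / (((n + 1 : ℕ) : ℝ) + 1) ^ (3 / 2 : ℝ)) :=
        tsum_of_norm_bounded hS.hasSum hterm
    _ = (2 * (2 : ℝ) ^ (-r)) * ∑' n : ℕ, (1 / (((n + 1 : ℕ) : ℝ) + 1) ^ (3 / 2 : ℝ)) := tsum_mul_left
    _ ≤ (2 * (2 : ℝ) ^ (-r)) * ∑' m : ℕ, 1 / ((m : ℝ) + 1) ^ (3 / 2 : ℝ) :=
        mul_le_mul_of_nonneg_left hle (by positivity)
    _ = _ := by ring

lemma zeta_tend (s : ℂ) : Tendsto (fun u : ℝ => riemannZeta (s + u)) atTop (𝓝 1) := by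
  rw [tendsto_iff_norm_sub_tendsto_zero]
  obtain ⟨C, hC⟩ : ∃ C : ℝ, C = 2 * ∑' m : ℕ, 1 / ((m : ℝ) + 1) ^ (3 / 2 : ℝ) := ⟨_, rfl⟩
  have h3 : Tendsto (fun u : ℝ => C * (2 : ℝ) ^ (-(s.re + u - 1/2))) atTop (𝓝 0) := by
    have h4 : Tendsto (fun u : ℝ => -(s.re + u - 1/2)) atTop atBot := by
      apply tendsto_neg_atTop_atBot.comp
      apply tendsto_atTop_add_const_right
      exact tendsto_atTop_add_const_left _ _ tendsto_id
    have h5 : Tendsto (fun x : ℝ => (2:ℝ) ^ x) atBot (𝓝 0) := by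
      have h6 : ∀ x : ℝ, (2:ℝ) ^ x = Real.exp (Real.log 2 * x) := fun x => Real.rpow_def_of_pos (by norm_num) x
      simp only [h6]
      exact Real.tendsto_exp_atBot.comp (tendsto_id.const_mul_atBot (Real.log_pos (by norm_num)))
    simpa using (h5.comp h4).const_mul C
  refine squeeze_zero' (Eventually.of_forall fun u => norm_nonneg _) ?_ h3
  filter_upwards [eventually_ge_atTop (3/2 - s.re)] with u hu
  have := zeta_one (s := s + u) (r := s.re + u - 1/2) (by linarith) (by simp)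
  rw [hC]
  exact this

lemma exp_LL1 (hRH : RiemannHypothesis) {s : ℂ} (hs : s ∈ DD) : cexp (LL 1 s) = riemannZeta s := by
  have hne : ∀ w ∈ DD, riemannZeta₁ w ≠ 0 := fun w hw => z1_ne hRH hw.1
  have hd : ∀ u : ℝ, 0 ≤ u → HasDerivAt (fun u : ℝ => cexp (-LL 1 (s + u)) * riemannZeta (s + u)) 0 u := by
    intro u hu
    have hm := mem_shift hs hu
    have h1 := LL_deriv hRH 0 hm
    have h4 : HasDerivAt (fun u : ℝ => s + (u : ℂ)) 1 u := (Complex.ofRealCLM.hasDerivAt).const_add s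
    have hw1 : s + (u : ℂ) ≠ 1 := ne_one_of_im hm.2
    have h5 : HasDerivAt riemannZeta (deriv riemannZeta (s + u)) (s + u) :=
      (differentiableAt_riemannZeta hw1).hasDerivAt
    have h6 := (h1.neg.cexp.mul h5).comp u h4
    have h7 : deriv riemannZeta (s + u) = ZZ (s + u) * riemannZeta (s + u) := by
      rw [← ZZ_eq hw1 (hne _ hm), logDeriv_apply]
      have : riemannZeta (s + u) ≠ 0 := by
        rw [riemannZeta_eq_inv_sub_mul hw1]
        exact mul_ne_zero (inv_ne_zero (sub_ne_zero.2 hw1)) (hne _ hm)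
      field_simp
    refine h6.congr_deriv ?_
    rw [h7]
    show (cexp ((-LL (0 + 1)) (s + u)) * - -LL 0 (s + u) * riemannZeta (s + u) +
      cexp ((-LL (0 + 1)) (s + u)) * (ZZ (s + u) * riemannZeta (s + u))) * 1 = 0
    have h8 : LL 0 (s + u) = -ZZ (s + u) := rfl
    rw [h8]
    ring
  have hconst : ∀ u : ℝ, 0 ≤ u → cexp (-LL 1 (s + u)) * riemannZeta (s + u) = cexp (-LL 1 (s + (0:ℝ))) * riemannZeta (s + (0:ℝ)) := by
    intro u hu
    have h := constant_of_has_deriv_right_zero (f := fun u : ℝ => cexp (-LL 1 (s + u)) * riemannZeta (s + u)) (a := 0) (b := u)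
      (fun v hv => (hd v hv.1).continuousAt.continuousWithinAt) (fun v hv => (hd v hv.1).hasDerivWithinAt) u ⟨hu, le_rfl⟩
    exact h
  have t1 : Tendsto (fun u : ℝ => cexp (-LL 1 (s + u)) * riemannZeta (s + u)) atTop (𝓝 (cexp (-0) * 1)) :=
    (Complex.continuous_exp.tendsto _).comp ((LL_adm hRH 1).tend hs).neg |>.mul (zeta_tend s)
  have t2 : Tendsto (fun u : ℝ => cexp (-LL 1 (s + u)) * riemannZeta (s + u)) atTop
      (𝓝 (cexp (-LL 1 (s + (0:ℝ))) * riemannZeta (s + (0:ℝ)))) := by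
    refine Tendsto.congr' ?_ tendsto_const_nhds
    filter_upwards [eventually_ge_atTop (0:ℝ)] with u hu
    exact (hconst u hu).symm
  have h := tendsto_nhds_unique t2 t1
  simp only [neg_zero, Complex.exp_zero, mul_one, ofReal_zero, add_zero] at h
  rw [Complex.exp_neg] at h
  have h9 := Complex.exp_ne_zero (LL 1 s)
  field_simp at h
  exact h.symm

lemma LL1_re (hRH : RiemannHypothesis) {s : ℂ} (hs : s ∈ DD) : (LL 1 s).re = Real.log ‖riemannZeta s‖ := by
  rw [← exp_LL1 hRH hs, Complex.norm_exp, Real.log_exp]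

/-- the singular part -/
def lam (x : ℝ) : ℝ := if |x - 1| < 1 then -Real.log |x - 1| else 0

/-- the weight -/
def ww (x : ℝ) : ℝ := Real.exp (-(x / 2)) + lam x

lemma lam_nonneg (x : ℝ) : 0 ≤ lam x := by
  unfold lam
  split_ifs with h
  · have := Real.log_nonpos (abs_nonneg (x - 1)) h.le
    linarith
  · exact le_rfl

lemma lam_int : Integrable lam := by
  have h1 : IntervalIntegrable (fun x : ℝ => Real.log (x - 1)) volume 0 2 := by
    have := (intervalIntegral.intervalIntegrable_log' (a := -1) (b := 1)).comp_sub_right 1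
    norm_num at this
    exact this
  rw [intervalIntegrable_iff_integrableOn_Ioo_of_le (by norm_num)] at h1
  have h2 := h1.neg.integrable_indicator measurableSet_Ioo
  refine h2.congr (Eventually.of_forall fun x => ?_)
  unfold lam
  by_cases h : |x - 1| < 1
  · have h3 := abs_lt.1 h
    have h4 : x ∈ Ioo (0:ℝ) 2 := ⟨by linarith [h3.1], by linarith [h3.2]⟩
    rw [indicator_of_mem h4, if_pos h, Real.log_abs]
    rfl
  · have h4 : x ∉ Ioo (0:ℝ) 2 := by
      intro h5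
      apply h
      rw [abs_lt]
      constructor <;> linarith [h5.1, h5.2]
    rw [indicator_of_notMem h4, if_neg h]

lemma ww_nonneg (x : ℝ) : 0 ≤ ww x := add_nonneg (Real.exp_pos _).le (lam_nonneg x)

lemma ww_tail : ∃ C : ℝ, 0 ≤ C ∧ ∀ x : ℝ, IntegrableOn (fun u : ℝ => ww (x + u)) (Ioi 0) ∧
    ∫ u in Ioi (0:ℝ), ww (x + u) ≤ C * Real.exp (-(x / 2)) := by
  obtain ⟨A, hA⟩ : ∃ A : ℝ, A = ∫ y, lam y := ⟨_, rfl⟩
  have hA0 : 0 ≤ A := by rw [hA]; exact integral_nonneg lam_nonneg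
  refine ⟨2 + A * Real.exp 1, by positivity, fun x => ?_⟩
  have h1 : Integrable (fun u : ℝ => lam (x + u)) := lam_int.comp_add_left x
  have h2 : IntegrableOn (fun u : ℝ => ww (x + u)) (Ioi 0) := (exp_int x).1.add h1.integrableOn
  refine ⟨h2, ?_⟩
  unfold ww
  rw [integral_add (exp_int x).1 h1.integrableOn, (exp_int x).2]
  have h3 : ∫ u in Ioi (0:ℝ), lam (x + u) ≤ A * Real.exp 1 * Real.exp (-(x / 2)) := by
    by_cases hx : x < 2
    · have h4 : ∫ u in Ioi (0:ℝ), lam (x + u) ≤ ∫ u, lam (x + u) :=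
        setIntegral_le_integral h1 (Eventually.of_forall fun u => lam_nonneg _)
      have h5 : ∫ u, lam (x + u) = A := by
        rw [hA]; exact integral_add_left_eq_self lam x
      have h6 : 1 ≤ Real.exp 1 * Real.exp (-(x / 2)) := by
        rw [← Real.exp_add]
        apply Real.one_le_exp
        linarith
      nlinarith
    · push Not at hx
      have h4 : ∀ u ∈ Ioi (0:ℝ), lam (x + u) = 0 := by
        intro u hu
        have hu' : (0:ℝ) < u := hu
        unfold lam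
        rw [if_neg]
        rw [not_lt, le_abs]
        left; linarith
      rw [setIntegral_congr_fun measurableSet_Ioi h4]
      simp
      positivity
  linarith

end

end Pool.Agent.R305.SK
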