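import Pool.Agent.R305.SK.LLr
import Pool.Agent.R305.SK.Def

set_option autoImplicit false

/-! The iterated integrals near the real axis: all orders. -/

namespace Pool.Agent.R305.SK

open MeasureTheory Complex Filter Topology Set

noncomputable section

/-- iterated integrals of the indicator function of `x < 1` -/
def PW : ℕ → ℝ → ℝ
  | 0 => fun x => if x < 1 then 1 else 0
  | (k + 1) => fun x => ∫ y in Ioi x, PW k y

/-- the boundary values -/
def el (k : ℕ) (x : ℝ) : ℂ := (J k x : ℂ) - ((Real.pi * PW k x : ℝ) : ℂ) * I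

lemma shift_int {E : Type*} [NormedAddCommGroup E] [NormedSpace ℝ E] (g : ℝ → E) (x : ℝ) :
    ∫ u in Ioi (0:ℝ), g (x + u) = ∫ y in Ioi x, g y := by
  have h := (measurePreserving_add_left (volume : Measure ℝ) x).setIntegral_preimage_emb
    (measurableEmbedding_addLeft x) g (Ioi x)
  rw [← h]
  congr 2
  ext u
  simp

lemma shift_intOn {E : Type*} [NormedAddCommGroup E] (g : ℝ → E) (x : ℝ) :
    IntegrableOn (fun u => g (x + u)) (Ioi 0) ↔ IntegrableOn g (Ioi x) := by
  have h := (measurePreserving_add_left (volume : Measure ℝ) x).integrableOn_comp_preimage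
    (measurableEmbedding_addLeft x) (f := g) (s := Ioi x)
  rw [← h]
  have e : (fun u : ℝ => x + u) ⁻¹' Ioi x = Ioi 0 := by
    ext u
    simp
  rw [e]
  rfl

lemma ww_int (x : ℝ) : IntegrableOn ww (Ioi x) := by
  obtain ⟨C, -, h⟩ := ww_tail
  exact (shift_intOn ww x).1 (h x).1

lemma ae_ne (c : ℝ) {s : Set ℝ} : ∀ᵐ u : ℝ ∂(volume.restrict s), u ≠ c := by
  apply ae_restrict_of_ae
  rw [ae_iff]
  have : {a : ℝ | ¬a ≠ c} = {c} := by ext a; simp
  rw [this]
  exact Real.volume_singleton

lemma LL_next_bd {k : ℕ} (h : ∀ a T : ℝ, 1/2 < a → ∃ C : ℝ, 0 ≤ C ∧ ∀ s : ℂ, a ≤ s.re → s.re ≠ 1 → 0 < s.im →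
    s.im ≤ T → ‖LL (k + 1) s‖ ≤ C * ww s.re) (a T : ℝ) (ha : 1/2 < a) : ∃ C : ℝ, 0 ≤ C ∧ ∀ s : ℂ, a ≤ s.re → 0 < s.im →
    s.im ≤ T → ‖LL (k + 2) s‖ ≤ C * Real.exp (-(s.re / 2)) := by
  obtain ⟨C, hC, hb⟩ := h a T ha
  obtain ⟨Cw, hCw, hw⟩ := ww_tail
  refine ⟨C * Cw, by positivity, fun s h1 h2 h3 => ?_⟩
  show ‖∫ u in Ioi (0:ℝ), LL (k + 1) (s + u)‖ ≤ _
  have h4 : ‖∫ u in Ioi (0:ℝ), LL (k + 1) (s + u)‖ ≤ ∫ u in Ioi (0:ℝ), C * ww (s.re + u) := by
    refine norm_integral_le_of_norm_le ((hw s.re).1.const_mul C) ?_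
    filter_upwards [ae_restrict_mem measurableSet_Ioi, ae_ne (1 - s.re)] with u hu hu1
    have hu' : (0:ℝ) < u := hu
    have := hb (s + u) (by simp; linarith) (by
      simp only [add_re, ofReal_re]
      intro h5
      apply hu1
      linarith) (by simpa using h2) (by simpa using h3)
    simpa using this
  rw [integral_const_mul] at h4
  have := (hw s.re).2
  calc _ ≤ _ := h4
    _ ≤ C * (Cw * Real.exp (-(s.re / 2))) := by gcongr
    _ = _ := by ring

lemma LL_bd (hRH : RiemannHypothesis) (k : ℕ) : ∀ a T : ℝ, 1/2 < a → ∃ C : ℝ, 0 ≤ C ∧ ∀ s : ℂ,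
    a ≤ s.re → s.re ≠ 1 → 0 < s.im → s.im ≤ T → ‖LL (k + 1) s‖ ≤ C * ww s.re := by
  induction k with
  | zero => intro a T ha; exact LL1_bd hRH ha
  | succ k ih =>
    intro a T ha
    obtain ⟨C, hC, h⟩ := LL_next_bd ih a T ha
    refine ⟨C, hC, fun s h1 _ h3 h4 => (h s h1 h3 h4).trans ?_⟩
    have : Real.exp (-(s.re / 2)) ≤ ww s.re := by unfold ww; linarith [lam_nonneg s.re]
    gcongr

lemma line_meas (hRH : RiemannHypothesis) (k : ℕ) {x t : ℝ} (hx : 1/2 < x) (ht : 0 < t) :
    AEStronglyMeasurable (fun y : ℝ => LL k ((y : ℂ) + t * I)) (volume.restrict (Ioi x)) := by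
  apply ContinuousOn.aestronglyMeasurable _ measurableSet_Ioi
  intro y hy
  have hy' : x < y := hy
  have h3 := (LL_adm hRH k).1 _ (mem_DD (x := y) (t := t) (by linarith) ht)
  exact (ContinuousAt.comp (f := fun y : ℝ => (y + t * I : ℂ)) h3.continuousAt (by fun_prop)).continuousWithinAt

lemma el_integrable (hRH : RiemannHypothesis) {k : ℕ}
    (hl : ∀ x : ℝ, 1/2 < x → x ≠ 1 → Tendsto (fun t : ℝ => LL (k + 1) ((x : ℂ) + t * I)) (𝓝[>] 0) (𝓝 (el k x)))
    {x : ℝ} (hx : 1/2 < x) : IntegrableOn (el k) (Ioi x) := by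
  obtain ⟨C, hC, hb⟩ := LL_bd hRH k x 1 hx
  have hm : AEStronglyMeasurable (el k) (volume.restrict (Ioi x)) := by
    refine aestronglyMeasurable_of_tendsto_ae atTop (f := fun (m : ℕ) (y : ℝ) =>
      LL (k + 1) ((y : ℂ) + ((1 / ((m : ℝ) + 1) : ℝ) : ℂ) * I)) ?_ ?_
    · intro m
      exact line_meas hRH (k + 1) hx (by positivity)
    · filter_upwards [ae_restrict_mem measurableSet_Ioi, ae_ne 1] with y hy hy1
      have hy' : x < y := hy
      refine (hl y (by linarith) hy1).comp ?_
      refine tendsto_nhdsWithin_iff.2 ⟨tendsto_one_div_add_atTop_nhds_zero_nat, ?_⟩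
      refine Eventually.of_forall fun m => ?_
      show (0:ℝ) < 1 / ((m : ℝ) + 1)
      positivity
  refine Integrable.mono' ((ww_int x).const_mul C) hm ?_
  filter_upwards [ae_restrict_mem measurableSet_Ioi, ae_ne 1] with y hy hy1
  have hy' : x < y := hy
  refine le_of_tendsto (hl y (by linarith) hy1).norm ?_
  have : ∀ᶠ t : ℝ in 𝓝[>] 0, t < 1 := nhdsWithin_le_nhds (Iio_mem_nhds one_pos)
  filter_upwards [self_mem_nhdsWithin, this] with t ht ht1
  have ht' : (0:ℝ) < t := ht
  have := hb ((y : ℂ) + t * I) (by simp; linarith) (by simpa using hy1) (by simpa using ht') (by simpa using ht1.le)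
  simpa using this

lemma el_parts {k : ℕ} {x : ℝ} (h : IntegrableOn (el k) (Ioi x)) :
    IntegrableOn (J k) (Ioi x) ∧ IntegrableOn (PW k) (Ioi x) := by
  constructor
  · have h1 := h.re
    refine h1.congr (Eventually.of_forall fun y => ?_)
    simp [el]
  · have h1 := (h.im).const_mul (-(1/Real.pi))
    refine h1.congr (Eventually.of_forall fun y => ?_)
    simp only [el, RCLike.im_to_complex, sub_im, ofReal_im, mul_im, ofReal_re, I_im, mul_one, I_re, mul_zero, add_zero, zero_sub]
    field_simp [Real.pi_ne_zero]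

lemma el_succ {k : ℕ} {x : ℝ} (h : IntegrableOn (el k) (Ioi x)) :
    ∫ y in Ioi x, el k y = el (k + 1) x := by
  obtain ⟨h1, h2⟩ := el_parts h
  have g1 : Integrable (fun y => ((J k y : ℝ) : ℂ)) (volume.restrict (Ioi x)) := h1.ofReal
  have g2 : Integrable (fun y => ((Real.pi * PW k y : ℝ) : ℂ) * I) (volume.restrict (Ioi x)) :=
    (h2.const_mul Real.pi).ofReal.mul_const I
  unfold el
  rw [integral_sub g1 g2, integral_mul_const,
    integral_complex_ofReal, integral_complex_ofReal, integral_const_mul]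
  rfl

theorem LL_lim (hRH : RiemannHypothesis) (k : ℕ) :
    ∀ x : ℝ, 1/2 < x → x ≠ 1 → Tendsto (fun t : ℝ => LL (k + 1) ((x : ℂ) + t * I)) (𝓝[>] 0) (𝓝 (el k x)) := by
  induction k with
  | zero =>
    intro x hx hx1
    have h1 := LL1_re_lim hRH hx hx1
    have h2 := LL1_im_lim hRH hx hx1
    have h3 := ((Complex.continuous_ofReal.tendsto _).comp h1).add
      (((Complex.continuous_ofReal.tendsto _).comp h2).mul_const I)
    have e : ((Real.log ‖riemannZeta x‖ : ℝ) : ℂ) + ((-(if x < 1 then Real.pi else 0) : ℝ) : ℂ) * I = el 0 x := by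
      unfold el J PW
      split_ifs <;> push_cast <;> ring
    rw [e] at h3
    refine h3.congr fun t => ?_
    simp only [Function.comp_apply]
    exact Complex.re_add_im _
  | succ k ih =>
    intro x hx _
    obtain ⟨C, hC, hb⟩ := LL_bd hRH k x 1 hx
    have hei := el_integrable hRH ih hx
    have h : Tendsto (fun t : ℝ => ∫ u in Ioi (0:ℝ), LL (k + 1) (((x : ℂ) + t * I) + u)) (𝓝[>] 0)
        (𝓝 (∫ u in Ioi (0:ℝ), el k (x + u))) := by
      refine tendsto_integral_filter_of_dominated_convergence (fun u : ℝ => C * ww (x + u)) ?_ ?_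
        (((shift_intOn ww x).2 (ww_int x)).const_mul C) ?_
      · filter_upwards [self_mem_nhdsWithin] with t ht
        exact (((LL_adm hRH (k + 1)).cont (mem_DD hx ht)).mono Ioi_subset_Ici_self).aestronglyMeasurable measurableSet_Ioi
      · have : ∀ᶠ t : ℝ in 𝓝[>] 0, t < 1 := nhdsWithin_le_nhds (Iio_mem_nhds one_pos)
        filter_upwards [self_mem_nhdsWithin, this] with t ht ht1
        have ht' : (0:ℝ) < t := ht
        filter_upwards [ae_restrict_mem measurableSet_Ioi, ae_ne (1 - x)] with u hu hu1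
        have hu' : (0:ℝ) < u := hu
        have := hb (((x : ℂ) + t * I) + u) (by simp; linarith) (by
          simp only [add_re, ofReal_re, mul_re, I_re, mul_zero, ofReal_im, I_im, mul_one, sub_self, add_zero]
          intro h5
          apply hu1
          linarith) (by simpa using ht') (by simpa using ht1.le)
        simpa using this
      · filter_upwards [ae_restrict_mem measurableSet_Ioi, ae_ne (1 - x)] with u hu hu1
        have hu' : (0:ℝ) < u := hu
        have h5 := ih (x + u) (by linarith) (by intro h6; apply hu1; linarith)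
        refine h5.congr fun t => ?_
        congr 1
        push_cast
        ring
    rw [shift_int (el k) x, el_succ hei] at h
    exact h

lemma J_int_right (hRH : RiemannHypothesis) (k : ℕ) {x : ℝ} (hx : 1/2 < x) : IntegrableOn (J k) (Ioi x) :=
  (el_parts (el_integrable hRH (LL_lim hRH k) hx)).1

lemma z1_half : riemannZeta₁ ((1/2 : ℝ) : ℂ) ≠ 0 := fun h =>
  Pool.Agent.H437R2.z1_zero_im (s := ((1/2 : ℝ) : ℂ)) (by norm_num) h (by simp)

lemma J_int (hRH : RiemannHypothesis) (k : ℕ) : IntegrableOn (J k) (Ioi (1/2)) := by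
  have hsplit : Ioi (1/2 : ℝ) = Ioc (1/2) (3/4) ∪ Ioi (3/4) := (Ioc_union_Ioi_eq_Ioi (by norm_num)).symm
  induction k with
  | zero =>
    rw [hsplit]
    refine IntegrableOn.union ?_ (J_int_right hRH 0 (by norm_num))
    have hc : ContinuousOn (J 0) (Icc (1/2) (3/4)) := by
      intro y hy
      have hne : (y : ℂ) ≠ 1 := by
        intro h
        have : y = 1 := by exact_mod_cast h
        linarith [hy.2]
      have hz1 : riemannZeta₁ y ≠ 0 := by
        rcases eq_or_lt_of_le hy.1 with h | h
        · rw [← h]; exact z1_half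
        · exact z1_ne hRH (by simpa using h)
      have hz : riemannZeta y ≠ 0 := by
        rw [riemannZeta_eq_inv_sub_mul hne]
        exact mul_ne_zero (inv_ne_zero (sub_ne_zero.2 hne)) hz1
      have h2 : ContinuousAt (fun y : ℝ => riemannZeta (y : ℂ)) y :=
        ContinuousAt.comp (f := fun t : ℝ => (t : ℂ)) (g := riemannZeta)
          (differentiableAt_riemannZeta hne).continuousAt (by fun_prop)
      have h3 : ContinuousAt (J 0) y := h2.norm.log (by simpa using hz)
      exact h3.continuousWithinAt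
    exact hc.integrableOn_Icc.mono_set Ioc_subset_Icc_self
  | succ k ih =>
    rw [hsplit]
    refine IntegrableOn.union ?_ (J_int_right hRH (k + 1) (by norm_num))
    have hc : ContinuousOn (J (k + 1)) (Icc (1/2) (3/4)) := by
      have h1 : ContinuousOn (fun y : ℝ => (∫ v in Ioi (1/2 : ℝ), J k v) - ∫ v in (1/2 : ℝ)..y, J k v) (Icc (1/2) (3/4)) := by
        apply continuousOn_const.sub
        have h2 : IntegrableOn (J k) (uIcc (1/2) (3/4)) := by
          rw [uIcc_of_le (by norm_num), integrableOn_Icc_iff_integrableOn_Ioc]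
          exact ih.mono_set Ioc_subset_Ioi_self
        have h3 := intervalIntegral.continuousOn_primitive_interval h2
        rwa [uIcc_of_le (by norm_num)] at h3
      refine h1.congr fun y hy => ?_
      have h4 := intervalIntegral.integral_interval_add_Ioi (a := 1/2) (b := y) ih (ih.mono_set (Ioi_subset_Ioi hy.1))
      show ∫ v in Ioi y, J k v = _
      linarith
    exact hc.integrableOn_Icc.mono_set Ioc_subset_Icc_self

lemma J_cont (hRH : RiemannHypothesis) (k : ℕ) : Tendsto (J (k + 1)) (𝓝[>] (1/2)) (𝓝 (J (k + 1) (1/2))) := by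
  have ih := J_int hRH k
  have h1 : ContinuousOn (fun y : ℝ => (∫ v in Ioi (1/2 : ℝ), J k v) - ∫ v in (1/2 : ℝ)..y, J k v) (Icc (1/2) (3/4)) := by
    apply continuousOn_const.sub
    have h2 : IntegrableOn (J k) (uIcc (1/2) (3/4)) := by
      rw [uIcc_of_le (by norm_num), integrableOn_Icc_iff_integrableOn_Ioc]
      exact ih.mono_set Ioc_subset_Ioi_self
    have h3 := intervalIntegral.continuousOn_primitive_interval h2
    rwa [uIcc_of_le (by norm_num)] at h3
  have hc : ContinuousOn (J (k + 1)) (Icc (1/2) (3/4)) := by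
    refine h1.congr fun y hy => ?_
    have h4 := intervalIntegral.integral_interval_add_Ioi (a := 1/2) (b := y) ih (ih.mono_set (Ioi_subset_Ioi hy.1))
    show ∫ v in Ioi y, J k v = _
    linarith
  have h5 := (hc (1/2) ⟨le_rfl, by norm_num⟩).tendsto
  refine h5.mono_left ?_
  rw [nhdsWithin_le_iff]
  exact Icc_mem_nhdsGT (by norm_num)

lemma PW_eq (k : ℕ) : ∀ x : ℝ, 1/2 < x → PW k x = if x < 1 then (1 - x) ^ k / k.factorial else 0 := by
  induction k with
  | zero => intro x _; simp [PW]
  | succ k ih =>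
    intro x hx
    show ∫ y in Ioi x, PW k y = _
    have h1 : ∫ y in Ioi x, PW k y = ∫ y in Ioi x, (if y < 1 then (1 - y) ^ k / (k.factorial : ℝ) else 0) := by
      refine setIntegral_congr_fun measurableSet_Ioi fun y hy => ?_
      have hy' : x < y := hy
      exact ih y (by linarith)
    rw [h1]
    split_ifs with h
    · have h2 : ∫ y in Ioi x, (if y < 1 then (1 - y) ^ k / (k.factorial : ℝ) else 0) =
          ∫ y in x..1, (1 - y) ^ k / (k.factorial : ℝ) := by
        have h3 : (fun y : ℝ => if y < 1 then (1 - y) ^ k / (k.factorial : ℝ) else 0) =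
            (Iio (1:ℝ)).indicator (fun y => (1 - y) ^ k / (k.factorial : ℝ)) := by
          funext y
          by_cases hy : y < 1
          · rw [if_pos hy, indicator_of_mem (by exact hy)]
          · rw [if_neg hy, indicator_of_notMem (by exact hy)]
        rw [h3, setIntegral_indicator measurableSet_Iio, Ioi_inter_Iio, intervalIntegral.integral_of_le h.le,
          integral_Ioc_eq_integral_Ioo]
      rw [h2]
      have h4 : ∫ y in x..1, (1 - y) ^ k / (k.factorial : ℝ) = (∫ y in x..1, (1 - y) ^ k) / (k.factorial : ℝ) :=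
        intervalIntegral.integral_div _ _
      rw [h4, intervalIntegral.integral_comp_sub_left (fun y : ℝ => y ^ k) 1, integral_pow, Nat.factorial_succ]
      have : (k.factorial : ℝ) ≠ 0 := by exact_mod_cast k.factorial_ne_zero
      push_cast
      simp
      field_simp
    · have h2 : ∫ y in Ioi x, (if y < 1 then (1 - y) ^ k / (k.factorial : ℝ) else 0) = ∫ y in Ioi x, (0:ℝ) := by
        refine setIntegral_congr_fun measurableSet_Ioi fun y hy => ?_
        have hy' : x < y := hy
        rw [if_neg (by push Not at h; linarith)]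
      rw [h2]
      simp

end

end Pool.Agent.R305.SK
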