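import Pool.Agent.R305.SK.LL0

set_option autoImplicit false

/-! The logarithm of zeta near the real axis. -/

namespace Pool.Agent.R305.SK

open MeasureTheory Complex Filter Topology Set

noncomputable section

lemma mem_DD {x t : ℝ} (hx : 1/2 < x) (ht : 0 < t) : ((x : ℂ) + t * I) ∈ DD :=
  ⟨by simpa using hx, by simpa using ht⟩

lemma LL1_form (hRH : RiemannHypothesis) {x t : ℝ} (hx : 1/2 < x) (ht : 0 < t) :
    LL 1 (x + t * I) = LL 1 ((2 : ℝ) + t * I) - (∫ y in x..2, QQ (y + t * I)) +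
      Complex.log (1 + t * I) - Complex.log (((x - 1 : ℝ) : ℂ) + t * I) := by
  have hy : ∀ y ∈ uIcc x 2, 1/2 < y := by
    intro y hy
    have := (le_min_iff.2 ⟨hx.le, (by norm_num : (1/2:ℝ) ≤ 2)⟩)
    rcases le_total x 2 with h | h
    · rw [uIcc_of_le h] at hy; linarith [hy.1]
    · rw [uIcc_of_ge h] at hy; linarith [hy.1]
  have hd : ∀ y ∈ uIcc x 2, HasDerivAt (fun y : ℝ => LL 1 (y + t * I) + Complex.log (((y - 1 : ℝ) : ℂ) + t * I))
      (QQ (y + t * I)) y := by
    intro y hyy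
    have h1 := LL_deriv hRH 0 (mem_DD (hy y hyy) ht)
    have h2 : HasDerivAt (fun y : ℝ => ((y : ℂ) + t * I)) 1 y := by
      have := (Complex.ofRealCLM.hasDerivAt (x := y)).add_const ((t : ℂ) * I)
      simpa using this
    have h3 := HasDerivAt.comp y h1 h2
    have h4 : HasDerivAt (fun y : ℝ => (((y - 1 : ℝ) : ℂ) + t * I)) 1 y := by
      have h5 : HasDerivAt (fun y : ℝ => (y : ℂ) + (t * I - 1)) 1 y := by
        have := (Complex.ofRealCLM.hasDerivAt (x := y)).add_const ((t : ℂ) * I - 1)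
        simpa using this
      convert! h5 using 1
      funext y
      push_cast
      ring
    have hs : (((y - 1 : ℝ) : ℂ) + t * I) ∈ Complex.slitPlane := by
      rw [Complex.mem_slitPlane_iff]
      right
      simpa using ht.ne'
    have h6 := HasDerivAt.comp y (Complex.hasDerivAt_log hs) h4
    have h7 := h3.add h6
    refine h7.congr_deriv ?_
    have h8 : LL 0 ((y : ℂ) + t * I) = -ZZ (y + t * I) := rfl
    rw [h8, neg_neg]
    unfold ZZ
    have : ((y : ℂ) + t * I - 1) = ((y - 1 : ℝ) : ℂ) + t * I := by push_cast; ring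
    rw [this]
    ring
  have hc : ContinuousOn (fun y : ℝ => QQ (y + t * I)) (uIcc x 2) := by
    intro y hyy
    have h3 := QQ_diff hRH (s := (y : ℂ) + t * I) (by simpa using hy y hyy)
    exact (ContinuousAt.comp (f := fun y : ℝ => ((y : ℂ) + t * I)) h3.continuousAt (by fun_prop)).continuousWithinAt
  have h := intervalIntegral.integral_eq_sub_of_hasDerivAt hd hc.intervalIntegrable
  rw [h]
  have e : (((2 - 1 : ℝ) : ℝ) : ℂ) = 1 := by norm_num
  rw [e]
  ring

/-- bound to the right -/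
lemma LL1_right : ∃ C : ℝ, 0 ≤ C ∧ ∀ s : ℂ, 5/4 ≤ s.re → ‖LL 1 s‖ ≤ C * Real.exp (-(s.re / 2)) := by
  obtain ⟨C1, hC1, h1⟩ := ZZ_bd (δ := 1/4) (by norm_num)
  refine ⟨2 * C1, by positivity, fun s hs => ?_⟩
  have h4 : ‖∫ u in Ioi (0:ℝ), LL 0 (s + u)‖ ≤ ∫ u in Ioi (0:ℝ), C1 * Real.exp (-((s.re + u) / 2)) := by
    refine norm_integral_le_of_norm_le ((exp_int s.re).1.const_mul C1) ?_
    refine (ae_restrict_mem measurableSet_Ioi).mono fun u hu => ?_
    have hu' : (0:ℝ) < u := hu
    have := h1 (s + u) (by simp; linarith)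
    show ‖-ZZ (s + u)‖ ≤ _
    rw [norm_neg]
    simpa using this
  rw [integral_const_mul, (exp_int s.re).2] at h4
  show ‖∫ u in Ioi (0:ℝ), LL 0 (s + u)‖ ≤ _
  linarith

lemma QQ_real_im (y : ℝ) : (QQ y).im = 0 := by
  have := QQ_conj (y : ℂ)
  rw [Complex.conj_ofReal] at this
  exact Complex.conj_eq_iff_im.1 this.symm

lemma ZZ_real_im (y : ℝ) : (ZZ y).im = 0 := by
  have := ZZ_conj (y : ℂ)
  rw [Complex.conj_ofReal] at this
  exact Complex.conj_eq_iff_im.1 this.symm

/-- continuity at `2` from above -/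
lemma LL1_two (hRH : RiemannHypothesis) :
    Tendsto (fun t : ℝ => (LL 1 ((2 : ℝ) + t * I)).im) (𝓝[>] 0) (𝓝 0) := by
  obtain ⟨C1, hC1, h1⟩ := ZZ_bd (δ := 1/4) (by norm_num)
  have h : Tendsto (fun t : ℝ => ∫ u in Ioi (0:ℝ), LL 0 (((2 : ℝ) + t * I) + u)) (𝓝[>] 0)
      (𝓝 (∫ u in Ioi (0:ℝ), -ZZ (((2 + u : ℝ) : ℝ) : ℂ))) := by
    refine tendsto_integral_filter_of_dominated_convergence (fun u : ℝ => C1 * Real.exp (-((2 + u) / 2))) ?_ ?_
      ((exp_int 2).1.const_mul C1) ?_
    · filter_upwards [self_mem_nhdsWithin] with t ht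
      have := (LL_adm hRH 0).cont (mem_DD (x := 2) (by norm_num) ht)
      exact (this.mono Ioi_subset_Ici_self).aestronglyMeasurable measurableSet_Ioi
    · refine Eventually.of_forall fun t => ?_
      refine (ae_restrict_mem measurableSet_Ioi).mono fun u hu => ?_
      have hu' : (0:ℝ) < u := hu
      have := h1 (((2 : ℝ) + t * I) + u) (by simp; linarith)
      show ‖-ZZ (((2 : ℝ) + t * I) + u)‖ ≤ _
      rw [norm_neg]
      simpa using this
    · refine (ae_restrict_mem measurableSet_Ioi).mono fun u hu => ?_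
      have hu' : (0:ℝ) < u := hu
      have hne : (((2 + u : ℝ) : ℝ) : ℂ) ≠ 1 := by
        intro h2
        have h3 : (2 + u : ℝ) = 1 := by exact_mod_cast h2
        linarith
      have h2 := (ZZ_diff hRH (s := (((2 + u : ℝ) : ℝ) : ℂ)) (by simp; linarith) hne).continuousAt
      have h3 : ContinuousAt (fun t : ℝ => -ZZ (((2 : ℝ) + t * I) + u)) 0 := by
        have e : (((2 : ℝ) : ℂ) + ((0 : ℝ) : ℂ) * I + u) = (((2 + u : ℝ) : ℝ) : ℂ) := by push_cast; ring
        have h4 : ContinuousAt (fun t : ℝ => ZZ (((2 : ℝ) + t * I) + u)) 0 :=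
          ContinuousAt.comp (f := fun t : ℝ => (((2 : ℝ) : ℂ) + t * I) + u) (g := ZZ) (by rw [e]; exact h2) (by fun_prop)
        exact h4.neg
      have h5 := h3.tendsto.mono_left (nhdsWithin_le_nhds (s := Ioi 0))
      have e : (((2 : ℝ) : ℂ) + ((0 : ℝ) : ℂ) * I + u) = (((2 + u : ℝ) : ℝ) : ℂ) := by push_cast; ring
      rw [e] at h5
      exact h5
  have h2 := (Complex.continuous_im.tendsto _).comp h
  have h3 : (∫ u in Ioi (0:ℝ), -ZZ (((2 + u : ℝ) : ℝ) : ℂ)).im = 0 := by
    rw [← Complex.conj_eq_iff_im, ← integral_conj]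
    congr 1
    funext u
    rw [map_neg, ← ZZ_conj, Complex.conj_ofReal]
  rw [h3] at h2
  exact h2

lemma log_above {x : ℝ} (hx : x ≠ 1) : Tendsto (fun t : ℝ => (Complex.log (((x - 1 : ℝ) : ℂ) + t * I)).im)
    (𝓝[>] 0) (𝓝 (if x < 1 then Real.pi else 0)) := by
  have hm : Tendsto (fun t : ℝ => (((x - 1 : ℝ) : ℂ) + t * I)) (𝓝[>] 0) (𝓝 ((x - 1 : ℝ) : ℂ)) := by
    have : ContinuousAt (fun t : ℝ => (((x - 1 : ℝ) : ℂ) + t * I)) 0 := by fun_prop
    have h := this.tendsto
    simp only [ofReal_zero, zero_mul, add_zero] at h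
    exact h.mono_left nhdsWithin_le_nhds
  split_ifs with h
  · have h1 := Complex.tendsto_log_nhdsWithin_im_nonneg_of_re_neg_of_im_zero (z := ((x - 1 : ℝ) : ℂ))
      (by simp; linarith) (by simp)
    have h2 : Tendsto (fun t : ℝ => (((x - 1 : ℝ) : ℂ) + t * I)) (𝓝[>] 0) (𝓝[{z : ℂ | 0 ≤ z.im}] ((x - 1 : ℝ) : ℂ)) := by
      refine tendsto_nhdsWithin_iff.2 ⟨hm, ?_⟩
      filter_upwards [self_mem_nhdsWithin] with t ht
      have ht' : (0:ℝ) < t := ht
      simp
      exact ht'.le
    have h3 := (Complex.continuous_im.tendsto _).comp (h1.comp h2)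
    have e : ((Real.log ‖((x - 1 : ℝ) : ℂ)‖ : ℂ) + Real.pi * I).im = Real.pi := by simp
    rw [e] at h3
    exact h3
  · have hx1 : 0 < x - 1 := by
      rcases lt_or_gt_of_ne hx with h2 | h2
      · exact absurd h2 h
      · linarith
    have h1 : ContinuousAt Complex.log ((x - 1 : ℝ) : ℂ) := by
      apply continuousAt_clog
      rw [Complex.mem_slitPlane_iff]
      left
      simpa using hx1
    have h3 := (Complex.continuous_im.tendsto _).comp (h1.tendsto.comp hm)
    have e : (Complex.log ((x - 1 : ℝ) : ℂ)).im = 0 := by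
      rw [← Complex.ofReal_log hx1.le, ofReal_im]
    rw [e] at h3
    exact h3

lemma QQ_bdd (hRH : RiemannHypothesis) {a b T : ℝ} (ha : 1/2 < a) : ∃ M : ℝ, 0 ≤ M ∧
    ∀ y t : ℝ, a ≤ y → y ≤ b → 0 ≤ t → t ≤ T → ‖QQ (y + t * I)‖ ≤ M := by
  have hcomp : IsCompact (Icc a b ×ℂ Icc 0 T) := isCompact_Icc.reProdIm isCompact_Icc
  obtain ⟨M, hM⟩ := hcomp.exists_bound_of_continuousOn (f := QQ) (by
    intro s hs
    rw [mem_reProdIm] at hs
    exact (QQ_diff hRH (by linarith [hs.1.1])).continuousAt.continuousWithinAt)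
  refine ⟨max M 0, le_max_right _ _, fun y t h1 h2 h3 h4 => ?_⟩
  refine (hM _ ?_).trans (le_max_left _ _)
  rw [mem_reProdIm]
  simp only [add_re, ofReal_re, mul_re, I_re, mul_zero, ofReal_im, I_im, mul_one, sub_self,
    add_zero, add_im, mul_im, zero_add]
  exact ⟨⟨h1, h2⟩, ⟨h3, h4⟩⟩

/-- limit of the argument -/
lemma LL1_im_lim (hRH : RiemannHypothesis) {x : ℝ} (hx : 1/2 < x) (hx1 : x ≠ 1) :
    Tendsto (fun t : ℝ => (LL 1 (x + t * I)).im) (𝓝[>] 0) (𝓝 (-(if x < 1 then Real.pi else 0))) := by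
  have h1 := LL1_two hRH
  have h2 := log_above hx1
  have h3 := log_above (x := 2) (by norm_num)
  rw [if_neg (by norm_num)] at h3
  have h4 : Tendsto (fun t : ℝ => (∫ y in x..2, QQ (y + t * I)).im) (𝓝[>] 0) (𝓝 0) := by
    obtain ⟨M, hM0, hM⟩ := QQ_bdd hRH (a := min x 2) (b := max x 2) (T := 1) (lt_min hx (by norm_num))
    have hy : ∀ y ∈ uIoc x 2, min x 2 ≤ y ∧ y ≤ max x 2 := by
      intro y hy
      have hy' : y ∈ Ioc (min x 2) (max x 2) := hy
      exact ⟨hy'.1.le, hy'.2⟩
    have h5 : Tendsto (fun t : ℝ => ∫ y in x..2, QQ (y + t * I)) (𝓝[>] 0) (𝓝 (∫ y in x..2, QQ (y : ℂ))) := by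
      refine intervalIntegral.tendsto_integral_filter_of_dominated_convergence (fun _ => M) ?_ ?_
        intervalIntegrable_const ?_
      · filter_upwards [self_mem_nhdsWithin] with t ht
        have ht' : (0:ℝ) < t := ht
        apply ContinuousOn.aestronglyMeasurable _ measurableSet_uIoc
        intro y hyy
        have h6 := (hy y hyy).1
        have h7 := QQ_diff hRH (s := (y : ℂ) + t * I) (by
          have e9 : ((y : ℂ) + t * I).re = y := by simp
          rw [e9]
          rcases le_total x 2 with h10 | h10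
          · rw [min_eq_left h10] at h6; linarith
          · rw [min_eq_right h10] at h6; linarith)
        exact (ContinuousAt.comp (f := fun y : ℝ => ((y : ℂ) + t * I)) h7.continuousAt (by fun_prop)).continuousWithinAt
      · have : ∀ᶠ t : ℝ in 𝓝[>] 0, t < 1 := nhdsWithin_le_nhds (Iio_mem_nhds one_pos)
        filter_upwards [self_mem_nhdsWithin, this] with t ht ht1
        have ht' : (0:ℝ) < t := ht
        refine Eventually.of_forall fun y hyy => ?_
        exact hM y t (hy y hyy).1 (hy y hyy).2 ht'.le ht1.le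
      · refine Eventually.of_forall fun y hyy => ?_
        have h6 := (hy y hyy).1
        have h12 : 1/2 < y := by
          rcases le_total x 2 with h10 | h10
          · rw [min_eq_left h10] at h6; linarith
          · rw [min_eq_right h10] at h6; linarith
        have h7 := (QQ_diff hRH (s := (y : ℂ)) (by simpa using h12)).continuousAt
        have h8 : ContinuousAt (fun t : ℝ => QQ ((y : ℂ) + t * I)) 0 := by
          refine ContinuousAt.comp (f := fun t : ℝ => ((y : ℂ) + t * I)) (g := QQ) ?_ (by fun_prop)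
          simpa using h7
        have h9 := h8.tendsto.mono_left (nhdsWithin_le_nhds (s := Ioi 0))
        simpa using h9
    have h6 := (Complex.continuous_im.tendsto _).comp h5
    have h7 : (∫ y in x..2, QQ (y : ℂ)).im = 0 := by
      rw [← Complex.conj_eq_iff_im]
      have h8 : (starRingEnd ℂ) (∫ y in x..2, QQ (y : ℂ)) = ∫ y in x..2, (starRingEnd ℂ) (QQ (y : ℂ)) := by
        rw [intervalIntegral, intervalIntegral, map_sub, integral_conj, integral_conj]
      rw [h8]
      congr 1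
      funext u
      rw [← QQ_conj, Complex.conj_ofReal]
    rw [h7] at h6
    exact h6
  have h5 := ((h1.sub h4).add h3).sub h2
  have e : (0:ℝ) - 0 + 0 - (if x < 1 then Real.pi else 0) = -(if x < 1 then Real.pi else 0) := by ring
  rw [e] at h5
  refine h5.congr' ?_
  filter_upwards [self_mem_nhdsWithin] with t ht
  rw [LL1_form hRH hx ht, Complex.sub_im, Complex.add_im, Complex.sub_im]
  norm_num

/-- limit of the real part -/
lemma LL1_re_lim (hRH : RiemannHypothesis) {x : ℝ} (hx : 1/2 < x) (hx1 : x ≠ 1) :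
    Tendsto (fun t : ℝ => (LL 1 (x + t * I)).re) (𝓝[>] 0) (𝓝 (Real.log ‖riemannZeta x‖)) := by
  have hne : (x : ℂ) ≠ 1 := by exact_mod_cast hx1
  have hz : riemannZeta x ≠ 0 := by
    rw [riemannZeta_eq_inv_sub_mul hne]
    exact mul_ne_zero (inv_ne_zero (sub_ne_zero.2 hne)) (z1_ne hRH (by simpa using hx))
  have h1 : ContinuousAt (fun t : ℝ => Real.log ‖riemannZeta ((x : ℂ) + t * I)‖) 0 := by
    have h2 : ContinuousAt (fun t : ℝ => riemannZeta ((x : ℂ) + t * I)) 0 := by
      refine ContinuousAt.comp (f := fun t : ℝ => ((x : ℂ) + t * I)) (g := riemannZeta) ?_ (by fun_prop)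
      simpa using (differentiableAt_riemannZeta hne).continuousAt
    apply h2.norm.log
    simpa using hz
  have h2 := h1.tendsto.mono_left (nhdsWithin_le_nhds (s := Ioi 0))
  simp only [ofReal_zero, zero_mul, add_zero] at h2
  refine h2.congr' ?_
  filter_upwards [self_mem_nhdsWithin] with t ht
  rw [LL1_re hRH (mem_DD hx ht)]

lemma norm_log_le (z : ℂ) : ‖Complex.log z‖ ≤ |Real.log ‖z‖| + Real.pi := by
  refine (Complex.norm_le_abs_re_add_abs_im _).trans ?_
  rw [Complex.log_re, Complex.log_im]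
  have := Complex.abs_arg_le_pi z
  linarith

/-- bound near the real axis -/
lemma LL1_bd (hRH : RiemannHypothesis) {a T : ℝ} (ha : 1/2 < a) : ∃ C : ℝ, 0 ≤ C ∧ ∀ s : ℂ,
    a ≤ s.re → s.re ≠ 1 → 0 < s.im → s.im ≤ T → ‖LL 1 s‖ ≤ C * ww s.re := by
  obtain ⟨C1, hC1, h1⟩ := LL1_right
  obtain ⟨M, hM0, hM⟩ := QQ_bdd hRH (a := a) (b := 2) (T := T) ha
  obtain ⟨K, hK⟩ : ∃ K : ℝ, K = C1 + 2 * M + 2 * (|Real.log (2 + |T|)| + Real.pi) := ⟨_, rfl⟩
  have hK0 : 0 ≤ K := by rw [hK]; positivity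
  refine ⟨max C1 (K * Real.exp 1 + 1), le_max_of_le_left hC1, fun s h2 h3 h4 h5 => ?_⟩
  rcases le_total (5/4) s.re with h6 | h6
  · refine (h1 s h6).trans ?_
    have : Real.exp (-(s.re / 2)) ≤ ww s.re := by unfold ww; linarith [lam_nonneg s.re]
    calc C1 * Real.exp (-(s.re / 2)) ≤ C1 * ww s.re := by gcongr
      _ ≤ _ := by
        have := ww_nonneg s.re
        gcongr
        exact le_max_left _ _
  · have hsx : (s.re : ℂ) + s.im * I = s := Complex.re_add_im s
    have hf := LL1_form hRH (x := s.re) (t := s.im) (by linarith) h4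
    rw [hsx] at hf
    have hT : s.im ≤ |T| := h5.trans (le_abs_self T)
    have hTa := abs_nonneg T
    have g1 : ‖LL 1 (((2 : ℝ) : ℂ) + s.im * I)‖ ≤ C1 := by
      refine (h1 _ (by simp; norm_num)).trans ?_
      have : Real.exp (-((((2 : ℝ) : ℂ) + s.im * I).re / 2)) ≤ 1 := by
        rw [Real.exp_le_one_iff]; simp
      nlinarith
    have g2 : ‖∫ y in s.re..2, QQ (y + s.im * I)‖ ≤ 2 * M := by
      have := intervalIntegral.norm_integral_le_of_norm_le_const (a := s.re) (b := 2) (C := M)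
        (f := fun y : ℝ => QQ (y + s.im * I)) (by
          intro y hy
          rw [uIoc_of_le (by linarith)] at hy
          exact hM y s.im (by linarith [hy.1]) hy.2 h4.le h5)
      rw [abs_of_nonneg (by linarith)] at this
      nlinarith
    have hlogT : 0 ≤ Real.log (2 + |T|) := Real.log_nonneg (by linarith)
    have g3 : ‖Complex.log (1 + s.im * I)‖ ≤ |Real.log (2 + |T|)| + Real.pi := by
      refine (norm_log_le _).trans ?_
      have g4 : 1 ≤ ‖(1:ℂ) + s.im * I‖ := by
        have := Complex.re_le_norm ((1:ℂ) + s.im * I)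
        simpa using this
      have g5 : ‖(1:ℂ) + s.im * I‖ ≤ 2 + |T| := by
        refine (norm_add_le _ _).trans ?_
        rw [norm_one, norm_mul, Complex.norm_I, mul_one, Complex.norm_real, Real.norm_eq_abs, abs_of_pos h4]
        linarith
      have g6 := Real.log_nonneg g4
      have g7 := Real.log_le_log (by linarith) g5
      rw [abs_of_nonneg g6, abs_of_nonneg hlogT]
      linarith
    have hsmall : |s.re - 1| < 1 := by rw [abs_lt]; constructor <;> linarith
    have hpos : 0 < |s.re - 1| := abs_pos.2 (sub_ne_zero.2 h3)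
    have g4 : ‖Complex.log (((s.re - 1 : ℝ) : ℂ) + s.im * I)‖ ≤ lam s.re + |Real.log (2 + |T|)| + Real.pi := by
      refine (norm_log_le _).trans ?_
      have g5 : |s.re - 1| ≤ ‖((s.re - 1 : ℝ) : ℂ) + s.im * I‖ := by
        have := Complex.abs_re_le_norm (((s.re - 1 : ℝ) : ℂ) + s.im * I)
        simpa using this
      have g6 : ‖((s.re - 1 : ℝ) : ℂ) + s.im * I‖ ≤ 2 + |T| := by
        refine (norm_add_le _ _).trans ?_
        rw [Complex.norm_real, norm_mul, Complex.norm_I, mul_one, Complex.norm_real, Real.norm_eq_abs, Real.norm_eq_abs, abs_of_pos h4]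
        linarith
      have g7 := Real.log_le_log (by linarith) g6
      have g8 := Real.log_le_log hpos g5
      have hl : lam s.re = -Real.log |s.re - 1| := by unfold lam; rw [if_pos hsmall]
      have hl0 := lam_nonneg s.re
      have : |Real.log ‖((s.re - 1 : ℝ) : ℂ) + s.im * I‖| ≤ lam s.re + |Real.log (2 + |T|)| := by
        rw [abs_le, abs_of_nonneg hlogT]
        constructor <;> linarith
      linarith
    have g5 : ‖LL 1 s‖ ≤ K + lam s.re := by
      rw [hf, hK]
      calc _ ≤ ‖LL 1 (((2 : ℝ) : ℂ) + s.im * I) - (∫ y in s.re..2, QQ (y + s.im * I)) + Complex.log (1 + s.im * I)‖ +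
            ‖Complex.log (((s.re - 1 : ℝ) : ℂ) + s.im * I)‖ := norm_sub_le _ _
        _ ≤ ‖LL 1 (((2 : ℝ) : ℂ) + s.im * I) - (∫ y in s.re..2, QQ (y + s.im * I))‖ + ‖Complex.log (1 + s.im * I)‖ +
            ‖Complex.log (((s.re - 1 : ℝ) : ℂ) + s.im * I)‖ := by gcongr; exact norm_add_le _ _
        _ ≤ ‖LL 1 (((2 : ℝ) : ℂ) + s.im * I)‖ + ‖∫ y in s.re..2, QQ (y + s.im * I)‖ + ‖Complex.log (1 + s.im * I)‖ +
            ‖Complex.log (((s.re - 1 : ℝ) : ℂ) + s.im * I)‖ := by gcongr; exact norm_sub_le _ _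
        _ ≤ _ := by linarith
    have g6 : K ≤ (K * Real.exp 1) * Real.exp (-(s.re / 2)) := by
      have : 1 ≤ Real.exp 1 * Real.exp (-(s.re / 2)) := by
        rw [← Real.exp_add]
        apply Real.one_le_exp
        linarith
      nlinarith
    have g7 : ‖LL 1 s‖ ≤ (K * Real.exp 1 + 1) * ww s.re := by
      unfold ww
      have := lam_nonneg s.re
      have h9 := Real.exp_pos (-(s.re / 2))
      have h10 := Real.exp_pos 1
      have : 0 ≤ K * Real.exp 1 * lam s.re := by positivity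
      nlinarith
    refine g7.trans ?_
    have := ww_nonneg s.re
    gcongr
    exact le_max_right _ _

end

end Pool.Agent.R305.SK
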