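import Pool.Agent.R305.SK.Fin

set_option autoImplicit false

/-! Sharp constants and mean values. -/

namespace Pool.Agent.R305.SK

open MeasureTheory Complex Filter Topology Set

noncomputable section

/-- the extremal node -/
lemma exists_node {n : ℕ} (hn : Even n) (hn0 : n ≠ 0) {ε : ℝ} (hε1 : ε = 1 ∨ ε = -1) :
    ∃ θ : ℝ, 0 < θ ∧ θ < 1 ∧ bernoulliFun n θ = 0 ∧
      ∀ v ∈ Icc (0:ℝ) 1, ε * bernoulliFun (n + 1) v ≤ ε * bernoulliFun (n + 1) θ := by
  have hcont : Continuous fun v : ℝ => ε * bernoulliFun (n + 1) v :=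
    continuous_const.mul (continuous_bernoulliFun (n + 1))
  have hε0 : ε ≠ 0 := by rcases hε1 with h | h <;> rw [h] <;> norm_num
  have hend : bernoulliFun (n + 1) 0 = 0 ∧ bernoulliFun (n + 1) 1 = 0 := by
    have h1 := bernoulliFun_endpoints_eq_of_ne_one (k := n + 1) (by omega)
    have h2 := bern_symm hn 0
    rw [sub_zero] at h2
    constructor <;> linarith
  have hint : ∃ θ : ℝ, 0 < θ ∧ θ < 1 ∧ ∀ v ∈ Icc (0:ℝ) 1, ε * bernoulliFun (n + 1) v ≤ ε * bernoulliFun (n + 1) θ := by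
    obtain ⟨θ, hθ, hmax⟩ := isCompact_Icc.exists_isMaxOn (s := Icc (0:ℝ) 1) ⟨0, by simp⟩ hcont.continuousOn
    by_cases h : 0 < θ ∧ θ < 1
    · exact ⟨θ, h.1, h.2, fun v hv => hmax hv⟩
    · have hθ' : θ = 0 ∨ θ = 1 := by
        rcases eq_or_lt_of_le hθ.1 with h1 | h1
        · left; exact h1.symm
        · right
          by_contra h2
          exact h ⟨h1, lt_of_le_of_ne hθ.2 h2⟩
      have hval : ε * bernoulliFun (n + 1) θ = 0 := by
        rcases hθ' with h1 | h1 <;> rw [h1]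
        · rw [hend.1, mul_zero]
        · rw [hend.2, mul_zero]
      have hle : ∀ v ∈ Icc (0:ℝ) 1, ε * bernoulliFun (n + 1) v ≤ 0 := fun v hv => by
        have : ε * bernoulliFun (n + 1) v ≤ ε * bernoulliFun (n + 1) θ := hmax hv
        rwa [hval] at this
      refine ⟨1/2, by norm_num, by norm_num, fun v hv => ?_⟩
      have h3 := hle v hv
      have h4 : bernoulliFun (n + 1) (1/2) = 0 := by
        have := bern_symm hn (1/2)
        norm_num at this
        linarith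
      norm_num at h4 ⊢
      rw [h4, mul_zero]
      exact h3
  obtain ⟨θ, h0, h1, hmax⟩ := hint
  refine ⟨θ, h0, h1, ?_, hmax⟩
  have hloc : IsLocalMax (fun v : ℝ => ε * bernoulliFun (n + 1) v) θ := by
    filter_upwards [Icc_mem_nhds h0 h1] with v hv
    exact hmax v hv
  have hd := (hasDerivAt_bernoulliFun (n + 1) θ).const_mul ε
  have h5 := hloc.hasDerivAt_eq_zero hd
  simp only [Nat.cast_add, Nat.cast_one, add_tsub_cancel_right, mul_eq_zero] at h5
  rcases h5 with h5 | h5 | h5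
  · exact absurd h5 hε0
  · exfalso
    have : (0:ℝ) ≤ n := Nat.cast_nonneg n
    linarith
  · exact h5

/-- one-sided asymptotic bound -/
theorem one_sided (hRH : RiemannHypothesis) {n : ℕ} (hn : Even n) (hn0 : n ≠ 0) {ε : ℝ} (hε1 : ε = 1 ∨ ε = -1)
    {θ : ℝ} (h0 : 0 < θ) (h1 : θ < 1) (hB : bernoulliFun n θ = 0)
    (hmax : ∀ v ∈ Icc (0:ℝ) 1, ε * bernoulliFun (n + 1) v ≤ ε * bernoulliFun (n + 1) θ)
    {η : ℝ} (hη : 0 < η) :
    ∀ᶠ t : ℝ in atTop, ε * Sn n t ≤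
      (Real.pi ^ n * (ε * bernoulliFun (n + 1) θ) / (2 * (n + 1).factorial) + η) *
        (Real.log t / (Real.log (Real.log t)) ^ (n + 1)) := by
  obtain ⟨A, hA⟩ : ∃ A : ℝ, A = Real.pi ^ n * (ε * bernoulliFun (n + 1) θ) / (2 * (n + 1).factorial) := ⟨_, rfl⟩
  rw [← hA]
  have hpi := Real.pi_pos
  have hfac : (0:ℝ) < (n + 1).factorial := by exact_mod_cast (n + 1).factorial_pos
  -- choose κ
  obtain ⟨κ, hκ0, hκ1, hκA⟩ : ∃ κ : ℝ, 0 < κ ∧ κ < 1 ∧ A / κ ^ (n + 1) < A + η := by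
    have hc : ContinuousAt (fun κ : ℝ => A / κ ^ (n + 1)) 1 := by
      apply ContinuousAt.div (by fun_prop) (by fun_prop)
      simp
    have hlt : A / (1:ℝ) ^ (n + 1) < A + η := by
      rw [one_pow, div_one]
      linarith
    have h2 : ∀ᶠ κ : ℝ in 𝓝 1, A / κ ^ (n + 1) < A + η := hc.tendsto.eventually (gt_mem_nhds hlt)
    have h3 : ∀ᶠ κ : ℝ in 𝓝[<] 1, A / κ ^ (n + 1) < A + η := nhdsWithin_le_nhds h2
    have h4 : ∀ᶠ κ : ℝ in 𝓝[<] 1, 0 < κ := nhdsWithin_le_nhds (Ioi_mem_nhds one_pos)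
    obtain ⟨κ, hk⟩ := (h3.and (h4.and self_mem_nhdsWithin)).exists
    exact ⟨κ, hk.2.1, hk.2.2, hk.1⟩
  obtain ⟨U, hU⟩ : ∃ U : ℝ, U = 1 / (1 + κ) := ⟨_, rfl⟩
  have hU2 : 1/2 < U := by
    rw [hU]
    apply one_div_lt_one_div_of_lt (by linarith) (by linarith)
  have hU1 : U ≤ 1 := by
    rw [hU, div_le_one (by linarith)]
    linarith
  obtain ⟨C, hC, hS⟩ := Sn_bound hRH h0 h1 hn hn0 hB hε1 hmax hU2 hU1
  obtain ⟨ρ, hρ⟩ : ∃ ρ : ℝ, ρ = 2 * κ * U := ⟨_, rfl⟩
  have hρ1 : ρ < 1 := by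
    rw [hρ, hU]
    rw [mul_one_div, div_lt_one (by linarith)]
    linarith
  -- the ratio
  have hlim : Tendsto (fun L : ℝ => A / κ ^ (n + 1) + C * (Real.pi / κ) ^ (n + 1) * L ^ (ρ - 1) +
      C * ((Real.log L) ^ (n + 1) / L)) atTop (𝓝 (A / κ ^ (n + 1) + C * (Real.pi / κ) ^ (n + 1) * 0 + C * 0)) := by
    apply Tendsto.add
    · apply Tendsto.add tendsto_const_nhds
      apply Tendsto.const_mul
      have := tendsto_rpow_neg_atTop (y := 1 - ρ) (by linarith)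
      rwa [neg_sub] at this
    · apply Tendsto.const_mul
      have := Real.isLittleO_pow_log_id_atTop (n := n + 1)
      exact this.tendsto_div_nhds_zero
  rw [mul_zero, mul_zero, add_zero, add_zero] at hlim
  have hev := (hlim.comp Real.tendsto_log_atTop).eventually (gt_mem_nhds hκA)
  have hLL : Tendsto (fun t : ℝ => Real.log (Real.log t)) atTop atTop :=
    Real.tendsto_log_atTop.comp Real.tendsto_log_atTop
  filter_upwards [hev, eventually_ge_atTop (2:ℝ), hLL.eventually_ge_atTop (Real.pi / κ),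
    Real.tendsto_log_atTop.eventually_gt_atTop 0] with t h2 h3 h4 h5
  obtain ⟨L, hL⟩ : ∃ L : ℝ, L = Real.log t := ⟨_, rfl⟩
  obtain ⟨l, hl⟩ : ∃ l : ℝ, l = Real.log L := ⟨_, rfl⟩
  simp only [Function.comp_apply] at h2
  rw [← hL] at h2 h4 h5 ⊢
  rw [← hl] at h2 h4 ⊢
  have hl0 : 0 < l := lt_of_lt_of_le (by positivity) h4
  have hΔ : 1 ≤ κ * l / Real.pi := by
    rw [le_div_iff₀ hpi, one_mul]
    rw [div_le_iff₀ hκ0] at h4
    linarith
  have h6 := hS t h3 (κ * l / Real.pi) hΔ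
  rw [← hL] at h6
  have e1 : Real.exp (2 * Real.pi * (κ * l / Real.pi) * U) = L ^ ρ := by
    rw [Real.rpow_def_of_pos h5, ← hl, hρ]
    congr 1
    field_simp
  rw [e1] at h6
  have e2 : (ε * bernoulliFun (n + 1) θ) / (2 * Real.pi * (n + 1).factorial) * L / (κ * l / Real.pi) ^ (n + 1) =
      A / κ ^ (n + 1) * (L / l ^ (n + 1)) := by
    rw [hA, div_pow, mul_pow]
    field_simp
    ring
  have e3 : C * L ^ ρ / (κ * l / Real.pi) ^ (n + 1) =
      C * (Real.pi / κ) ^ (n + 1) * L ^ (ρ - 1) * (L / l ^ (n + 1)) := by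
    rw [Real.rpow_sub_one h5.ne', div_pow, div_pow, mul_pow]
    field_simp
  have e4 : C = C * (l ^ (n + 1) / L) * (L / l ^ (n + 1)) := by
    field_simp
  have e5 : A / κ ^ (n + 1) * (L / l ^ (n + 1)) + C * (Real.pi / κ) ^ (n + 1) * L ^ (ρ - 1) * (L / l ^ (n + 1)) +
      C * (l ^ (n + 1) / L) * (L / l ^ (n + 1)) = (A / κ ^ (n + 1) + C * (Real.pi / κ) ^ (n + 1) * L ^ (ρ - 1) +
        C * (l ^ (n + 1) / L)) * (L / l ^ (n + 1)) := by ring
  have hpos : 0 < L / l ^ (n + 1) := by positivity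
  calc ε * Sn n t ≤ _ := h6
    _ = A / κ ^ (n + 1) * (L / l ^ (n + 1)) + C * (Real.pi / κ) ^ (n + 1) * L ^ (ρ - 1) * (L / l ^ (n + 1)) +
        C * (l ^ (n + 1) / L) * (L / l ^ (n + 1)) := by rw [e2, e3, ← e4]
    _ = _ := e5
    _ ≤ _ := by gcongr

/-- mean value zero -/
theorem mean_zero (hRH : RiemannHypothesis) (n : ℕ) :
    Tendsto (fun T : ℝ => 1 / T * ∫ t in (0:ℝ)..T, Sn n t) atTop (𝓝 0) := by
  obtain ⟨C, hC, h⟩ := Sn_crude hRH n
  have h1 : Tendsto (fun T : ℝ => (C * (1 + Real.log (2 + T)) + |del (n + 1)|) / T) atTop (𝓝 0) := by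
    have h2 : Tendsto (fun T : ℝ => Real.log (2 + T) / T) atTop (𝓝 0) := by
      have h3 : Tendsto (fun T : ℝ => Real.log (2 + T) / (2 + T)) atTop (𝓝 0) := by
        have h4 : Tendsto (fun T : ℝ => 2 + T) atTop atTop := tendsto_atTop_add_const_left _ _ tendsto_id
        have h5 := Real.isLittleO_pow_log_id_atTop (n := 1)
        simp only [pow_one] at h5
        exact h5.tendsto_div_nhds_zero.comp h4
      have h6 : Tendsto (fun T : ℝ => (2 + T) / T) atTop (𝓝 1) := by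
        have h7 : Tendsto (fun T : ℝ => 2 * T⁻¹ + 1) atTop (𝓝 (2 * 0 + 1)) :=
          (tendsto_inv_atTop_zero.const_mul 2).add_const 1
        rw [mul_zero, zero_add] at h7
        refine h7.congr' ?_
        filter_upwards [eventually_gt_atTop (0:ℝ)] with T hT
        field_simp
      have h8 := h3.mul h6
      rw [zero_mul] at h8
      refine h8.congr' ?_
      filter_upwards [eventually_gt_atTop (0:ℝ)] with T hT
      have : 2 + T ≠ 0 := by linarith
      field_simp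
    have h9 : Tendsto (fun T : ℝ => C * (Real.log (2 + T) / T) + (C + |del (n + 1)|) * T⁻¹) atTop
        (𝓝 (C * 0 + (C + |del (n + 1)|) * 0)) :=
      (h2.const_mul C).add (tendsto_inv_atTop_zero.const_mul _)
    rw [mul_zero, mul_zero, add_zero] at h9
    refine h9.congr' ?_
    filter_upwards [eventually_gt_atTop (0:ℝ)] with T hT
    field_simp
    ring
  refine squeeze_zero_norm' ?_ h1
  filter_upwards [eventually_ge_atTop (2:ℝ)] with T hT
  have e : ∫ t in (0:ℝ)..T, Sn n t = Sn (n + 1) T - del (n + 1) := by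
    show _ = ((∫ u in (0:ℝ)..T, Sn n u) + del (n + 1)) - del (n + 1)
    ring
  rw [e, norm_mul, Real.norm_eq_abs, Real.norm_eq_abs, abs_of_pos (by positivity : 0 < 1 / T)]
  have h2 := h T hT
  have h3 : |Sn (n + 1) T - del (n + 1)| ≤ C * (1 + Real.log (2 + T)) + |del (n + 1)| := by
    have := abs_sub (Sn (n + 1) T) (del (n + 1))
    linarith
  rw [one_div, inv_mul_eq_div]
  gcongr

/-- the two-sided bound -/
theorem two_sided (hRH : RiemannHypothesis) {n : ℕ} (hn : Even n) (hn2 : 2 ≤ n) {η : ℝ} (hη : 0 < η) :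
    ∀ᶠ t : ℝ in atTop,
      -(Real.pi ^ n * sSup (bernoulliFun (n + 1) '' Icc 0 1) / (2 * (n + 1).factorial) + η) *
        (Real.log t / (Real.log (Real.log t)) ^ (n + 1)) ≤ Sn n t ∧
      Sn n t ≤ (-(Real.pi ^ n * sInf (bernoulliFun (n + 1) '' Icc 0 1)) / (2 * (n + 1).factorial) + η) *
        (Real.log t / (Real.log (Real.log t)) ^ (n + 1)) := by
  have hn0 : n ≠ 0 := by omega
  obtain ⟨θ1, a0, a1, aB, amax⟩ := exists_node hn hn0 (ε := 1) (Or.inl rfl)
  obtain ⟨θ2, b0, b1, bB, bmax⟩ := exists_node hn hn0 (ε := -1) (Or.inr rfl)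
  have hup := one_sided hRH hn hn0 (ε := 1) (Or.inl rfl) a0 a1 aB amax hη
  have hlo := one_sided hRH hn hn0 (ε := -1) (Or.inr rfl) b0 b1 bB bmax hη
  simp only [one_mul] at amax hup
  have hgr : IsGreatest (bernoulliFun (n + 1) '' Icc 0 1) (bernoulliFun (n + 1) θ1) := by
    refine ⟨⟨θ1, ⟨a0.le, a1.le⟩, rfl⟩, ?_⟩
    rintro _ ⟨v, hv, rfl⟩
    exact amax v hv
  have hle : IsLeast (bernoulliFun (n + 1) '' Icc 0 1) (-bernoulliFun (n + 1) θ1) := by
    refine ⟨⟨1 - θ1, ⟨by linarith, by linarith⟩, bern_symm hn θ1⟩, ?_⟩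
    rintro _ ⟨v, hv, rfl⟩
    have h1 := amax (1 - v) ⟨by linarith [hv.2], by linarith [hv.1]⟩
    rw [bern_symm hn v] at h1
    linarith
  have hle2 : IsLeast (bernoulliFun (n + 1) '' Icc 0 1) (bernoulliFun (n + 1) θ2) := by
    refine ⟨⟨θ2, ⟨b0.le, b1.le⟩, rfl⟩, ?_⟩
    rintro _ ⟨v, hv, rfl⟩
    have h1 := bmax v hv
    linarith
  rw [hgr.csSup_eq, hle.csInf_eq]
  have e2 : -1 * bernoulliFun (n + 1) θ2 = bernoulliFun (n + 1) θ1 := by
    have := hle2.unique hle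
    linarith
  rw [e2] at hlo
  have e1 : -(Real.pi ^ n * -bernoulliFun (n + 1) θ1) = Real.pi ^ n * bernoulliFun (n + 1) θ1 := by ring
  rw [e1]
  filter_upwards [hup, hlo] with t h1 h2
  constructor
  · linarith
  · exact h1

/-- the bounds with the sharp constants -/
theorem main_bound (hRH : RiemannHypothesis) {n : ℕ} (hn : Even n) (hn2 : 2 ≤ n) {ε : ℝ} (hε : 0 < ε) :
    ∀ᶠ t : ℝ in atTop, -(Aminus n + ε) * Lam n t ≤ Sn n t ∧ Sn n t ≤ (Aplus n + ε) * Lam n t :=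
  two_sided hRH hn hn2 hε

end

end Pool.Agent.R305.SK
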