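import Pool.Agent.R305.SK.LLk

set_option autoImplicit false

/-! The functions `S_n` as limits. -/

namespace Pool.Agent.R305.SK

open MeasureTheory Complex Filter Topology Set

noncomputable section

/-- the approximations -/
def TT (n : ℕ) (x t : ℝ) : ℝ := 1 / Real.pi * (I ^ n * LL (n + 1) ((x : ℂ) + t * I)).im

def dd (n : ℕ) (x : ℝ) : ℝ := 1 / Real.pi * (I ^ n * el n x).im

lemma line_bd (hRH : RiemannHypothesis) (n : ℕ) {x T : ℝ} (hx : 1/2 < x) (hx1 : x ≠ 1) :
    ∃ C : ℝ, 0 ≤ C ∧ ∀ y : ℝ, 0 < y → y ≤ T → ‖LL (n + 1) ((x : ℂ) + y * I)‖ ≤ C := by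
  obtain ⟨C, hC, h⟩ := LL_bd hRH n x T hx
  refine ⟨C * ww x, mul_nonneg hC (ww_nonneg x), fun y h1 h2 => ?_⟩
  have := h ((x : ℂ) + y * I) (by simp) (by simpa using hx1) (by simpa using h1) (by simpa using h2)
  simpa using this

lemma vline_cont (hRH : RiemannHypothesis) (n : ℕ) {x : ℝ} (hx : 1/2 < x) :
    ContinuousOn (fun y : ℝ => LL n ((x : ℂ) + y * I)) (Ioi 0) := by
  intro y hy
  have h3 := (LL_adm hRH n).1 _ (mem_DD (x := x) (t := y) hx hy)
  exact (ContinuousAt.comp (f := fun y : ℝ => (x + y * I : ℂ)) h3.continuousAt (by fun_prop)).continuousWithinAt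

lemma vline_int (hRH : RiemannHypothesis) (n : ℕ) {x t : ℝ} (hx : 1/2 < x) (hx1 : x ≠ 1) (ht : 0 ≤ t) :
    IntervalIntegrable (fun y : ℝ => LL (n + 1) ((x : ℂ) + y * I)) volume 0 t := by
  obtain ⟨C, hC, h⟩ := line_bd hRH n (T := t) hx hx1
  rw [intervalIntegrable_iff_integrableOn_Ioc_of_le ht]
  refine Integrable.mono' (integrableOn_const (C := C) (by simp) (by simp)) ?_ ?_
  · exact ((vline_cont hRH (n + 1) hx).mono Ioc_subset_Ioi_self).aestronglyMeasurable measurableSet_Ioc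
  · exact (ae_restrict_mem measurableSet_Ioc).mono fun y hy => h y hy.1 hy.2

lemma int_from_zero {E : Type*} [NormedAddCommGroup E] [NormedSpace ℝ E] {g : ℝ → E} {t : ℝ} (ht : 0 < t)
    (hg : IntervalIntegrable g volume 0 t) :
    Tendsto (fun s : ℝ => ∫ y in s..t, g y) (𝓝[>] 0) (𝓝 (∫ y in (0:ℝ)..t, g y)) := by
  have h1 : IntegrableOn g (uIcc t 0) := by
    rw [uIcc_of_ge ht.le, integrableOn_Icc_iff_integrableOn_Ioc]
    exact (intervalIntegrable_iff_integrableOn_Ioc_of_le ht.le).1 hg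
  have h2 := intervalIntegral.continuousOn_primitive_interval h1
  rw [uIcc_of_ge ht.le] at h2
  have h3 := (h2 0 ⟨le_rfl, ht.le⟩).tendsto
  have h4 : Tendsto (fun s : ℝ => ∫ y in t..s, g y) (𝓝[>] 0) (𝓝 (∫ y in t..0, g y)) := by
    refine h3.mono_left ?_
    rw [nhdsWithin_le_iff]
    exact Icc_mem_nhdsGT ht
  have h5 := h4.neg
  rw [← intervalIntegral.integral_symm] at h5
  refine h5.congr fun s => ?_
  rw [← intervalIntegral.integral_symm]

lemma LL_zero_form (hRH : RiemannHypothesis) (n : ℕ) {x t : ℝ} (hx : 1/2 < x) (hx1 : x ≠ 1) (ht : 0 < t) :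
    LL (n + 2) ((x : ℂ) + t * I) = el (n + 1) x - I * ∫ y in (0:ℝ)..t, LL (n + 1) ((x : ℂ) + y * I) := by
  have h1 := LL_lim hRH (n + 1) x hx hx1
  have h2 := int_from_zero ht (vline_int hRH n hx hx1 ht.le)
  have h3 := h1.sub (h2.const_mul I)
  have h4 : Tendsto (fun s : ℝ => LL (n + 1 + 1) ((x : ℂ) + s * I) - I * ∫ y in s..t, LL (n + 1) ((x : ℂ) + y * I))
      (𝓝[>] 0) (𝓝 (LL (n + 2) ((x : ℂ) + t * I))) := by
    refine Tendsto.congr' ?_ tendsto_const_nhds
    filter_upwards [self_mem_nhdsWithin, nhdsWithin_le_nhds (Iic_mem_nhds ht)] with s hs hst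
    have h5 := LL_vert hRH (n + 1) hx (t1 := s) (t2 := t) hs hst
    linear_combination h5
  exact tendsto_nhds_unique h4 h3

lemma TT_succ (hRH : RiemannHypothesis) (n : ℕ) {x t : ℝ} (hx : 1/2 < x) (hx1 : x ≠ 1) (ht : 0 < t) :
    TT (n + 1) x t = (∫ y in (0:ℝ)..t, TT n x y) + dd (n + 1) x := by
  have h1 := LL_zero_form hRH n hx hx1 ht
  have hint := vline_int hRH n hx hx1 ht.le
  have h2 : ∫ y in (0:ℝ)..t, TT n x y = 1 / Real.pi * (I ^ n * ∫ y in (0:ℝ)..t, LL (n + 1) ((x : ℂ) + y * I)).im := by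
    unfold TT
    rw [intervalIntegral.integral_const_mul, ← intervalIntegral.integral_const_mul]
    have h3 := Complex.imCLM.intervalIntegral_comp_comm (hint.const_mul (I ^ n))
    simpa using h3
  rw [h2]
  unfold TT dd
  rw [h1, ← mul_add, ← Complex.add_im]
  congr 2
  have : I ^ (n + 1) * I = -I ^ n := by
    rw [pow_succ, mul_assoc, I_mul_I]; ring
  linear_combination (-(∫ y in (0:ℝ)..t, LL (n + 1) ((x : ℂ) + y * I))) * this

lemma dd_val {n : ℕ} {x : ℝ} (hx : 1/2 < x) (hx1 : x < 1) : dd n x =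
    if Even n then (-1) ^ (n / 2 + 1) * ((1 - x) ^ n / n.factorial) else (-1) ^ (n / 2) / Real.pi * J n x := by
  have hP := PW_eq n x hx
  rw [if_pos hx1] at hP
  unfold dd el
  rw [hP]
  split_ifs with h
  · obtain ⟨k, hk⟩ := h
    have hk2 : n / 2 = k := by omega
    have e : I ^ n = (((-1 : ℝ) ^ k : ℝ) : ℂ) := by
      rw [hk, ← two_mul, pow_mul, I_sq]
      push_cast
      rfl
    rw [e, hk2, Complex.im_ofReal_mul]
    simp only [sub_im, ofReal_im, mul_im, ofReal_re, I_im, mul_one, I_re, mul_zero, add_zero, zero_sub]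
    field_simp [Real.pi_ne_zero]
    ring
  · rw [Nat.not_even_iff_odd] at h
    obtain ⟨k, hk⟩ := h
    have hk2 : n / 2 = k := by omega
    have e : I ^ n = (((-1 : ℝ) ^ k : ℝ) : ℂ) * I := by
      rw [hk, pow_succ, pow_mul, I_sq]
      push_cast
      rfl
    rw [e, hk2, mul_assoc, Complex.im_ofReal_mul]
    simp only [sub_re, sub_im, ofReal_im, mul_im, mul_re, ofReal_re, I_im, mul_one, I_re, mul_zero, add_zero, zero_sub,
      zero_mul, sub_zero, one_mul, zero_add]
    field_simp [Real.pi_ne_zero]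

lemma dd_lim (hRH : RiemannHypothesis) (n : ℕ) : Tendsto (dd (n + 1)) (𝓝[>] (1/2)) (𝓝 (del (n + 1))) := by
  have hev : ∀ᶠ x : ℝ in 𝓝[>] (1/2), 1/2 < x ∧ x < 1 := by
    filter_upwards [self_mem_nhdsWithin, nhdsWithin_le_nhds (Iio_mem_nhds (by norm_num : (1/2:ℝ) < 1))] with x h1 h2
    exact ⟨h1, h2⟩
  unfold del
  split_ifs with h
  · have hc : ContinuousAt (fun x : ℝ => (-1 : ℝ) ^ ((n + 1) / 2 + 1) * ((1 - x) ^ (n + 1) / (n + 1).factorial)) (1/2) := by
      fun_prop
    have h1 := hc.tendsto.mono_left (nhdsWithin_le_nhds (s := Ioi (1/2)))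
    have e : (-1 : ℝ) ^ ((n + 1) / 2 + 1) * ((1 - 1/2) ^ (n + 1) / (n + 1).factorial) =
        (-1) ^ ((n + 1) / 2 - 1) / (((n + 1).factorial : ℝ) * 2 ^ (n + 1)) := by
      obtain ⟨k, hk⟩ := h
      have hk2 : (n + 1) / 2 = k := by omega
      have hk1 : 1 ≤ k := by omega
      obtain ⟨j, rfl⟩ : ∃ j, k = j + 1 := ⟨k - 1, by omega⟩
      rw [hk2, add_tsub_cancel_right]
      have e1 : (-1 : ℝ) ^ (j + 1 + 1) = (-1) ^ j := by ring
      rw [e1]
      have e2 : (1 - 1/2 : ℝ) ^ (n + 1) = 1 / 2 ^ (n + 1) := by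
        rw [← one_div_pow]; norm_num
      rw [e2]
      field_simp
    rw [e] at h1
    refine h1.congr' ?_
    filter_upwards [hev] with x hx
    rw [dd_val hx.1 hx.2, if_pos h]
  · have h1 := (J_cont hRH n).const_mul ((-1) ^ ((n + 1) / 2) / Real.pi)
    refine h1.congr' ?_
    filter_upwards [hev] with x hx
    rw [dd_val hx.1 hx.2, if_neg h]

/-- almost no ordinate is a zero -/
lemma zeros_ae : ∀ᵐ t : ℝ, riemannZeta (((1/2 : ℝ) : ℂ) + t * I) ≠ 0 := by
  have hzc : riemannZetaZeros.Countable := by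
    have h2 : riemannZetaZeros = ⋃ m : ℕ, (Metric.closedBall (0:ℂ) m ∩ riemannZetaZeros) := by
      ext x
      simp only [Set.mem_iUnion, Set.mem_inter_iff, Metric.mem_closedBall, dist_zero_right]
      constructor
      · intro hx
        obtain ⟨m, hm⟩ := exists_nat_ge ‖x‖
        exact ⟨m, hm, hx⟩
      · rintro ⟨m, -, hx⟩
        exact hx
    rw [h2]
    exact Set.countable_iUnion fun m => ((isCompact_closedBall (0:ℂ) m).inter_riemannZetaZeros_finite).countable
  have h3 : {t : ℝ | riemannZeta (((1/2 : ℝ) : ℂ) + t * I) = 0} ⊆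
      (fun t : ℝ => (((1/2 : ℝ) : ℂ) + t * I : ℂ)) ⁻¹' riemannZetaZeros := fun t ht => ht
  have h1 : {t : ℝ | riemannZeta (((1/2 : ℝ) : ℂ) + t * I) = 0}.Countable := by
    refine Set.Countable.mono h3 (hzc.preimage_of_injOn fun t _ u _ htu => ?_)
    have h4 := congrArg Complex.im htu
    simp at h4
    linarith
  filter_upwards [measure_eq_zero_iff_ae_notMem.mp (h1.measure_zero volume)] with t ht
  exact ht

lemma S_eq (hRH : RiemannHypothesis) {t : ℝ} (ht : 0 < t) (h : riemannZeta (((1/2 : ℝ) : ℂ) + t * I) ≠ 0) :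
    Sfun t = Sarg t := by
  unfold Sfun
  rw [if_neg]
  rintro ⟨s, hs, him⟩
  apply h
  have hre := hRH s hs (by
    rintro ⟨n, hn⟩
    rw [hn] at him
    simp at him
    linarith) (by
    rintro rfl
    simp at him
    linarith)
  have e : (((1/2 : ℝ) : ℂ) + t * I) = s := by
    apply Complex.ext
    · simp [hre]
    · simp [him]
  rw [e]
  exact hs

/-- the horizontal formula -/
lemma TT_zero (hRH : RiemannHypothesis) {x t : ℝ} (hx : 1/2 < x) (ht : 0 < t) :
    TT 0 x t = 1 / Real.pi * ((∫ u in (0:ℝ)..t, (logDeriv riemannZeta ((2 : ℂ) + u * I)).re) -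
      ∫ y in x..2, (logDeriv riemannZeta ((y : ℂ) + t * I)).im) := by
  -- horizontal part
  have hy : ∀ y ∈ uIcc x 2, 1/2 < y := by
    intro y hy
    rcases le_total x 2 with h | h
    · rw [uIcc_of_le h] at hy; linarith [hy.1]
    · rw [uIcc_of_ge h] at hy; linarith [hy.1]
  have hd : ∀ y ∈ uIcc x 2, HasDerivAt (fun y : ℝ => LL 1 ((y : ℂ) + t * I)) (ZZ (y + t * I)) y := by
    intro y hyy
    have h1 := LL_deriv hRH 0 (mem_DD (hy y hyy) ht)
    have h2 : HasDerivAt (fun y : ℝ => ((y : ℂ) + t * I)) 1 y := by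
      have := (Complex.ofRealCLM.hasDerivAt (x := y)).add_const ((t : ℂ) * I)
      simpa using this
    have h3 := HasDerivAt.comp y h1 h2
    refine h3.congr_deriv ?_
    have h8 : LL 0 ((y : ℂ) + t * I) = -ZZ (y + t * I) := rfl
    rw [h8]
    ring
  have hc : ContinuousOn (fun y : ℝ => ZZ ((y : ℂ) + t * I)) (uIcc x 2) := by
    intro y hyy
    have h3 := ZZ_diff hRH (s := (y : ℂ) + t * I) (by simpa using hy y hyy) (ne_one_of_im (by simpa using ht))
    exact (ContinuousAt.comp (f := fun y : ℝ => ((y : ℂ) + t * I)) h3.continuousAt (by fun_prop)).continuousWithinAt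
  have h1 := intervalIntegral.integral_eq_sub_of_hasDerivAt hd hc.intervalIntegrable
  have h2 : ∫ y in x..2, (ZZ ((y : ℂ) + t * I)).im = (LL 1 (((2:ℝ) : ℂ) + t * I)).im - (LL 1 ((x : ℂ) + t * I)).im := by
    have h3 := Complex.imCLM.intervalIntegral_comp_comm (hc.intervalIntegrable (μ := volume))
    simp only [Complex.imCLM_apply] at h3
    rw [h3, h1, Complex.sub_im]
  -- vertical part
  obtain ⟨C1, hC1, hb⟩ := ZZ_bd (δ := 1/4) (by norm_num)
  have hcv : ContinuousOn (fun y : ℝ => ZZ (((2:ℝ) : ℂ) + y * I)) univ := by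
    intro y _
    have h3 := ZZ_diff hRH (s := ((2:ℝ) : ℂ) + y * I) (by simp; norm_num) (by
      intro h4
      have := congrArg Complex.re h4
      simp at this)
    exact (ContinuousAt.comp (f := fun y : ℝ => (((2:ℝ) : ℂ) + y * I)) h3.continuousAt (by fun_prop)).continuousWithinAt
  rw [continuousOn_univ] at hcv
  have h4 : (LL 1 (((2:ℝ) : ℂ) + t * I)).im = ∫ y in (0:ℝ)..t, (ZZ (((2:ℝ) : ℂ) + y * I)).re := by
    have l1 := LL1_two hRH
    have l2 := int_from_zero ht (hcv.intervalIntegrable (μ := volume) 0 t)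
    have l3 := l1.add ((Complex.continuous_re.tendsto _).comp l2)
    rw [zero_add] at l3
    have l4 : Tendsto (fun s : ℝ => (LL 1 (((2:ℝ) : ℂ) + s * I)).im + (∫ y in s..t, ZZ (((2:ℝ) : ℂ) + y * I)).re)
        (𝓝[>] 0) (𝓝 ((LL 1 (((2:ℝ) : ℂ) + t * I)).im)) := by
      refine Tendsto.congr' ?_ tendsto_const_nhds
      filter_upwards [self_mem_nhdsWithin, nhdsWithin_le_nhds (Iic_mem_nhds ht)] with s hs hst
      have h5 := LL_vert hRH 0 (x := 2) (by norm_num) (t1 := s) (t2 := t) hs hst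
      have h6 : ∫ y in s..t, LL 0 (((2:ℝ) : ℂ) + y * I) = -∫ y in s..t, ZZ (((2:ℝ) : ℂ) + y * I) := by
        rw [← intervalIntegral.integral_neg]
        rfl
      rw [h6] at h5
      have h7 := congrArg Complex.im h5
      simp only [zero_add, sub_im, mul_neg, neg_neg, mul_im, I_re, zero_mul, I_im, one_mul] at h7
      linarith
    have l5 := tendsto_nhds_unique l4 l3
    rw [l5]
    have h3 := Complex.reCLM.intervalIntegral_comp_comm (hcv.intervalIntegrable (μ := volume) 0 t)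
    simp only [Complex.reCLM_apply] at h3
    exact h3.symm
  -- logarithmic derivative
  have e1 : ∫ y in x..2, (logDeriv riemannZeta ((y : ℂ) + t * I)).im = ∫ y in x..2, (ZZ ((y : ℂ) + t * I)).im := by
    apply intervalIntegral.integral_congr
    intro y hyy
    simp only
    rw [ZZ_eq (ne_one_of_im (by simpa using ht)) (z1_ne hRH (by simpa using hy y hyy))]
  have e2 : ∫ u in (0:ℝ)..t, (logDeriv riemannZeta ((2 : ℂ) + u * I)).re = ∫ y in (0:ℝ)..t, (ZZ (((2:ℝ) : ℂ) + y * I)).re := by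
    apply intervalIntegral.integral_congr
    intro y hyy
    have e3 : (((2:ℝ) : ℂ) + y * I) = (2 : ℂ) + y * I := by push_cast; rfl
    simp only
    rw [e3, ZZ_eq (by
      intro h4
      have := congrArg Complex.re h4
      simp at this) (z1_ne hRH (by simp; norm_num))]
  rw [e1, e2, h2, ← h4]
  unfold TT
  rw [pow_zero, one_mul]
  norm_num

end

end Pool.Agent.R305.SK
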