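import Pool.Agent.R305.SK.ST

set_option autoImplicit false

/-! The functions `S_n` as limits: convergence. -/

namespace Pool.Agent.R305.SK

open MeasureTheory Complex Filter Topology Set

noncomputable section

lemma near_half : ∀ᶠ x : ℝ in 𝓝[>] (1/2), 1/2 < x ∧ x ≤ 3/4 := by
  filter_upwards [self_mem_nhdsWithin, nhdsWithin_le_nhds (Iic_mem_nhds (by norm_num : (1/2:ℝ) < 3/4))] with x h1 h2
  exact ⟨h1, h2⟩

lemma TT_zero_lim (hRH : RiemannHypothesis) {t : ℝ} (ht : 0 < t)
    (hz : riemannZeta (((1/2 : ℝ) : ℂ) + t * I) ≠ 0) :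
    Tendsto (fun x => TT 0 x t) (𝓝[>] (1/2)) (𝓝 (Sfun t)) := by
  rw [S_eq hRH ht hz]
  have hc : ContinuousOn (fun y : ℝ => (logDeriv riemannZeta ((y : ℂ) + t * I)).im) (Icc (1/2) 2) := by
    intro y hy
    have hne : ((y : ℂ) + t * I) ≠ 1 := ne_one_of_im (by simpa using ht)
    have hzy : riemannZeta ((y : ℂ) + t * I) ≠ 0 := by
      rcases eq_or_lt_of_le hy.1 with h | h
      · rw [← h]; exact hz
      · rw [riemannZeta_eq_inv_sub_mul hne]
        exact mul_ne_zero (inv_ne_zero (sub_ne_zero.2 hne)) (z1_ne hRH (by simpa using h))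
    have hd : DifferentiableOn ℂ riemannZeta ({1}ᶜ : Set ℂ) := fun w hw =>
      (differentiableAt_riemannZeta hw).differentiableWithinAt
    have h1 : DifferentiableAt ℂ (deriv riemannZeta) ((y : ℂ) + t * I) :=
      (hd.analyticAt (isOpen_compl_singleton.mem_nhds hne)).deriv.differentiableAt
    have h2 : ContinuousAt (logDeriv riemannZeta) ((y : ℂ) + t * I) := by
      unfold logDeriv
      exact (h1.div (differentiableAt_riemannZeta hne) hzy).continuousAt
    have h3 : ContinuousAt (fun y : ℝ => logDeriv riemannZeta ((y : ℂ) + t * I)) y :=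
      ContinuousAt.comp (f := fun y : ℝ => ((y : ℂ) + t * I)) h2 (by fun_prop)
    exact (Complex.continuous_im.continuousAt.comp h3).continuousWithinAt
  obtain ⟨g, hg⟩ : ∃ g : ℝ → ℝ, g = fun y : ℝ => (logDeriv riemannZeta ((y : ℂ) + t * I)).im := ⟨_, rfl⟩
  rw [← hg] at hc
  have h1 : IntegrableOn g (uIcc 2 (1/2)) := by
    rw [uIcc_of_ge (by norm_num)]
    exact hc.integrableOn_Icc
  have h2 := intervalIntegral.continuousOn_primitive_interval h1
  rw [uIcc_of_ge (by norm_num)] at h2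
  have h3 := (h2 (1/2) ⟨le_rfl, by norm_num⟩).tendsto
  have h4 : Tendsto (fun s : ℝ => ∫ y in (2:ℝ)..s, g y) (𝓝[>] (1/2)) (𝓝 (∫ y in (2:ℝ)..(1/2), g y)) := by
    refine h3.mono_left ?_
    rw [nhdsWithin_le_iff]
    exact Icc_mem_nhdsGT (by norm_num)
  obtain ⟨A, hA⟩ : ∃ A : ℝ, A = ∫ u in (0:ℝ)..t, (logDeriv riemannZeta ((2 : ℂ) + u * I)).re := ⟨_, rfl⟩
  have h5 : Tendsto (fun x : ℝ => 1 / Real.pi * (A - ∫ y in x..2, g y)) (𝓝[>] (1/2))
      (𝓝 (1 / Real.pi * (A - ∫ y in (1/2)..2, g y))) := by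
    apply Tendsto.const_mul
    apply Tendsto.const_sub
    have h6 := h4.neg
    rw [← intervalIntegral.integral_symm] at h6
    refine h6.congr fun s => ?_
    rw [← intervalIntegral.integral_symm]
  have e : Sarg t = 1 / Real.pi * (A - ∫ y in (1/2)..2, g y) := by
    unfold Sarg
    rw [hA, hg]
  rw [e]
  refine h5.congr' ?_
  filter_upwards [near_half] with x hx
  rw [TT_zero hRH hx.1 ht, hA, hg]

lemma exists_good (T : ℝ) : ∃ T' : ℝ, |T| + 1 < T' ∧ riemannZeta (((1/2 : ℝ) : ℂ) + T' * I) ≠ 0 := by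
  have hd := MeasureTheory.Measure.dense_of_ae zeros_ae
  obtain ⟨x, hx1, hx2⟩ := hd.exists_mem_open (isOpen_Ioo (a := |T| + 1) (b := |T| + 2))
    ⟨|T| + 3/2, by constructor <;> linarith⟩
  exact ⟨x, hx2.1, hx1⟩

lemma TT_zero_bd (hRH : RiemannHypothesis) (T : ℝ) : ∃ C : ℝ, ∀ᶠ x : ℝ in 𝓝[>] (1/2), ∀ t : ℝ, 0 < t → t ≤ T →
    |TT 0 x t| ≤ C := by
  obtain ⟨T', hT', hz⟩ := exists_good T
  obtain ⟨C0, hC0, h0⟩ := re_QQ hRH
  have hT'0 : 0 < T' := by have := abs_nonneg T; linarith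
  have hTT' : T ≤ T' := by have := le_abs_self T; linarith
  obtain ⟨C', hC'⟩ : ∃ C' : ℝ, C' = Real.log (2 + T') / 2 + C0 := ⟨_, rfl⟩
  have hC'0 : 0 ≤ C' := by
    rw [hC']
    have := Real.log_nonneg (x := 2 + T') (by linarith)
    linarith
  have hlim := TT_zero_lim hRH hT'0 hz
  have hev : ∀ᶠ x : ℝ in 𝓝[>] (1/2), |TT 0 x T'| ≤ |Sfun T'| + 1 := by
    have := (hlim.abs).eventually (gt_mem_nhds (lt_add_one |Sfun T'|))
    filter_upwards [this] with x hx
    exact hx.le
  refine ⟨1 / Real.pi * (Real.pi + C' * T' + (Real.pi * (|Sfun T'| + 1) + C' * T')), ?_⟩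
  filter_upwards [near_half, hev] with x hx hxT t ht htT
  -- monotonicity
  have hmem : ∀ y : ℝ, 0 < y → ((x : ℂ) + y * I) ∈ DD := fun y hy => mem_DD hx.1 hy
  have hder : ∀ y : ℝ, 0 < y → HasDerivAt (fun y : ℝ => (LL 1 ((x : ℂ) + y * I)).im + C' * y)
      ((ZZ ((x : ℂ) + y * I)).re + C') y := by
    intro y hy
    have h3 := LL_deriv hRH 0 (hmem y hy)
    have h4 : HasDerivAt (fun y : ℝ => (x + y * I : ℂ)) I y := by
      have := ((Complex.ofRealCLM.hasDerivAt (x := y)).mul_const I).const_add (x : ℂ)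
      simpa using this
    have h5 := HasDerivAt.comp y h3 h4
    have h6 : HasDerivAt (fun y : ℝ => (LL 1 ((x : ℂ) + y * I)).im) ((-LL 0 ((x : ℂ) + y * I) * I).im) y :=
      (Complex.imCLM.hasFDerivAt.comp_hasDerivAt y h5)
    have h7 := h6.add ((hasDerivAt_id y).const_mul C')
    refine h7.congr_deriv ?_
    have h8 : LL 0 ((x : ℂ) + y * I) = -ZZ (x + y * I) := rfl
    rw [h8]
    simp
  have hnn : ∀ y : ℝ, 0 < y → y ≤ T' → 0 ≤ (ZZ ((x : ℂ) + y * I)).re + C' := by
    intro y hy hyT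
    have h1 := h0 ((x : ℂ) + y * I) (by simpa using hx.1) (by simp; linarith [hx.2])
    have e1 : ((x : ℂ) + y * I).im = y := by simp
    rw [e1, abs_of_pos hy] at h1
    have h2 : Real.log (2 + y) ≤ Real.log (2 + T') := Real.log_le_log (by linarith) (by linarith)
    have h3 : (1 / (((x : ℂ) + y * I) - 1)).re ≤ 0 := by
      rw [one_div, Complex.inv_re]
      apply div_nonpos_of_nonpos_of_nonneg
      · simp; linarith [hx.2]
      · exact Complex.normSq_nonneg _
    unfold ZZ
    rw [Complex.sub_re, hC']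
    linarith
  have hmono : MonotoneOn (fun y : ℝ => (LL 1 ((x : ℂ) + y * I)).im + C' * y) (Ioc 0 T') := by
    apply monotoneOn_of_deriv_nonneg (convex_Ioc 0 T')
    · intro y hy
      exact (hder y hy.1).continuousAt.continuousWithinAt
    · intro y hy
      rw [interior_Ioc] at hy
      exact (hder y hy.1).differentiableAt.differentiableWithinAt
    · intro y hy
      rw [interior_Ioc] at hy
      rw [(hder y hy.1).deriv]
      exact hnn y hy.1 hy.2.le
  have hup := hmono ⟨ht, htT.trans hTT'⟩ ⟨hT'0, le_rfl⟩ (htT.trans hTT')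
  simp only at hup
  have hlow : -Real.pi ≤ (LL 1 ((x : ℂ) + t * I)).im + C' * t := by
    have h1 := LL1_im_lim hRH hx.1 (by linarith [hx.2])
    rw [if_pos (by linarith [hx.2])] at h1
    have h2 : Tendsto (fun s : ℝ => C' * s) (𝓝[>] 0) (𝓝 0) := by
      have : ContinuousAt (fun s : ℝ => C' * s) 0 := by fun_prop
      have h := this.tendsto
      simp only [mul_zero] at h
      exact h.mono_left nhdsWithin_le_nhds
    have h3 := h1.add h2
    rw [add_zero] at h3
    refine le_of_tendsto h3 ?_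
    filter_upwards [self_mem_nhdsWithin, nhdsWithin_le_nhds (Iic_mem_nhds ht)] with s hs hst
    have hst' : s ≤ t := hst
    exact hmono ⟨hs, hst'.trans (htT.trans hTT')⟩ ⟨ht, htT.trans hTT'⟩ hst'
  have eT : ∀ y : ℝ, TT 0 x y = 1 / Real.pi * (LL 1 ((x : ℂ) + y * I)).im := by
    intro y
    unfold TT
    rw [pow_zero, one_mul]
  have hpi := Real.pi_pos
  have hxT' : (LL 1 ((x : ℂ) + T' * I)).im ≤ Real.pi * (|Sfun T'| + 1) := by
    have h1 := (abs_le.1 hxT).2
    rw [eT] at h1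
    calc (LL 1 ((x : ℂ) + T' * I)).im = Real.pi * (1 / Real.pi * (LL 1 ((x : ℂ) + T' * I)).im) := by
          field_simp
      _ ≤ _ := by gcongr
  rw [eT, abs_mul, abs_of_pos (by positivity : 0 < 1 / Real.pi)]
  apply mul_le_mul_of_nonneg_left _ (by positivity)
  have hCt : C' * t ≤ C' * T' := by gcongr; linarith
  have hCt0 : 0 ≤ C' * t := by positivity
  have hCT0 : 0 ≤ C' * T' := by positivity
  have hS0 : 0 ≤ Real.pi * (|Sfun T'| + 1) := by positivity
  rw [abs_le]
  constructor <;> linarith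

theorem TT_lim (hRH : RiemannHypothesis) (n : ℕ) :
    (∀ T : ℝ, ∃ C : ℝ, ∀ᶠ x : ℝ in 𝓝[>] (1/2), ∀ t : ℝ, 0 < t → t ≤ T → |TT n x t| ≤ C) ∧
    (∀ᵐ t : ℝ, 0 < t → Tendsto (fun x => TT n x t) (𝓝[>] (1/2)) (𝓝 (Sn n t))) ∧
    (n ≠ 0 → ∀ t : ℝ, 0 < t → Tendsto (fun x => TT n x t) (𝓝[>] (1/2)) (𝓝 (Sn n t))) := by
  induction n with
  | zero =>
    refine ⟨fun T => TT_zero_bd hRH T, ?_, fun h => absurd rfl h⟩
    filter_upwards [zeros_ae] with t ht ht0
    exact TT_zero_lim hRH ht0 ht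
  | succ n ih =>
    obtain ⟨ih1, ih2, -⟩ := ih
    have hlim : ∀ t : ℝ, 0 < t → Tendsto (fun x => TT (n + 1) x t) (𝓝[>] (1/2)) (𝓝 (Sn (n + 1) t)) := by
      intro t ht
      obtain ⟨C, hC⟩ := ih1 t
      have h1 : Tendsto (fun x => ∫ y in (0:ℝ)..t, TT n x y) (𝓝[>] (1/2)) (𝓝 (∫ y in (0:ℝ)..t, Sn n y)) := by
        refine intervalIntegral.tendsto_integral_filter_of_dominated_convergence (fun _ => C) ?_ ?_
          intervalIntegrable_const ?_
        · filter_upwards [near_half] with x hx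
          apply ContinuousOn.aestronglyMeasurable _ measurableSet_uIoc
          rw [uIoc_of_le ht.le]
          have h2 := (vline_cont hRH (n + 1) hx.1).mono (Ioc_subset_Ioi_self : Ioc (0:ℝ) t ⊆ Ioi 0)
          unfold TT
          exact continuousOn_const.mul (Complex.continuous_im.comp_continuousOn (continuousOn_const.mul h2))
        · filter_upwards [hC] with x hx
          refine Eventually.of_forall fun y hy => ?_
          rw [uIoc_of_le ht.le] at hy
          exact hx y hy.1 hy.2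
        · filter_upwards [ih2] with y hy hyt
          rw [uIoc_of_le ht.le] at hyt
          exact hy hyt.1
      have h2 := h1.add (dd_lim hRH n)
      refine h2.congr' ?_
      filter_upwards [near_half] with x hx
      rw [TT_succ hRH n hx.1 (by linarith [hx.2]) ht]
    refine ⟨fun T => ?_, Eventually.of_forall fun t ht => hlim t ht, fun _ => hlim⟩
    obtain ⟨C, hC⟩ := ih1 T
    have hev := ((dd_lim hRH n).abs).eventually (gt_mem_nhds (lt_add_one |del (n + 1)|))
    refine ⟨|C| * |T| + (|del (n + 1)| + 1), ?_⟩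
    filter_upwards [near_half, hC, hev] with x hx hxC hxd t ht htT
    rw [TT_succ hRH n hx.1 (by linarith [hx.2]) ht]
    refine (abs_add_le _ _).trans ?_
    have h3 : |∫ y in (0:ℝ)..t, TT n x y| ≤ |C| * |T| := by
      have h4 := intervalIntegral.norm_integral_le_of_norm_le_const (a := 0) (b := t) (C := |C|)
        (f := fun y : ℝ => TT n x y) (by
          intro y hy
          rw [uIoc_of_le ht.le] at hy
          exact (hxC y hy.1 (hy.2.trans htT)).trans (le_abs_self C))
      rw [sub_zero, abs_of_pos ht] at h4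
      refine h4.trans ?_
      gcongr
      exact htT.trans (le_abs_self T)
    linarith

end

end Pool.Agent.R305.SK
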