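import Pool.Agent.W120.WM.Key
import Pool.Agent.H986R2.K4.HHb

set_option autoImplicit false

/-! Positivity of the real part of the logarithmic derivative, on the Riemann hypothesis. -/

namespace Pool.Agent.R305.SK

open Complex Filter Topology Set Polynomial
open Pool.Agent.H24R2.JP (XX FF HH)

noncomputable section

lemma ms_re (m : Multiset ℂ) (h : ∀ w ∈ m, 0 ≤ w.re) : 0 ≤ m.sum.re := by
  induction m using Multiset.induction_on with
  | empty => simp
  | cons w m ih =>
    rw [Multiset.sum_cons, Complex.add_re]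
    have h1 := h w (Multiset.mem_cons_self w m)
    have h2 := ih (fun v hv => h v (Multiset.mem_cons_of_mem hv))
    linarith

lemma poly_pos (Q : ℂ[X]) (hQ : ∀ w, Q.eval w = 0 → w.re = 0) {z : ℂ} (hz : 0 < z.re) :
    0 ≤ (Q.derivative.eval z / Q.eval z).re := by
  have hne : Q.eval z ≠ 0 := by
    intro h
    have := hQ z h
    linarith
  have hQ0 : Q ≠ 0 := by
    rintro rfl
    simp at hne
  rw [(IsAlgClosed.splits Q).eval_derivative_div_eval_of_ne_zero hne]
  apply ms_re
  intro w hw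
  rw [Multiset.mem_map] at hw
  obtain ⟨v, hv, rfl⟩ := hw
  have hv0 : v.re = 0 := hQ v ((mem_roots hQ0).1 hv)
  rw [one_div, Complex.inv_re, Complex.sub_re, hv0, sub_zero]
  have := Complex.normSq_nonneg (z - v)
  positivity

lemma rhp (hRH : RiemannHypothesis) : Pool.Agent.W120.WM.RHp := by
  intro ρ hρ
  obtain ⟨h1, h2, h3⟩ := hρ
  refine hRH ρ h1 ?_ ?_
  · rintro ⟨n, hn⟩
    rw [hn] at h2
    simp at h2
    have : (0:ℝ) ≤ n := Nat.cast_nonneg n
    linarith
  · rintro rfl
    simp at h3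

/-- positivity -/
theorem xx_pos (hRH : RiemannHypothesis) {z : ℂ} (hz : 0 < z.re) : 0 ≤ (logDeriv XX z).re := by
  have hb := Pool.Agent.H24R2.JP.b1
  obtain ⟨hFd, hFX, hFc, -⟩ := hb
  obtain ⟨K, hK⟩ := Pool.Agent.H24R2.JP.grow Pool.Agent.H24R2.JP.b1
  obtain ⟨P, hP1, hP2⟩ := Pool.Agent.H24R2.JP.had FF K hFd Pool.Agent.W120.WM.FF_zero hFc hK
  set Q : ℕ → ℂ[X] := fun N => ((P N).map (algebraMap ℝ ℂ)).comp (X ^ 2) with hQ
  have hev : ∀ N z, (Q N).eval z = aeval (z ^ 2) (P N) := by
    intro N z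
    simp only [hQ, eval_comp, eval_pow, eval_X, eval_map_algebraMap]
  have hXX : (fun z : ℂ => FF (z ^ 2)) = XX := funext hFX
  have hlim : TendstoLocallyUniformly (fun N z => (Q N).eval z) XX atTop := by
    have h := hP2.comp (fun z : ℂ => z ^ 2) (by fun_prop)
    rw [← hXX]
    have e : (fun (N : ℕ) (z : ℂ) => (Q N).eval z) =
        fun N => (fun x : ℂ => aeval x (P N)) ∘ (fun z : ℂ => z ^ 2) := by
      funext N z
      exact hev N z
    rw [e]
    exact h
  have hzz : ∀ N z, (Q N).eval z = 0 → XX z = 0 := by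
    intro N z h
    rw [← hFX]
    apply hP1 N
    rw [← hev]
    exact h
  have hne : XX z ≠ 0 := by
    intro h
    have := Pool.Agent.W733.WM.xx_re (rhp hRH) z h
    linarith
  have hlimU : TendstoLocallyUniformlyOn (fun N z => (Q N).eval z) XX atTop univ :=
    tendstoLocallyUniformlyOn_univ.2 hlim
  have hderU := hlimU.deriv
    (Eventually.of_forall fun N => (Q N).differentiable.differentiableOn) isOpen_univ
  have hder : Tendsto (fun N => (Q N).derivative.eval z) atTop (𝓝 (deriv XX z)) := by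
    have h := hderU.tendsto_at (mem_univ z)
    refine h.congr fun N => ?_
    simp [Polynomial.deriv]
  have hpt : Tendsto (fun N => (Q N).eval z) atTop (𝓝 (XX z)) := hlimU.tendsto_at (mem_univ _)
  have h3 := hder.div hpt hne
  have h4 := (Complex.continuous_re.tendsto _).comp h3
  rw [logDeriv_apply]
  refine ge_of_tendsto' h4 fun N => ?_
  exact poly_pos (Q N) (fun w hw => Pool.Agent.W733.WM.xx_re (rhp hRH) w (hzz N w hw)) hz

/-- the gamma factor -/
def GG (s : ℂ) : ℂ := s * Gammaℝ s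

lemma XX_eq {s : ℂ} (hs : 1/2 ≤ s.re) : XX (s - 1/2) = 4 * (GG s * riemannZeta₁ s) := by
  by_cases h1 : s = 1
  · subst h1
    unfold XX GG
    rw [riemannZeta₁_one, Gammaℝ_one]
    norm_num
  · have h := Pool.Agent.H24R2.JP.B1h.XX_zeta (s - 1/2) (by simp; linarith)
    rw [h]
    have e : (1:ℂ) / 2 + (s - 1 / 2) = s := by ring
    rw [e, riemannZeta_eq_inv_sub_mul h1]
    have hs1 : s - 1 ≠ 0 := sub_ne_zero.2 h1
    have hs2 : 1 - s ≠ 0 := sub_ne_zero.2 (Ne.symm h1)
    have hs0 : s ≠ 0 := by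
      rintro rfl
      simp at hs
      linarith
    unfold GG
    have e3 : 4 * (s - 1/2) ^ 2 - 1 = 4 * (s - 1) * s := by ring
    rw [e3]
    have e4 : (1 : ℂ) / (1 - s) = -(s - 1)⁻¹ := by
      rw [one_div, ← inv_neg]; congr 1; ring
    rw [e4]
    field_simp
    ring

lemma GG_ne {s : ℂ} (hs : 0 < s.re) : GG s ≠ 0 := by
  unfold GG
  refine mul_ne_zero ?_ (Gammaℝ_ne_zero_of_re_pos hs)
  rintro rfl
  simp at hs

lemma GG_diff {s : ℂ} (hs : 0 < s.re) : DifferentiableAt ℂ GG s := by
  unfold GG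
  have h : DifferentiableAt ℂ Gammaℝ s := by
    unfold Gammaℝ
    have h1 : DifferentiableAt ℂ (fun s : ℂ => (Real.pi : ℂ) ^ (-s / 2)) s := by
      apply DifferentiableAt.const_cpow (by fun_prop)
      left
      exact_mod_cast Real.pi_ne_zero
    have h2 : DifferentiableAt ℂ (fun s : ℂ => Complex.Gamma (s / 2)) s := by
      apply DifferentiableAt.comp (f := fun s : ℂ => s / 2) s _ (by fun_prop)
      apply Complex.differentiableAt_Gamma
      intro m hm
      have := congrArg Complex.re hm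
      simp at this
      have h3 : (0:ℝ) ≤ m := Nat.cast_nonneg m
      linarith
    exact h1.mul h2
  exact differentiableAt_id.mul h

lemma z1_ne (hRH : RiemannHypothesis) {s : ℂ} (hs : 1/2 < s.re) : riemannZeta₁ s ≠ 0 := by
  intro h
  by_cases h1 : s = 1
  · subst h1
    simp at h
  have hz : riemannZeta s = 0 := by rw [riemannZeta_eq_inv_sub_mul h1, h, mul_zero]
  have := hRH s hz (by
    rintro ⟨n, hn⟩
    rw [hn] at hs
    simp at hs
    have : (0:ℝ) ≤ n := Nat.cast_nonneg n
    linarith) h1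
  linarith

/-- the logarithmic derivative of `(s - 1) ζ(s)` -/
def QQ (s : ℂ) : ℂ := logDeriv riemannZeta₁ s

lemma QQ_diff (hRH : RiemannHypothesis) {s : ℂ} (hs : 1/2 < s.re) : DifferentiableAt ℂ QQ s := by
  unfold QQ logDeriv
  have h1 : DifferentiableAt ℂ (deriv riemannZeta₁) s :=
    (differentiable_riemannZeta₁.analyticAt s).deriv.differentiableAt
  exact h1.div differentiable_riemannZeta₁.differentiableAt (z1_ne hRH hs)

lemma ld_XX {s : ℂ} (hs : 1/2 < s.re) (h0 : riemannZeta₁ s ≠ 0) :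
    logDeriv XX (s - 1/2) = logDeriv GG s + QQ s := by
  have hev : (fun s : ℂ => XX (s - 1/2)) =ᶠ[𝓝 s] fun s => 4 * (GG s * riemannZeta₁ s) := by
    have hopen : IsOpen {s : ℂ | 1/2 < s.re} := isOpen_lt continuous_const Complex.continuous_re
    filter_upwards [hopen.mem_nhds hs] with w hw
    exact XX_eq (le_of_lt hw)
  have h1 : logDeriv (fun s : ℂ => XX (s - 1/2)) s = logDeriv XX (s - 1/2) := by
    rw [logDeriv_apply, logDeriv_apply, deriv_comp_sub_const]
  rw [← h1, logDeriv_apply, hev.deriv_eq, hev.eq_of_nhds, ← logDeriv_apply (fun s => 4 * (GG s * riemannZeta₁ s)) s,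
    logDeriv_const_mul (f := fun s => GG s * riemannZeta₁ s) s 4 (by norm_num),
    logDeriv_mul s (GG_ne (by linarith)) h0 (GG_diff (by linarith)) differentiable_riemannZeta₁.differentiableAt]
  rfl

end

end Pool.Agent.R305.SK
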