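import Pool.Agent.R305.SK.Z1

set_option autoImplicit false

/-! Bounds for the logarithmic derivative, on the Riemann hypothesis. -/

namespace Pool.Agent.R305.SK

open Complex Filter Topology Set
open Pool.Agent.H24R2.JP (XX FF HH Om)

noncomputable section

lemma z1_eq {s : ℂ} (h : s ≠ 1) : riemannZeta₁ s = (s - 1) * riemannZeta s := by
  rw [riemannZeta_eq_inv_sub_mul h, ← mul_assoc, mul_inv_cancel₀ (sub_ne_zero.2 h), one_mul]

lemma z1_conj (s : ℂ) : riemannZeta₁ ((starRingEnd ℂ) s) = (starRingEnd ℂ) (riemannZeta₁ s) := by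
  by_cases h : s = 1
  · subst h; simp
  · have h2 : (starRingEnd ℂ) s ≠ 1 := by
      intro h3
      apply h
      have := congrArg (starRingEnd ℂ) h3
      simpa using this
    rw [z1_eq h, z1_eq h2, riemannZeta_conj, map_mul, map_sub, map_one]

lemma ld_conj {f : ℂ → ℂ} (hf : ∀ s, f ((starRingEnd ℂ) s) = (starRingEnd ℂ) (f s)) (s : ℂ) :
    logDeriv f ((starRingEnd ℂ) s) = (starRingEnd ℂ) (logDeriv f s) := by
  have e : f = (starRingEnd ℂ) ∘ f ∘ (starRingEnd ℂ) := by
    funext u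
    rw [Function.comp_apply, Function.comp_apply, hf, Complex.conj_conj]
  have h1 : deriv f ((starRingEnd ℂ) s) = (starRingEnd ℂ) (deriv f s) := by
    conv_lhs => rw [e]
    rw [deriv_conj_conj, Function.comp_apply, Function.comp_apply, Complex.conj_conj]
  rw [logDeriv_apply, logDeriv_apply, h1, hf, map_div₀]

lemma QQ_conj (s : ℂ) : QQ ((starRingEnd ℂ) s) = (starRingEnd ℂ) (QQ s) := ld_conj z1_conj s

lemma GG_hi : ∃ K T0 : ℝ, 1 ≤ T0 ∧ ∀ s : ℂ, 1/2 ≤ s.re → s.re ≤ 5/2 → T0 ≤ s.im →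
    (logDeriv GG s).re ≤ Real.log s.im / 2 + K := by
  obtain ⟨K, hK, h⟩ := Pool.Agent.H986R2.K4.hh
  obtain ⟨T0, hT0, h2⟩ := h 2 (by norm_num)
  refine ⟨K + 1, T0, by linarith, fun s h3 h4 h5 => ?_⟩
  have h6 := h2 s.im ((s.re - 1/2 : ℝ) : ℂ) h5 (by
    rw [Complex.norm_real, Real.norm_eq_abs, abs_le]; constructor <;> linarith)
  have e : I * (s.im : ℂ) + ((s.re - 1/2 : ℝ) : ℂ) = s - 1/2 := by
    apply Complex.ext <;> simp
  rw [e] at h6
  obtain ⟨-, -, h7, -, -⟩ := h6
  have him : 0 < s.im := by linarith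
  have hs1 : s - 1 ≠ 0 := by
    intro h8
    have := congrArg Complex.im h8
    simp at this
    linarith
  have h8 : logDeriv HH (s - 1/2) = 1 / (s - 1) + logDeriv GG s := by
    have hf : (fun w : ℂ => HH (w - 1/2)) = fun w => (4 * (w - 1)) * GG w := by
      funext w
      unfold Pool.Agent.H24R2.JP.HH GG
      rw [show (1:ℂ)/2 + (w - 1/2) = w by ring]
      ring
    have h9 : logDeriv (fun w : ℂ => HH (w - 1/2)) s = logDeriv HH (s - 1/2) := by
      rw [logDeriv_apply, logDeriv_apply, deriv_comp_sub_const]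
    rw [← h9, hf, logDeriv_mul (f := fun w : ℂ => 4 * (w - 1)) s (mul_ne_zero (by norm_num) hs1)
      (GG_ne (by linarith)) (by fun_prop) (GG_diff (by linarith))]
    congr 1
    rw [logDeriv_const_mul (f := fun w : ℂ => w - 1) s 4 (by norm_num), logDeriv_apply]
    simp
  rw [h8] at h7
  have h10 := Complex.abs_re_le_norm (1 / (s - 1) + logDeriv GG s - (Om s.im : ℂ))
  have h11 := (abs_le.1 (h10.trans h7)).2
  simp only [Complex.sub_re, Complex.add_re, Complex.ofReal_re] at h11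
  have h12 : |(1 / (s - 1)).re| ≤ 1 := by
    refine (Complex.abs_re_le_norm _).trans ?_
    rw [norm_div, norm_one]
    have h13 : (1:ℝ) ≤ ‖s - 1‖ := by
      have := Complex.abs_im_le_norm (s - 1)
      simp only [Complex.sub_im, Complex.one_im, sub_zero] at this
      have := le_abs_self s.im
      linarith
    rw [div_le_one (by linarith)]
    exact h13
  have h14 := (abs_le.1 h12).1
  unfold Pool.Agent.H24R2.JP.Om at h11
  linarith

lemma GG_all : ∃ K : ℝ, 0 ≤ K ∧ ∀ s : ℂ, 1/2 ≤ s.re → s.re ≤ 5/2 → 0 ≤ s.im →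
    (logDeriv GG s).re ≤ Real.log (2 + s.im) / 2 + K := by
  obtain ⟨K, T0, hT0, h⟩ := GG_hi
  have hcomp : IsCompact (Icc (1/2 : ℝ) (5/2) ×ℂ Icc (0:ℝ) T0) := isCompact_Icc.reProdIm isCompact_Icc
  obtain ⟨M, hM⟩ := hcomp.exists_bound_of_continuousOn (f := logDeriv GG) (by
    intro s hs
    rw [mem_reProdIm] at hs
    have hre : 0 < s.re := by linarith [hs.1.1]
    have h1 : DifferentiableAt ℂ (deriv GG) s := by
      have hopen : IsOpen {s : ℂ | 0 < s.re} := isOpen_lt continuous_const Complex.continuous_re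
      have hd : DifferentiableOn ℂ GG {s : ℂ | 0 < s.re} := fun w hw => (GG_diff hw).differentiableWithinAt
      exact (hd.analyticAt (hopen.mem_nhds hre)).deriv.differentiableAt
    have h2 : ContinuousAt (logDeriv GG) s := by
      unfold logDeriv
      exact (h1.div (GG_diff hre) (GG_ne hre)).continuousAt
    exact h2.continuousWithinAt)
  refine ⟨max (max K 0) M, le_max_of_le_left (le_max_right _ _), fun s h1 h2 h3 => ?_⟩
  have hl : 0 ≤ Real.log (2 + s.im) := Real.log_nonneg (by linarith)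
  by_cases h4 : s.im ≤ T0
  · have h5 := hM s (by rw [mem_reProdIm]; exact ⟨⟨h1, h2⟩, ⟨h3, h4⟩⟩)
    have h6 := (le_abs_self _).trans ((Complex.abs_re_le_norm (logDeriv GG s)).trans h5)
    have := le_max_right (max K 0) M
    linarith
  · push Not at h4
    have h5 := h s h1 h2 h4.le
    have h6 : Real.log s.im ≤ Real.log (2 + s.im) := Real.log_le_log (by linarith) (by linarith)
    have := le_max_left (max K 0) M
    have := le_max_left K 0
    linarith

/-- lower bound for the real part -/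
theorem re_QQ (hRH : RiemannHypothesis) : ∃ C0 : ℝ, 1 ≤ C0 ∧ ∀ s : ℂ, 1/2 < s.re → s.re ≤ 5/2 →
    -(Real.log (2 + |s.im|) / 2 + C0) ≤ (QQ s).re := by
  obtain ⟨K, hK, h⟩ := GG_all
  have key : ∀ s : ℂ, 1/2 < s.re → s.re ≤ 5/2 → 0 ≤ s.im →
      -(Real.log (2 + s.im) / 2 + K) ≤ (QQ s).re := by
    intro s h1 h2 h3
    have h4 := ld_XX h1 (z1_ne hRH h1)
    have h5 := xx_pos hRH (z := s - 1/2) (by simpa using h1)
    rw [h4, Complex.add_re] at h5
    have h6 := h s h1.le h2 h3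
    linarith
  refine ⟨K + 1, by linarith, fun s h1 h2 => ?_⟩
  rcases le_total 0 s.im with h3 | h3
  · rw [abs_of_nonneg h3]
    have := key s h1 h2 h3
    linarith
  · rw [abs_of_nonpos h3]
    have h4 := key ((starRingEnd ℂ) s) (by simpa using h1) (by simpa using h2) (by simpa using h3)
    rw [QQ_conj, Complex.conj_re, Complex.conj_im] at h4
    linarith

/-- the logarithmic derivative of zeta -/
def ZZ (s : ℂ) : ℂ := QQ s - 1 / (s - 1)

lemma ZZ_eq {s : ℂ} (h1 : s ≠ 1) (h0 : riemannZeta₁ s ≠ 0) : logDeriv riemannZeta s = ZZ s := by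
  have hev : riemannZeta =ᶠ[𝓝 s] fun w => (w - 1)⁻¹ * riemannZeta₁ w := by
    filter_upwards [isOpen_ne.mem_nhds h1] with w hw
    exact riemannZeta_eq_inv_sub_mul hw
  have hs1 : s - 1 ≠ 0 := sub_ne_zero.2 h1
  have hd : HasDerivAt (fun w : ℂ => (w - 1)⁻¹) (-1 / (s - 1) ^ 2) s :=
    ((hasDerivAt_id s).sub_const 1).inv hs1
  rw [logDeriv_apply, hev.deriv_eq, hev.eq_of_nhds, ← logDeriv_apply (fun w => (w - 1)⁻¹ * riemannZeta₁ w) s,
    logDeriv_mul (f := fun w : ℂ => (w - 1)⁻¹) s (inv_ne_zero hs1) h0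
      hd.differentiableAt differentiable_riemannZeta₁.differentiableAt]
  have h2 : logDeriv (fun w : ℂ => (w - 1)⁻¹) s = -(1 / (s - 1)) := by
    rw [logDeriv_apply, hd.deriv]
    field_simp
  rw [h2]
  unfold ZZ QQ
  ring

lemma ZZ_conj (s : ℂ) : ZZ ((starRingEnd ℂ) s) = (starRingEnd ℂ) (ZZ s) := by
  unfold ZZ
  rw [QQ_conj, map_sub, map_div₀, map_one, map_sub, map_one]

/-- decay to the right -/
theorem ZZ_bd {δ : ℝ} (hδ : 0 < δ) : ∃ C : ℝ, 0 ≤ C ∧ ∀ s : ℂ, 1 + δ ≤ s.re →
    ‖ZZ s‖ ≤ C * Real.exp (-(s.re / 2)) := by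
  have hsum := ArithmeticFunction.LSeriesSummable_vonMangoldt (s := ((1 + δ : ℝ) : ℂ)) (by simpa using hδ)
  obtain ⟨S, hS⟩ : ∃ S : ℝ, S = ∑' n : ℕ, ‖LSeries.term (fun n => ((ArithmeticFunction.vonMangoldt n : ℝ) : ℂ)) ((1 + δ : ℝ) : ℂ) n‖ := ⟨_, rfl⟩
  have hS0 : 0 ≤ S := by rw [hS]; exact tsum_nonneg fun n => norm_nonneg _
  refine ⟨S * Real.exp ((1 + δ) / 2), by positivity, fun s hs => ?_⟩
  have h1 : 1 < s.re := by linarith
  have hs1 : s ≠ 1 := by rintro rfl; simp at h1
  have hz : riemannZeta₁ s ≠ 0 := by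
    rw [z1_eq hs1]
    exact mul_ne_zero (sub_ne_zero.2 hs1) (riemannZeta_ne_zero_of_one_le_re h1.le)
  have h2 := ArithmeticFunction.LSeries_vonMangoldt_eq_deriv_riemannZeta_div h1
  have h3 : ‖ZZ s‖ = ‖LSeries (fun n => ((ArithmeticFunction.vonMangoldt n : ℝ) : ℂ)) s‖ := by
    rw [← ZZ_eq hs1 hz, logDeriv_apply, h2, norm_div, norm_div, norm_neg]
  rw [h3]
  have hterm : ∀ n : ℕ, ‖LSeries.term (fun n => ((ArithmeticFunction.vonMangoldt n : ℝ) : ℂ)) s n‖ ≤
      ‖LSeries.term (fun n => ((ArithmeticFunction.vonMangoldt n : ℝ) : ℂ)) ((1 + δ : ℝ) : ℂ) n‖ *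
        Real.exp (-((s.re - (1 + δ)) / 2)) := by
    intro n
    rw [LSeries.norm_term_eq, LSeries.norm_term_eq]
    split_ifs with hn
    · simp
    · rcases Nat.lt_or_ge n 2 with hn2 | hn2
      · have : n = 1 := by omega
        subst this
        simp
      · have hn0 : (0:ℝ) < n := by positivity
        have hn2' : (2:ℝ) ≤ n := by exact_mod_cast hn2
        have e1 : (n : ℝ) ^ s.re = (n : ℝ) ^ (1 + δ) * (n : ℝ) ^ (s.re - (1 + δ)) := by
          rw [← Real.rpow_add hn0]
          congr 1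
          ring
        have e2 : Real.exp ((s.re - (1 + δ)) / 2) ≤ (n : ℝ) ^ (s.re - (1 + δ)) := by
          rw [Real.rpow_def_of_pos hn0]
          apply Real.exp_le_exp.2
          have h5 : (1:ℝ)/2 ≤ Real.log n := by
            have := Real.log_two_gt_d9
            have h6 : Real.log 2 ≤ Real.log n := Real.log_le_log (by norm_num) hn2'
            linarith
          nlinarith [hs]
        simp only [Complex.ofReal_re]
        rw [e1, Real.exp_neg]
        have hp : 0 < (n : ℝ) ^ (1 + δ) := Real.rpow_pos_of_pos hn0 _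
        have he := Real.exp_pos ((s.re - (1 + δ)) / 2)
        rw [div_mul_eq_mul_div, div_le_div_iff₀ (by positivity) hp]
        have hL : 0 ≤ ‖((ArithmeticFunction.vonMangoldt n : ℝ) : ℂ)‖ := norm_nonneg _
        calc ‖((ArithmeticFunction.vonMangoldt n : ℝ) : ℂ)‖ * (n : ℝ) ^ (1 + δ)
            = ‖((ArithmeticFunction.vonMangoldt n : ℝ) : ℂ)‖ * (Real.exp ((s.re - (1 + δ)) / 2))⁻¹ * ((n : ℝ) ^ (1 + δ) * Real.exp ((s.re - (1 + δ)) / 2)) := by
              field_simp
          _ ≤ _ := by gcongr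
  have hsumn := hsum.norm
  calc ‖LSeries (fun n => ((ArithmeticFunction.vonMangoldt n : ℝ) : ℂ)) s‖
      ≤ ∑' n : ℕ, ‖LSeries.term (fun n => ((ArithmeticFunction.vonMangoldt n : ℝ) : ℂ)) ((1 + δ : ℝ) : ℂ) n‖ *
        Real.exp (-((s.re - (1 + δ)) / 2)) := by
        unfold LSeries
        exact tsum_of_norm_bounded (hsumn.mul_right _).hasSum hterm
    _ = S * Real.exp (-((s.re - (1 + δ)) / 2)) := by rw [tsum_mul_right, hS]
    _ = S * Real.exp ((1 + δ) / 2) * Real.exp (-(s.re / 2)) := by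
        rw [mul_assoc, ← Real.exp_add]
        congr 2
        ring

lemma QQ_right {δ : ℝ} (hδ : 0 < δ) : ∃ C : ℝ, 0 ≤ C ∧ ∀ s : ℂ, 1 + δ ≤ s.re → ‖QQ s‖ ≤ C := by
  obtain ⟨C, hC, h⟩ := ZZ_bd hδ
  refine ⟨C + 1 / δ, by positivity, fun s hs => ?_⟩
  have e : QQ s = ZZ s + 1 / (s - 1) := by unfold ZZ; ring
  rw [e]
  refine (norm_add_le _ _).trans ?_
  have h1 := h s hs
  have h2 : Real.exp (-(s.re / 2)) ≤ 1 := by
    rw [Real.exp_le_one_iff]; linarith
  have h3 : ‖1 / (s - 1)‖ ≤ 1 / δ := by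
    rw [norm_div, norm_one]
    apply one_div_le_one_div_of_le hδ
    have := Complex.re_le_norm (s - 1)
    simp only [Complex.sub_re, Complex.one_re] at this
    linarith
  have h4 : C * Real.exp (-(s.re / 2)) ≤ C * 1 := by gcongr
  linarith

/-- growth inside the half-plane -/
theorem QQ_growth (hRH : RiemannHypothesis) : ∃ C : ℝ, 0 ≤ C ∧ ∀ s : ℂ, 1/2 < s.re → s.re ≤ 2 →
    ‖QQ s‖ ≤ C * (1 + Real.log (2 + |s.im|)) / (s.re - 1/2) := by
  obtain ⟨C1, hC1, h1⟩ := QQ_right (δ := 1/4) (by norm_num)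
  obtain ⟨C0, hC0, h0⟩ := re_QQ hRH
  refine ⟨3/2 * C1 + 3 * C0 + 3, by positivity, fun s hs1 hs2 => ?_⟩
  have hlog : 0 ≤ Real.log (2 + |s.im|) := Real.log_nonneg (by linarith [abs_nonneg s.im])
  have hpos : 0 < s.re - 1/2 := by linarith
  rw [le_div_iff₀ hpos]
  by_cases h : 5/4 ≤ s.re
  · have h2 := h1 s (by linarith)
    calc ‖QQ s‖ * (s.re - 1/2) ≤ C1 * (3/2) := by
          apply mul_le_mul h2 (by linarith) hpos.le hC1
      _ ≤ (3/2 * C1 + 3 * C0 + 3) * 1 := by linarith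
      _ ≤ _ := by
        apply mul_le_mul_of_nonneg_left _ (by positivity)
        linarith
  · push Not at h
    obtain ⟨c, hc⟩ : ∃ c : ℂ, c = ((5/4 : ℝ) : ℂ) + s.im * I := ⟨_, rfl⟩
    have hcre : c.re = 5/4 := by rw [hc]; simp
    have hcim : c.im = s.im := by rw [hc]; simp
    obtain ⟨M, hM⟩ : ∃ M : ℝ, M = Real.log (2 + |s.im|) / 2 + C0 + 1 := ⟨_, rfl⟩
    have hball : ∀ w ∈ Metric.ball (0:ℂ) (3/4), 1/2 < (c + w).re ∧ (c + w).re ≤ 5/2 ∧ |(c + w).im| ≤ |s.im| + 1 := by
      intro w hw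
      rw [mem_ball_zero_iff] at hw
      have h2 := abs_lt.1 ((Complex.abs_re_le_norm w).trans_lt hw)
      have h3 := (Complex.abs_im_le_norm w).trans_lt hw
      rw [Complex.add_re, hcre, Complex.add_im, hcim]
      refine ⟨by linarith [h2.1], by linarith [h2.2], ?_⟩
      have := abs_add_le s.im w.im
      linarith
    have hBC := Complex.borelCaratheodory (f := fun w => -QQ (c + w)) (M := M) (R := 3/4) (z := s - c)
      (by rw [hM]; positivity) (by
        intro w hw
        have h2 := hball w hw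
        have h3 := QQ_diff hRH h2.1
        exact (DifferentiableAt.comp (f := fun w : ℂ => c + w) w h3 (by fun_prop)).neg.differentiableWithinAt) (by
        intro w hw
        obtain ⟨h2, h3, h4⟩ := hball w hw
        have h5 := h0 (c + w) h2 h3
        simp only [Set.mem_ofPred_eq, Complex.neg_re]
        have h6 : Real.log (2 + |(c + w).im|) ≤ Real.log (2 + |s.im|) + 1 := by
          have h7 : 2 + |(c + w).im| ≤ (2 + |s.im|) * Real.exp 1 := by
            have := Real.add_one_le_exp (1:ℝ)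
            nlinarith [abs_nonneg s.im]
          calc Real.log (2 + |(c + w).im|) ≤ Real.log ((2 + |s.im|) * Real.exp 1) :=
                Real.log_le_log (by positivity) h7
            _ = _ := by rw [Real.log_mul (by positivity) (by positivity), Real.log_exp]
        rw [hM]
        linarith) (by norm_num) (by
        rw [mem_ball_zero_iff]
        have e : s - c = ((s.re - 5/4 : ℝ) : ℂ) := by
          apply Complex.ext <;> simp [hcre, hcim]
        rw [e, Complex.norm_real, Real.norm_eq_abs, abs_lt]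
        constructor <;> linarith)
    have hn : ‖s - c‖ = 5/4 - s.re := by
      have e : s - c = ((s.re - 5/4 : ℝ) : ℂ) := by
        apply Complex.ext <;> simp [hcre, hcim]
      rw [e, Complex.norm_real, Real.norm_eq_abs, abs_of_nonpos (by linarith)]
      ring
    simp only [add_sub_cancel, norm_neg, add_zero] at hBC
    rw [hn] at hBC
    have h3 := h1 c (by rw [hcre]; norm_num)
    have e5 : (3/4 - (5/4 - s.re)) = s.re - 1/2 := by ring
    rw [e5] at hBC
    have hMpos : 0 ≤ M := by rw [hM]; positivity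
    calc ‖QQ s‖ * (s.re - 1/2) ≤ (2 * M * (5/4 - s.re) / (s.re - 1/2) + ‖QQ c‖ * (3/4 + (5/4 - s.re)) / (s.re - 1/2)) * (s.re - 1/2) := by
          gcongr
      _ = 2 * M * (5/4 - s.re) + ‖QQ c‖ * (3/4 + (5/4 - s.re)) := by
          rw [add_mul, div_mul_cancel₀ _ hpos.ne', div_mul_cancel₀ _ hpos.ne']
      _ ≤ 2 * M * (3/4) + C1 * (3/2) := by
          have g1 : 2 * M * (5/4 - s.re) ≤ 2 * M * (3/4) := by
            apply mul_le_mul_of_nonneg_left _ (by positivity)
            linarith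
          have g2 : ‖QQ c‖ * (3/4 + (5/4 - s.re)) ≤ C1 * (3/2) := by
            apply mul_le_mul h3 (by linarith) (by linarith) hC1
          linarith
      _ ≤ _ := by
          rw [hM]
          nlinarith

end

end Pool.Agent.R305.SK
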